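import Pool.Agent.J4.H85.GD.Asy

/-!
# The limit of `C(r+R, R) t(r+R, r)`
-/

set_option autoImplicit false

open Finset Filter Topology

namespace Pool.Agent.J4.H85.GD

/-- the lower tail of the Poisson distribution -/
theorem tail_le {k : ℕ} {y : ℝ} (hk : 0 < k) (hy : (k : ℝ) ≤ y) :
    Real.exp (-y) * ∑ j ∈ range (k + 1), y ^ j / (j.factorial : ℝ) ≤
      Real.exp (k - y) * (y / k) ^ k := by
  have hk0 : (0 : ℝ) < k := by exact_mod_cast hk
  have h1 : (1 : ℝ) ≤ y / k := by rwa [le_div_iff₀ hk0, one_mul]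
  have h2 : ∑ j ∈ range (k + 1), y ^ j / (j.factorial : ℝ) ≤
      (y / k) ^ k * ∑ j ∈ range (k + 1), (k : ℝ) ^ j / (j.factorial : ℝ) := by
    rw [mul_sum]
    refine sum_le_sum fun j hj => ?_
    have hj' : j ≤ k := by have := mem_range.1 hj; omega
    have e : y ^ j = (y / k) ^ j * (k : ℝ) ^ j := by
      rw [← mul_pow]; congr 1; field_simp
    rw [e, mul_div_assoc]
    exact mul_le_mul_of_nonneg_right (pow_le_pow_right₀ h1 hj') (by positivity)
  have h3 : ∑ j ∈ range (k + 1), (k : ℝ) ^ j / (j.factorial : ℝ) ≤ Real.exp k :=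
    Real.sum_le_exp_of_nonneg hk0.le _
  have h4 : 0 < (y / k) ^ k := by positivity
  calc Real.exp (-y) * ∑ j ∈ range (k + 1), y ^ j / (j.factorial : ℝ)
      ≤ Real.exp (-y) * ((y / k) ^ k * Real.exp k) :=
        mul_le_mul_of_nonneg_left (h2.trans (mul_le_mul_of_nonneg_left h3 h4.le))
          (Real.exp_pos _).le
    _ = Real.exp (k - y) * (y / k) ^ k := by
        rw [sub_eq_add_neg, Real.exp_add]; ring

/-- the factorial moments -/
theorem moment (R : ℕ) (y : ℝ) : HasSum (fun j : ℕ => (j.choose R : ℝ) * (y ^ j / (j.factorial : ℝ)))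
    (y ^ R / (R.factorial : ℝ) * Real.exp y) := by
  have h2 := (Real.summable_pow_div_factorial y).hasSum
  rw [exp_tsum] at h2
  have h1 := h2.mul_left (y ^ R / (R.factorial : ℝ))
  have h3 : (fun j : ℕ => y ^ R / (R.factorial : ℝ) * (y ^ j / (j.factorial : ℝ))) =
      fun j : ℕ => ((j + R).choose R : ℝ) * (y ^ (j + R) / ((j + R).factorial : ℝ)) := by
    funext k
    have h1 : ((k + R).choose R : ℝ) * (R.factorial : ℝ) * (k.factorial : ℝ) =
        ((k + R).factorial : ℝ) := by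
      have h2 := Nat.choose_mul_factorial_mul_factorial (Nat.le_add_left R k)
      rw [Nat.add_sub_cancel] at h2
      exact_mod_cast h2
    have h3 : (0 : ℝ) < (R.factorial : ℝ) := by positivity
    have h4 : (0 : ℝ) < (k.factorial : ℝ) := by positivity
    have h5 : (0 : ℝ) < ((k + R).factorial : ℝ) := by positivity
    rw [pow_add]
    field_simp
    rw [← h1]
    ring
  rw [h3] at h1
  have h5 := (hasSum_nat_add_iff
    (f := fun j : ℕ => (j.choose R : ℝ) * (y ^ j / (j.factorial : ℝ))) R).1 h1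
  have h6 : ∑ j ∈ range R, (j.choose R : ℝ) * (y ^ j / (j.factorial : ℝ)) = 0 := by
    apply Finset.sum_eq_zero
    intro j hj
    rw [Nat.choose_eq_zero_of_lt (mem_range.1 hj)]
    simp
  rw [h6, add_zero] at h5
  exact h5

/-- one value of `t(r+R, r)` bounds the Poisson averages -/
theorem G_le {R : ℕ} (hR : 1 ≤ R) (r : ℕ) {y : ℝ} (hy : 0 ≤ y) :
    G R y ≤ KK R * (Real.exp (-y) * ∑ j ∈ range (r + R + 1), y ^ j / (j.factorial : ℝ)) +
      y ^ R / (R.factorial : ℝ) * tt R r := by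
  have hK := (KK_pos hR).le
  have ht := tt_nonneg R r
  have hpt : ∀ j : ℕ, cj R j * (y ^ j / (j.factorial : ℝ)) ≤
      (if j < r + R + 1 then KK R * (y ^ j / (j.factorial : ℝ)) else 0) +
        tt R r * ((j.choose R : ℝ) * (y ^ j / (j.factorial : ℝ))) := by
    intro j
    have hp : (0 : ℝ) ≤ y ^ j / (j.factorial : ℝ) := by positivity
    by_cases hj : j < r + R + 1
    · rw [if_pos hj]
      have h1 := mul_le_mul_of_nonneg_right (cj_le hR j) hp
      have h2 : 0 ≤ tt R r * ((j.choose R : ℝ) * (y ^ j / (j.factorial : ℝ))) := by positivity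
      linarith
    · rw [if_neg hj, zero_add]
      unfold cj
      have h1 : tt R (j - R) ≤ tt R r := tt_anti R (by omega)
      have h2 : (j.choose R : ℝ) * tt R (j - R) ≤ (j.choose R : ℝ) * tt R r :=
        mul_le_mul_of_nonneg_left h1 (Nat.cast_nonneg _)
      calc (j.choose R : ℝ) * tt R (j - R) * (y ^ j / (j.factorial : ℝ))
          ≤ (j.choose R : ℝ) * tt R r * (y ^ j / (j.factorial : ℝ)) :=
            mul_le_mul_of_nonneg_right h2 hp
        _ = _ := by ring
  have hs1 := moment R y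
  have hs2 : HasSum (fun j : ℕ => if j < r + R + 1 then KK R * (y ^ j / (j.factorial : ℝ)) else 0)
      (∑ j ∈ range (r + R + 1), KK R * (y ^ j / (j.factorial : ℝ))) := by
    have h : HasSum (fun j : ℕ => if j < r + R + 1 then KK R * (y ^ j / (j.factorial : ℝ)) else 0)
        (∑ j ∈ range (r + R + 1),
          (if j < r + R + 1 then KK R * (y ^ j / (j.factorial : ℝ)) else 0)) :=
      hasSum_sum_of_ne_finset_zero (fun j hj => by
        have : ¬ j < r + R + 1 := by simpa using hj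
        simp only [if_neg this])
    have e : ∑ j ∈ range (r + R + 1),
          (if j < r + R + 1 then KK R * (y ^ j / (j.factorial : ℝ)) else 0) =
        ∑ j ∈ range (r + R + 1), KK R * (y ^ j / (j.factorial : ℝ)) :=
      sum_congr rfl fun j hj => if_pos (mem_range.1 hj)
    rwa [e] at h
  have hs3 := hs2.add (hs1.mul_left (tt R r))
  have h6 := hasSum_le hpt (summ y (cj_abs hR)).hasSum hs3
  have hE : 0 < Real.exp (-y) := Real.exp_pos _
  have h7 := mul_le_mul_of_nonneg_left h6 hE.le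
  have h8 : Real.exp (-y) * Real.exp y = 1 := by rw [← Real.exp_add]; simp
  unfold G
  refine h7.trans (le_of_eq ?_)
  rw [← mul_sum, mul_add]
  congr 1
  · ring
  · calc Real.exp (-y) * (tt R r * (y ^ R / (R.factorial : ℝ) * Real.exp y))
        = y ^ R / (R.factorial : ℝ) * tt R r * (Real.exp (-y) * Real.exp y) := by ring
      _ = y ^ R / (R.factorial : ℝ) * tt R r := by rw [h8, mul_one]

theorem one_add_le {δ : ℝ} (h0 : 0 ≤ δ) (h1 : δ ≤ 1) : 1 + δ ≤ Real.exp (δ - δ ^ 2 / 4) := by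
  have hx : 0 ≤ δ - δ ^ 2 / 4 := by nlinarith
  have h2 := Real.quadratic_le_exp_of_nonneg hx
  refine le_trans ?_ h2
  have h3 : (3 / 4 : ℝ) ≤ 1 - δ / 4 := by linarith
  have h4 : (9 / 16 : ℝ) ≤ (1 - δ / 4) ^ 2 := by nlinarith
  have h5 : (δ - δ ^ 2 / 4) ^ 2 = δ ^ 2 * (1 - δ / 4) ^ 2 := by ring
  rw [h5]
  nlinarith [sq_nonneg δ, mul_le_mul_of_nonneg_left h4 (sq_nonneg δ)]

/-- the relative error `√(log k / k)` -/
noncomputable def sk (k : ℝ) : ℝ := √(Real.log k / k)

theorem sk_nonneg (k : ℝ) : 0 ≤ sk k := Real.sqrt_nonneg _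

theorem sk_tendsto : Tendsto (fun k : ℕ => sk (k : ℝ)) atTop (𝓝 0) := by
  have h1 : Tendsto (fun x : ℝ => Real.log x / x) atTop (𝓝 0) :=
    Real.isLittleO_log_id_atTop.tendsto_div_nhds_zero
  have h3 := (h1.comp (tendsto_natCast_atTop_atTop (R := ℝ))).sqrt
  rw [Real.sqrt_zero] at h3
  exact h3

theorem inv_le_sk {k : ℕ} (hk : 3 ≤ k) : 1 / (k : ℝ) ≤ sk k := by
  have hk3 : (3 : ℝ) ≤ k := by exact_mod_cast hk
  have hk0 : (0 : ℝ) < k := by linarith
  have hlog : 1 ≤ Real.log k := by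
    rw [Real.le_log_iff_exp_le hk0]
    have := Real.exp_one_lt_d9
    linarith
  unfold sk
  apply Real.le_sqrt_of_sq_le
  rw [div_pow, one_pow, div_le_div_iff₀ (by positivity) hk0]
  nlinarith

/-- `f k ≤ 1 + O(√(log k / k))` -/
def Near (f : ℕ → ℝ) : Prop := ∃ A : ℝ, 0 ≤ A ∧ ∀ᶠ k : ℕ in atTop, 0 ≤ f k ∧ f k ≤ 1 + A * sk k

theorem Near.mul {f g : ℕ → ℝ} (hf : Near f) (hg : Near g) : Near fun k => f k * g k := by
  obtain ⟨A, hA, h1⟩ := hf
  obtain ⟨B, hB, h2⟩ := hg
  refine ⟨A + B + A * B, by positivity, ?_⟩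
  filter_upwards [h1, h2, sk_tendsto.eventually_lt_const one_pos] with k ⟨a1, a2⟩ ⟨b1, b2⟩ hs
  refine ⟨mul_nonneg a1 b1, ?_⟩
  have hs0 := sk_nonneg (k : ℝ)
  calc f k * g k ≤ (1 + A * sk k) * (1 + B * sk k) := mul_le_mul a2 b2 b1 (by positivity)
    _ = 1 + (A + B) * sk k + A * B * (sk k * sk k) := by ring
    _ ≤ 1 + (A + B) * sk k + A * B * (sk k * 1) := by
        have : sk k * sk k ≤ sk k * 1 := mul_le_mul_of_nonneg_left hs.le hs0
        have := mul_le_mul_of_nonneg_left this (mul_nonneg hA hB)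
        linarith
    _ = 1 + (A + B + A * B) * sk k := by ring

theorem Near.pow {f : ℕ → ℝ} (hf : Near f) : ∀ n : ℕ, Near fun k => f k ^ n := by
  intro n
  induction n with
  | zero =>
    refine ⟨0, le_rfl, Eventually.of_forall fun k => ?_⟩
    simp
  | succ n ih =>
    have h := ih.mul hf
    refine (funext fun k => ?_ : (fun k => f k ^ n * f k) = fun k => f k ^ (n + 1)) ▸ h
    rw [pow_succ]

theorem Near.mono {f g : ℕ → ℝ} (hf : Near f) (h0 : ∀ᶠ k : ℕ in atTop, 0 ≤ g k)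
    (h : ∀ᶠ k : ℕ in atTop, g k ≤ f k) : Near g := by
  obtain ⟨A, hA, h1⟩ := hf
  refine ⟨A, hA, ?_⟩
  filter_upwards [h1, h0, h] with k ⟨a1, a2⟩ b c
  exact ⟨b, c.trans a2⟩

theorem near_inv (A : ℝ) (hA : 0 ≤ A) : Near fun k => 1 + A * (1 / (k : ℝ)) := by
  refine ⟨A, hA, ?_⟩
  filter_upwards [eventually_ge_atTop 3] with k hk
  have := mul_le_mul_of_nonneg_left (inv_le_sk hk) hA
  exact ⟨by positivity, by linarith⟩

theorem near_sk (A : ℝ) (hA : 0 ≤ A) : Near fun k => 1 + A * sk k := by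
  refine ⟨A, hA, Eventually.of_forall fun k => ⟨?_, le_rfl⟩⟩
  have := sk_nonneg (k : ℝ)
  positivity

/-- `PP R y ≤ 2^R exp(-y/2)` -/
theorem PP_le (R : ℕ) {y : ℝ} (hy : 0 ≤ y) : PP R y ≤ 2 ^ R * Real.exp (-y / 2) := by
  unfold PP
  have h1 : ∑ j ∈ range R, y ^ j / (j.factorial : ℝ) ≤
      2 ^ R * ∑ j ∈ range R, (y / 2) ^ j / (j.factorial : ℝ) := by
    rw [Finset.mul_sum]
    apply Finset.sum_le_sum
    intro j hj
    have hj' : j ≤ R := (mem_range.1 hj).le
    have e : y ^ j = 2 ^ j * (y / 2) ^ j := by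
      rw [← mul_pow]; congr 1; ring
    rw [e, mul_div_assoc]
    apply mul_le_mul_of_nonneg_right _ (by positivity)
    exact pow_le_pow_right₀ (by norm_num) hj'
  have h2 : ∑ j ∈ range R, (y / 2) ^ j / (j.factorial : ℝ) ≤ Real.exp (y / 2) :=
    Real.sum_le_exp_of_nonneg (by linarith) _
  calc Real.exp (-y) * ∑ j ∈ range R, y ^ j / (j.factorial : ℝ)
      ≤ Real.exp (-y) * (2 ^ R * Real.exp (y / 2)) :=
        mul_le_mul_of_nonneg_left (h1.trans (mul_le_mul_of_nonneg_left h2 (by positivity)))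
          (Real.exp_pos _).le
    _ = 2 ^ R * (Real.exp (-y) * Real.exp (y / 2)) := by ring
    _ = 2 ^ R * Real.exp (-y / 2) := by
        rw [← Real.exp_add]; congr 2; ring

/-- the means used for the value at `k = r + R` -/
noncomputable def yk (k : ℕ) : ℝ := k * (1 + 2 * sk k)

theorem le_yk (k : ℕ) : (k : ℝ) ≤ yk k := by
  unfold yk
  have h1 := sk_nonneg (k : ℝ)
  have h2 : (0 : ℝ) ≤ k := Nat.cast_nonneg _
  nlinarith

theorem pk_le (R : ℕ) : ∀ᶠ k : ℕ in atTop,
    PP R (yk k) ^ ((1 : ℝ) / ((R : ℝ) + 1)) ≤ 1 / (k : ℝ) := by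
  have h1 : Tendsto (fun x : ℝ => x ^ (R + 1) * Real.exp (-x)) atTop (𝓝 0) :=
    Real.tendsto_pow_mul_exp_neg_atTop_nhds_zero (R + 1)
  have h2 : Tendsto (fun k : ℕ => (k : ℝ) / 2) atTop atTop :=
    tendsto_natCast_atTop_atTop.atTop_div_const (by norm_num)
  have h3 := (h1.comp h2).eventually_lt_const
    (show (0 : ℝ) < 1 / 2 ^ (2 * R + 1) by positivity)
  filter_upwards [h3, eventually_ge_atTop 1] with k hk hk1
  have hk0 : (0 : ℝ) < k := by exact_mod_cast hk1
  simp only [Function.comp] at hk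
  rw [div_pow] at hk
  have hyk := le_yk k
  have h4 : PP R (yk k) ≤ (1 / (k : ℝ)) ^ (R + 1) := by
    refine (PP_le R (hk0.le.trans hyk)).trans ?_
    have h5 : Real.exp (-yk k / 2) ≤ Real.exp (-((k : ℝ) / 2)) := Real.exp_le_exp.2 (by linarith)
    have h6 : (2 : ℝ) ^ R * Real.exp (-yk k / 2) ≤ 2 ^ R * Real.exp (-((k : ℝ) / 2)) :=
      mul_le_mul_of_nonneg_left h5 (by positivity)
    refine h6.trans ?_
    rw [div_pow, one_pow, le_div_iff₀ (by positivity)]
    rw [div_mul_eq_mul_div, div_lt_div_iff₀ (by positivity) (by positivity)] at hk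
    have e : (2 : ℝ) ^ (2 * R + 1) = 2 ^ R * 2 ^ (R + 1) := by
      rw [← pow_add]; congr 1; ring
    rw [e] at hk
    have h7 : (0 : ℝ) < 2 ^ (R + 1) := by positivity
    have h8 : ((2 : ℝ) ^ R * Real.exp (-((k : ℝ) / 2)) * (k : ℝ) ^ (R + 1)) * 2 ^ (R + 1) <
        1 * 2 ^ (R + 1) := by nlinarith
    exact (lt_of_mul_lt_mul_right h8 h7.le).le
  have h0 : 0 ≤ PP R (yk k) := by
    unfold PP
    have : (0 : ℝ) ≤ yk k := hk0.le.trans hyk
    positivity
  calc PP R (yk k) ^ ((1 : ℝ) / ((R : ℝ) + 1))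
      ≤ ((1 / (k : ℝ)) ^ (R + 1)) ^ ((1 : ℝ) / ((R : ℝ) + 1)) :=
        Real.rpow_le_rpow h0 h4 (by positivity)
    _ = 1 / (k : ℝ) := by
        rw [← Real.rpow_natCast, ← Real.rpow_mul (by positivity)]
        have : ((R + 1 : ℕ) : ℝ) * ((1 : ℝ) / ((R : ℝ) + 1)) = 1 := by
          push_cast
          field_simp
        rw [this, Real.rpow_one]

theorem near_FF {R : ℕ} (hR : 1 ≤ R) : Near fun k => FF R (yk k) := by
  have h1 : Near fun k => (1 + 1 * (1 / (k : ℝ))) ^ (R + 1) * (1 + 2 * (1 / (k : ℝ))) :=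
    ((near_inv 1 (by norm_num)).pow (R + 1)).mul (near_inv 2 (by norm_num))
  have hpos : ∀ᶠ k : ℕ in atTop, 0 < yk k := by
    filter_upwards [eventually_ge_atTop 1] with k hk
    have hk0 : (0 : ℝ) < k := by exact_mod_cast hk
    exact hk0.trans_le (le_yk k)
  refine h1.mono ?_ ?_
  · filter_upwards [hpos] with k hk
    have a1 := PP_pos hR hk
    have a2 := PP_lt_one R hk
    unfold FF
    have : 0 ≤ PP R (yk k) ^ ((1 : ℝ) / ((R : ℝ) + 1)) := Real.rpow_nonneg a1.le _
    apply div_nonneg (by positivity) (by linarith)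
  · filter_upwards [hpos, pk_le R, eventually_ge_atTop 2] with k hk hp hk2
    have a1 := PP_pos hR hk
    have a2 := PP_lt_one R hk
    have hkR : (2 : ℝ) ≤ k := by exact_mod_cast hk2
    obtain ⟨p, hpe⟩ : ∃ p : ℝ, p = PP R (yk k) ^ ((1 : ℝ) / ((R : ℝ) + 1)) := ⟨_, rfl⟩
    have hp0 : 0 < p := by rw [hpe]; exact Real.rpow_pos_of_pos a1 _
    have hpP : p ^ (R + 1) = PP R (yk k) := by
      rw [hpe, ← Real.rpow_natCast, ← Real.rpow_mul a1.le]
      have : (1 : ℝ) / ((R : ℝ) + 1) * ((R + 1 : ℕ) : ℝ) = 1 := by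
        push_cast
        field_simp
      rw [this, Real.rpow_one]
    unfold FF
    rw [← hpe] at hp ⊢
    have hk12 : 1 / (k : ℝ) ≤ 1 / 2 := by
      apply one_div_le_one_div_of_le (by norm_num) hkR
    have hPk : PP R (yk k) ≤ 1 / (k : ℝ) := by
      rw [← hpP, pow_succ]
      have : p ^ R ≤ 1 := pow_le_one₀ hp0.le (by linarith)
      nlinarith
    have hik : (0 : ℝ) < 1 / (k : ℝ) := by positivity
    rw [div_le_iff₀ (by linarith)]
    have b1 : (1 + p) ^ (R + 1) ≤ (1 + 1 * (1 / (k : ℝ))) ^ (R + 1) :=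
      pow_le_pow_left₀ (by linarith) (by linarith) _
    have b2 : 1 ≤ (1 + 2 * (1 / (k : ℝ))) * (1 - PP R (yk k)) := by nlinarith
    have b3 : 0 ≤ (1 + 1 * (1 / (k : ℝ))) ^ (R + 1) := by positivity
    calc (1 + p) ^ (R + 1) ≤ (1 + 1 * (1 / (k : ℝ))) ^ (R + 1) * 1 := by linarith
      _ ≤ (1 + 1 * (1 / (k : ℝ))) ^ (R + 1) * ((1 + 2 * (1 / (k : ℝ))) * (1 - PP R (yk k))) :=
          mul_le_mul_of_nonneg_left b2 b3
      _ = _ := by ring

/-- `k^R / R! ≤ (1 + O(1/k)) C(k, R)` -/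
theorem near_choose (R : ℕ) :
    Near fun k => (k : ℝ) ^ R / ((R.factorial : ℝ) * (k.choose R : ℝ)) := by
  have h1 : Near fun k => (1 + (2 * R) * (1 / (k : ℝ))) ^ R :=
    (near_inv (2 * R) (by positivity)).pow R
  refine h1.mono (Eventually.of_forall fun k => by positivity) ?_
  filter_upwards [eventually_ge_atTop (2 * R + 1)] with k hk
  have hk0 : (0 : ℝ) < k := by exact_mod_cast (show 0 < k by omega)
  have e1 : (R.factorial : ℝ) * (k.choose R : ℝ) = (k.descFactorial R : ℝ) := by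
    rw [Nat.descFactorial_eq_factorial_mul_choose]
    push_cast
    ring
  rw [e1]
  have e2 : (k + 1 - R) ^ R ≤ k.descFactorial R := Nat.pow_sub_le_descFactorial k R
  have e3 : ((k : ℝ) - R) ^ R ≤ (k.descFactorial R : ℝ) := by
    have h : ((k - R : ℕ) : ℝ) ^ R ≤ (k.descFactorial R : ℝ) := by
      have : (k - R) ^ R ≤ (k + 1 - R) ^ R := Nat.pow_le_pow_left (by omega) R
      exact_mod_cast this.trans e2
    rwa [Nat.cast_sub (by omega)] at h
  have hkR : (2 * (R : ℝ)) + 1 ≤ k := by exact_mod_cast hk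
  have hR0 : (0 : ℝ) ≤ R := Nat.cast_nonneg _
  have hpos : (0 : ℝ) < (k : ℝ) - R := by linarith
  have hd : (0 : ℝ) < (k.descFactorial R : ℝ) := lt_of_lt_of_le (by positivity) e3
  rw [div_le_iff₀ hd]
  have e4 : (k : ℝ) ≤ (1 + (2 * R) * (1 / (k : ℝ))) * ((k : ℝ) - R) := by
    have e5 : (1 + (2 * R) * (1 / (k : ℝ))) * ((k : ℝ) - R) =
        k + R - 2 * R * R / k := by
      field_simp
      ring
    rw [e5]
    have e6 : 2 * (R : ℝ) * R / k ≤ R := by
      rw [div_le_iff₀ hk0]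
      nlinarith
    linarith
  calc (k : ℝ) ^ R ≤ ((1 + (2 * R) * (1 / (k : ℝ))) * ((k : ℝ) - R)) ^ R :=
        pow_le_pow_left₀ hk0.le e4 R
    _ = (1 + (2 * R) * (1 / (k : ℝ))) ^ R * ((k : ℝ) - R) ^ R := mul_pow _ _ _
    _ ≤ _ := mul_le_mul_of_nonneg_left e3 (by positivity)

/-- the tail at `yk k` -/
theorem tail_yk : ∀ᶠ k : ℕ in atTop,
    Real.exp (-yk k) * ∑ j ∈ range (k + 1), yk k ^ j / (j.factorial : ℝ) ≤ 1 / (k : ℝ) := by
  filter_upwards [sk_tendsto.eventually_lt_const (show (0 : ℝ) < 1 / 2 by norm_num),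
    eventually_ge_atTop 3] with k hs hk
  have hk0 : (0 : ℝ) < k := by exact_mod_cast (show 0 < k by omega)
  have hk3 : (3 : ℝ) ≤ k := by exact_mod_cast hk
  obtain ⟨s, hse⟩ : ∃ s : ℝ, s = sk (k : ℝ) := ⟨_, rfl⟩
  have hs0 : 0 ≤ s := by rw [hse]; exact sk_nonneg _
  have hs2 : s ^ 2 = Real.log k / k := by
    rw [hse]
    exact Real.sq_sqrt (div_nonneg (Real.log_nonneg (by linarith)) hk0.le)
  rw [← hse] at hs
  have hy : yk k = k * (1 + 2 * s) := by unfold yk; rw [hse]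
  refine (tail_le (by omega) (le_yk k)).trans ?_
  rw [hy]
  have e2 : (k : ℝ) * (1 + 2 * s) / k = 1 + 2 * s := by field_simp
  have h5 := one_add_le (δ := 2 * s) (by positivity) (by linarith)
  have h6 : (1 + 2 * s) ^ k ≤ Real.exp (k * (2 * s - (2 * s) ^ 2 / 4)) := by
    rw [Real.exp_nat_mul]
    exact pow_le_pow_left₀ (by positivity) h5 k
  rw [e2]
  calc Real.exp (k - k * (1 + 2 * s)) * (1 + 2 * s) ^ k
      ≤ Real.exp (k - k * (1 + 2 * s)) * Real.exp (k * (2 * s - (2 * s) ^ 2 / 4)) :=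
        mul_le_mul_of_nonneg_left h6 (Real.exp_pos _).le
    _ = Real.exp (-(k * s ^ 2)) := by
        rw [← Real.exp_add]
        congr 1
        ring
    _ = 1 / k := by
        rw [hs2]
        have e3 : (k : ℝ) * (Real.log k / k) = Real.log k := by field_simp
        rw [e3, Real.exp_neg, Real.exp_log hk0, one_div]

/-- the upper limit -/
noncomputable def LL (R : ℕ) : ℝ := sInf {V : ℝ | ∀ᶠ r : ℕ in atTop, CC R r ≤ V}

theorem UB_ne {R : ℕ} (hR : 1 ≤ R) : {V : ℝ | ∀ᶠ r : ℕ in atTop, CC R r ≤ V}.Nonempty :=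
  ⟨KK R, Eventually.of_forall (CC_le hR)⟩

theorem CC_ge_one {R : ℕ} (hR : 1 ≤ R) {r : ℕ} (hr : 3 ≤ r) : 1 ≤ CC R r := by
  refine le_trans ?_ (CC_ge hR hr)
  have : (0 : ℝ) < r := by exact_mod_cast (show 0 < r by omega)
  rw [le_div_iff₀ this]
  have : (0 : ℝ) ≤ R := Nat.cast_nonneg _
  linarith

theorem UB_ge {R : ℕ} (hR : 1 ≤ R) {V : ℝ} (h : ∀ᶠ r : ℕ in atTop, CC R r ≤ V) : 1 ≤ V := by
  obtain ⟨r, h1, h2⟩ := (h.and (eventually_ge_atTop 3)).exists
  exact (CC_ge_one hR h2).trans h1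

theorem LL_ge {R : ℕ} (hR : 1 ≤ R) : 1 ≤ LL R := le_csInf (UB_ne hR) fun _ h => UB_ge hR h

theorem LL_le {R : ℕ} (hR : 1 ≤ R) {V : ℝ} (h : ∀ᶠ r : ℕ in atTop, CC R r ≤ V) : LL R ≤ V :=
  csInf_le ⟨1, fun _ h => UB_ge hR h⟩ h

theorem LL_le_G {R : ℕ} (hR : 1 ≤ R) {y : ℝ} (hy : 0 < y) : LL R ≤ FF R y * G R y :=
  le_of_forall_gt_imp_ge_of_dense fun _ hV => LL_le hR (eventually_le hR hy hV)

theorem G_nonneg (R : ℕ) {y : ℝ} (hy : 0 ≤ y) : 0 ≤ G R y := by
  unfold G
  exact mul_nonneg (Real.exp_pos _).le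
    (tsum_nonneg fun j => mul_nonneg (cj_nonneg R j) (by positivity))

theorem LL_le_CC {R : ℕ} (hR : 1 ≤ R) : ∃ C : ℝ, 0 ≤ C ∧ ∀ r : ℕ, 3 ≤ r →
    LL R ≤ (1 + C * sk ((r + R : ℕ) : ℝ)) * CC R r := by
  -- the main factor
  have h1 : Near fun k => FF R (yk k) * ((1 + (KK R) * (1 / (k : ℝ))) *
      (((1 + 2 * sk k) ^ R) * ((k : ℝ) ^ R / ((R.factorial : ℝ) * (k.choose R : ℝ))) )) :=
    (near_FF hR).mul ((near_inv _ (KK_pos hR).le).mul
      (((near_sk 2 (by norm_num)).pow R).mul (near_choose R)))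
  obtain ⟨A, hA, hA'⟩ := h1
  have hev : ∀ᶠ r : ℕ in atTop, LL R ≤ (1 + A * sk ((r + R : ℕ) : ℝ)) * CC R r := by
    have h2 := (tendsto_add_atTop_nat R).eventually (hA'.and tail_yk)
    filter_upwards [h2, eventually_ge_atTop 3] with r ⟨⟨_, h3⟩, h4⟩ hr
    set k : ℕ := r + R with hk
    have hk0 : (0 : ℝ) < k := by exact_mod_cast (show 0 < k by omega)
    have hyk0 : 0 < yk k := hk0.trans_le (le_yk k)
    have h5 := LL_le_G hR hyk0
    have h6 := G_le hR r hyk0.le
    have hCC := CC_ge_one hR hr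
    have hFF : 0 ≤ FF R (yk k) := by
      have a1 := PP_pos hR hyk0
      have a2 := PP_lt_one R hyk0
      unfold FF
      have : 0 ≤ PP R (yk k) ^ ((1 : ℝ) / ((R : ℝ) + 1)) := Real.rpow_nonneg a1.le _
      apply div_nonneg (by positivity) (by linarith)
    have hCk : (0 : ℝ) < (k.choose R : ℝ) := by
      exact_mod_cast Nat.choose_pos (show R ≤ k by omega)
    have hRf : (0 : ℝ) < (R.factorial : ℝ) := by positivity
    -- the value
    obtain ⟨f, hf⟩ : ∃ f : ℝ, f = (1 + 2 * sk k) ^ R *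
      ((k : ℝ) ^ R / ((R.factorial : ℝ) * (k.choose R : ℝ))) := ⟨_, rfl⟩
    have e1 : yk k ^ R / (R.factorial : ℝ) * tt R r = f * CC R r := by
      rw [hf]
      unfold CC yk
      rw [← hk, mul_pow]
      field_simp
    have hf1 : 1 ≤ f := by
      rw [hf]
      have g1 : (1 : ℝ) ≤ (1 + 2 * sk k) ^ R := one_le_pow₀ (by have := sk_nonneg (k : ℝ); linarith)
      have g2 : (1 : ℝ) ≤ (k : ℝ) ^ R / ((R.factorial : ℝ) * (k.choose R : ℝ)) := by
        rw [le_div_iff₀ (by positivity), one_mul]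
        have := Nat.choose_le_pow_div (α := ℝ) R k
        rw [le_div_iff₀ hRf] at this
        linarith
      nlinarith
    have h7 : G R (yk k) ≤ (1 + KK R * (1 / (k : ℝ))) * f * CC R r := by
      refine h6.trans ?_
      rw [e1]
      have g3 : KK R * (Real.exp (-yk k) * ∑ j ∈ range (k + 1), yk k ^ j / (j.factorial : ℝ)) ≤
          KK R * (1 / (k : ℝ)) := mul_le_mul_of_nonneg_left h4 (KK_pos hR).le
      have g4 : KK R * (1 / (k : ℝ)) ≤ KK R * (1 / (k : ℝ)) * (f * CC R r) := by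
        have : (1 : ℝ) ≤ f * CC R r := by nlinarith
        have g5 : 0 ≤ KK R * (1 / (k : ℝ)) := mul_nonneg (KK_pos hR).le (by positivity)
        nlinarith
      nlinarith
    calc LL R ≤ FF R (yk k) * G R (yk k) := h5
      _ ≤ FF R (yk k) * ((1 + KK R * (1 / (k : ℝ))) * f * CC R r) :=
          mul_le_mul_of_nonneg_left h7 hFF
      _ = (FF R (yk k) * ((1 + KK R * (1 / (k : ℝ))) * f)) * CC R r := by ring
      _ ≤ _ := by
          rw [hf]
          exact mul_le_mul_of_nonneg_right h3 (by linarith)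
  -- finitely many exceptions
  obtain ⟨r₀, hr₀⟩ := eventually_atTop.1 hev
  set S : Finset ℕ := (range (r₀ + 1)).filter (fun r => 3 ≤ r) with hS
  set M : ℝ := ∑ r ∈ S, LL R / sk ((r + R : ℕ) : ℝ) with hM
  have hLL := LL_ge hR
  have hskpos : ∀ r : ℕ, 3 ≤ r → 0 < sk ((r + R : ℕ) : ℝ) := by
    intro r hr
    have := inv_le_sk (k := r + R) (by omega)
    have h0 : (0 : ℝ) < 1 / ((r + R : ℕ) : ℝ) := by
      have : (0 : ℝ) < ((r + R : ℕ) : ℝ) := by exact_mod_cast (show 0 < r + R by omega)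
      positivity
    linarith
  have hM0 : 0 ≤ M := Finset.sum_nonneg fun r hr => by
    rw [hS, mem_filter] at hr
    exact div_nonneg (by linarith) (hskpos r hr.2).le
  refine ⟨A + M, by positivity, fun r hr => ?_⟩
  have hCC := CC_ge_one hR hr
  have hs := hskpos r hr
  rcases le_or_gt r₀ r with h | h
  · refine (hr₀ r h).trans ?_
    apply mul_le_mul_of_nonneg_right _ (by linarith)
    have := mul_nonneg hM0 hs.le
    linarith
  · have hrS : r ∈ S := by rw [hS, mem_filter, mem_range]; omega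
    have h2 : LL R / sk ((r + R : ℕ) : ℝ) ≤ M :=
      Finset.single_le_sum (f := fun r : ℕ => LL R / sk ((r + R : ℕ) : ℝ)) (fun i hi => by
        rw [hS, mem_filter] at hi
        exact div_nonneg (by linarith) (hskpos i hi.2).le) hrS
    rw [div_le_iff₀ hs] at h2
    have h3 : LL R ≤ (1 + (A + M) * sk ((r + R : ℕ) : ℝ)) := by
      have := mul_nonneg hA hs.le
      linarith
    have h4 : 0 ≤ (1 + (A + M) * sk ((r + R : ℕ) : ℝ)) := by positivity
    nlinarith

theorem CC_tendsto {R : ℕ} (hR : 1 ≤ R) : Tendsto (CC R) atTop (𝓝 (LL R)) := by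
  obtain ⟨C, hC, hCC⟩ := LL_le_CC hR
  have hlow : Tendsto (fun r : ℕ => LL R / (1 + C * sk ((r + R : ℕ) : ℝ))) atTop (𝓝 (LL R)) := by
    have h1 : Tendsto (fun r : ℕ => 1 + C * sk ((r + R : ℕ) : ℝ)) atTop (𝓝 (1 + C * 0)) :=
      ((sk_tendsto.comp (tendsto_add_atTop_nat R)).const_mul C).const_add 1
    have h2 := (tendsto_const_nhds (x := LL R) (f := (atTop : Filter ℕ))).div h1 (by norm_num)
    have e : LL R / (1 + C * 0) = LL R := by norm_num
    rw [e] at h2
    exact h2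
  refine tendsto_order.2 ⟨fun a ha => ?_, fun a ha => ?_⟩
  · filter_upwards [hlow.eventually_const_lt ha, eventually_ge_atTop 3] with r h1 h2
    refine h1.trans_le ?_
    have h3 := sk_nonneg (((r + R : ℕ) : ℝ))
    rw [div_le_iff₀ (by positivity), mul_comm]
    exact hCC r h2
  · obtain ⟨V, hV, hVa⟩ := exists_lt_of_csInf_lt (UB_ne hR) ha
    have h : ∀ᶠ r : ℕ in atTop, CC R r ≤ V := hV
    exact h.mono fun r hr => hr.trans_lt hVa

theorem LL_le_log {R : ℕ} (hR : 1 ≤ R) : LL R ≤ 4 + 10 * R * Real.log (3 * R) := by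
  refine LL_le hR ?_
  filter_upwards [eventually_ge_atTop 2] with r hr
  exact CC_le_log hR hr

/-- the Borel means of a convergent sequence -/
theorem G_tendsto {R : ℕ} (hR : 1 ≤ R) : Tendsto (G R) atTop (𝓝 (LL R)) := by
  have hc : Tendsto (cj R) atTop (𝓝 (LL R)) := by
    rw [← tendsto_add_atTop_iff_nat R]
    refine (CC_tendsto hR).congr fun m => ?_
    rw [cj_add]
  have hK := (KK_pos hR).le
  have hLK : LL R ≤ KK R := LL_le hR (Eventually.of_forall (CC_le hR))
  have hL0 : 0 ≤ LL R := zero_le_one.trans (LL_ge hR)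
  rw [Metric.tendsto_atTop]
  intro ε hε
  obtain ⟨N, hN⟩ := Metric.tendsto_atTop.1 hc (ε / 2) (by positivity)
  -- the beginning of the sequence
  have hbeg : Tendsto (fun y : ℝ => Real.exp (-y) * ∑ j ∈ range N, y ^ j / (j.factorial : ℝ)) atTop
      (𝓝 0) := by
    have h1 : ∀ j ∈ range N, Tendsto (fun y : ℝ => Real.exp (-y) * (y ^ j / (j.factorial : ℝ))) atTop
        (𝓝 0) := by
      intro j _
      have h2 := (Real.tendsto_pow_mul_exp_neg_atTop_nhds_zero j).const_mul (1 / (j.factorial : ℝ))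
      rw [mul_zero] at h2
      refine h2.congr fun y => ?_
      ring
    have h3 := tendsto_finsetSum _ h1
    rw [sum_const_zero] at h3
    refine h3.congr fun y => ?_
    rw [mul_sum]
  have hev := (hbeg.const_mul (KK R)).eventually_lt_const (u := ε / 2)
    (by rw [mul_zero]; positivity)
  obtain ⟨y₀, hy₀⟩ := eventually_atTop.1 hev
  refine ⟨max y₀ 0, fun y hy => ?_⟩
  have hy1 := hy₀ y ((le_max_left _ _).trans hy)
  have hy2 : 0 ≤ y := (le_max_right _ _).trans hy
  rw [Real.dist_eq]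
  have hE : 0 < Real.exp (-y) := Real.exp_pos _
  have hEE : Real.exp (-y) * Real.exp y = 1 := by rw [← Real.exp_add]; simp
  have habs : ∀ j, |cj R j - LL R| ≤ KK R := by
    intro j
    rw [abs_le]
    have h1 := cj_nonneg R j
    have h2 := cj_le hR j
    constructor <;> linarith
  have hs1 : Summable fun j : ℕ => (cj R j - LL R) * (y ^ j / (j.factorial : ℝ)) := summ y habs
  have hdiff : G R y - LL R =
      Real.exp (-y) * ∑' j : ℕ, (cj R j - LL R) * (y ^ j / (j.factorial : ℝ)) := by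
    have h1 : ∑' j : ℕ, (cj R j - LL R) * (y ^ j / (j.factorial : ℝ)) + LL R * Real.exp y =
        ∑' j : ℕ, cj R j * (y ^ j / (j.factorial : ℝ)) := by
      rw [← exp_tsum, ← tsum_mul_left, ← Summable.tsum_add hs1
        ((Real.summable_pow_div_factorial y).mul_left (LL R))]
      refine tsum_congr fun j => ?_
      ring
    unfold G
    rw [← h1, mul_add]
    have h2 : Real.exp (-y) * (LL R * Real.exp y) = LL R * (Real.exp (-y) * Real.exp y) := by ring
    rw [h2, hEE]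
    ring
  have hnorm : |∑' j : ℕ, (cj R j - LL R) * (y ^ j / (j.factorial : ℝ))| ≤
      KK R * ∑ j ∈ range N, y ^ j / (j.factorial : ℝ) + ε / 2 * Real.exp y := by
    have hpt : ∀ j : ℕ, |(cj R j - LL R) * (y ^ j / (j.factorial : ℝ))| ≤
        (if j < N then KK R * (y ^ j / (j.factorial : ℝ)) else 0) +
          ε / 2 * (y ^ j / (j.factorial : ℝ)) := by
      intro j
      have hp : (0 : ℝ) ≤ y ^ j / (j.factorial : ℝ) := by positivity
      rw [abs_mul, abs_of_nonneg hp]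
      by_cases hj : j < N
      · rw [if_pos hj]
        have h1 := mul_le_mul_of_nonneg_right (habs j) hp
        have h2 : 0 ≤ ε / 2 * (y ^ j / (j.factorial : ℝ)) := by positivity
        linarith
      · rw [if_neg hj, zero_add]
        have h1 := hN j (by omega)
        rw [Real.dist_eq] at h1
        exact mul_le_mul_of_nonneg_right h1.le hp
    have hs2 : HasSum (fun j : ℕ => if j < N then KK R * (y ^ j / (j.factorial : ℝ)) else 0)
        (∑ j ∈ range N, KK R * (y ^ j / (j.factorial : ℝ))) := by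
      have h : HasSum (fun j : ℕ => if j < N then KK R * (y ^ j / (j.factorial : ℝ)) else 0)
          (∑ j ∈ range N, (if j < N then KK R * (y ^ j / (j.factorial : ℝ)) else 0)) :=
        hasSum_sum_of_ne_finset_zero (fun j hj => by
          have : ¬ j < N := by simpa using hj
          simp only [if_neg this])
      have e : ∑ j ∈ range N, (if j < N then KK R * (y ^ j / (j.factorial : ℝ)) else 0) =
          ∑ j ∈ range N, KK R * (y ^ j / (j.factorial : ℝ)) :=
        sum_congr rfl fun j hj => if_pos (mem_range.1 hj)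
      rwa [e] at h
    have hs3 : HasSum (fun j : ℕ => ε / 2 * (y ^ j / (j.factorial : ℝ))) (ε / 2 * Real.exp y) := by
      have h2 := (Real.summable_pow_div_factorial y).hasSum
      rw [exp_tsum] at h2
      exact h2.mul_left _
    have h4 := hasSum_le hpt hs1.abs.hasSum (hs2.add hs3)
    rw [← mul_sum] at h4
    have h5 := norm_tsum_le_tsum_norm
      (f := fun j : ℕ => (cj R j - LL R) * (y ^ j / (j.factorial : ℝ))) hs1.norm
    simp only [Real.norm_eq_abs] at h5
    exact h5.trans h4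
  rw [hdiff, abs_mul, abs_of_pos hE]
  calc Real.exp (-y) * |∑' j : ℕ, (cj R j - LL R) * (y ^ j / (j.factorial : ℝ))|
      ≤ Real.exp (-y) * (KK R * ∑ j ∈ range N, y ^ j / (j.factorial : ℝ) + ε / 2 * Real.exp y) :=
        mul_le_mul_of_nonneg_left hnorm hE.le
    _ = KK R * (Real.exp (-y) * ∑ j ∈ range N, y ^ j / (j.factorial : ℝ)) +
        ε / 2 * (Real.exp (-y) * Real.exp y) := by ring
    _ < ε := by rw [hEE]; linarith

theorem PP_tendsto (R : ℕ) : Tendsto (PP R) atTop (𝓝 0) := by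
  have h1 : Tendsto (fun y : ℝ => 2 ^ R * Real.exp (-y / 2)) atTop (𝓝 (2 ^ R * 0)) := by
    refine Tendsto.const_mul _ (Real.tendsto_exp_atBot.comp ?_)
    have h2 : Tendsto (fun y : ℝ => y / 2) atTop atTop :=
      tendsto_id.atTop_div_const (by norm_num)
    have h3 := tendsto_neg_atTop_atBot.comp h2
    refine h3.congr fun y => ?_
    simp [neg_div]
  rw [mul_zero] at h1
  refine tendsto_of_tendsto_of_tendsto_of_le_of_le' tendsto_const_nhds h1 ?_ ?_
  · filter_upwards [eventually_ge_atTop 0] with y hy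
    unfold PP
    positivity
  · filter_upwards [eventually_ge_atTop 0] with y hy
    exact PP_le R hy

theorem FF_tendsto (R : ℕ) : Tendsto (FF R) atTop (𝓝 1) := by
  have h1 := PP_tendsto R
  have h2 : Tendsto (fun y => PP R y ^ ((1 : ℝ) / ((R : ℝ) + 1))) atTop (𝓝 0) := by
    have h3 := h1.rpow_const (p := (1 : ℝ) / ((R : ℝ) + 1)) (Or.inr (by positivity))
    rwa [Real.zero_rpow (by positivity)] at h3
  have h4 := ((h2.const_add 1).pow (R + 1)).div (h1.const_sub 1) (by norm_num)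
  have e : (1 + (0 : ℝ)) ^ (R + 1) / (1 - 0) = 1 := by norm_num
  rw [e] at h4
  exact h4

theorem FG_tendsto {R : ℕ} (hR : 1 ≤ R) : Tendsto (fun y => FF R y * G R y) atTop (𝓝 (LL R)) := by
  have h := (FF_tendsto R).mul (G_tendsto hR)
  rwa [one_mul] at h

end Pool.Agent.J4.H85.GD
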