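import Pool.Agent.J4.H85.GD.Rand
import Pool.Agent.J4.H85.GD.Lim

/-!
# Achievable pairs (cost, failure probability) and the general inequality
-/

set_option autoImplicit false

open Finset Filter Topology

namespace Pool.Agent.J4.H85.GD

open Pool.Agent.H369R2.TD.Two (Pr mem_Pr card_union_of_mem_Pr Pr_card_le exists_pair sum_card_le
  Live)

/-- an initial round on the low part, then alternating rounds -/
theorem two_part_init {R d₁ d₂ : ℕ} {a₀ a₁ a₂ Φ₀ Φ₁ Φ₂ : ℝ} (h0 : ∀ n, Rnd R n d₁ a₀ Φ₀)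
    (h1 : ∀ n, Rnd R n d₁ a₁ Φ₁) (h2 : ∀ n, Rnd R n d₂ a₂ Φ₂) (ha0 : 0 ≤ a₀) (hp0 : 0 ≤ Φ₀)
    (ha1 : 0 ≤ a₁) (ha2 : 0 ≤ a₂) (hp1 : 0 < Φ₁) (hp1' : Φ₁ < 1)
    (hp2 : 0 < Φ₂) (hp2' : Φ₂ < 1) {ε : ℝ} (hε : 0 < ε) :
    Tur R (d₁ + d₂ + R) (a₀ + a₁ / (1 - Φ₂) + Φ₀ * (a₂ * Φ₁ / (1 - Φ₁)) + ε) := by
  classical
  intro n
  have hx0 : 0 ≤ a₁ / (1 - Φ₂) := div_nonneg ha1 (by linarith)
  have hy0 : 0 ≤ a₂ * Φ₁ / (1 - Φ₁) := div_nonneg (mul_nonneg ha2 hp1.le) (by linarith)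
  have hpp : 0 < 1 - Φ₁ * Φ₂ := by nlinarith
  by_cases hn : n < d₁ + d₂ + 2 * R
  · -- no set to be covered
    refine ⟨∅, by simp, ?_, ?_⟩
    · intro Y hY
      exfalso
      have := Finset.card_le_univ Y
      rw [Fintype.card_fin, hY] at this
      omega
    · simp only [card_empty, Nat.cast_zero]
      positivity
  push Not at hn
  have hc0 : 0 < n.choose (d₁ + d₂ + R) := Nat.choose_pos (by omega)
  have hc0' : (0 : ℝ) < (n.choose (d₁ + d₂ + R) : ℝ) := by exact_mod_cast hc0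
  have hc1 : 0 < n.choose (d₁ + d₂ + 2 * R) := Nat.choose_pos (by omega)
  have hc1' : (0 : ℝ) < (n.choose (d₁ + d₂ + 2 * R) : ℝ) := by exact_mod_cast hc1
  set z : ℝ := ε * (n.choose (d₁ + d₂ + R) : ℝ) /
    ((1 + Φ₀) * (n.choose (d₁ + d₂ + 2 * R) : ℝ)) with hz
  have hz0 : 0 < z := by positivity
  obtain ⟨Ω, _, _, A, c0, h0a, h0b⟩ := h0 n
  have hN : (0 : ℝ) < (Fintype.card Ω : ℝ) := by exact_mod_cast Fintype.card_pos
  set x := a₁ / (1 - Φ₂) with hx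
  set y := a₂ * Φ₁ / (1 - Φ₁) with hy
  -- the averages
  have e1 : ∑ ω : Ω, ((Two.C1 R n d₁ d₂ univ (A ω)).card : ℝ)
      ≤ a₀ * (Fintype.card Ω : ℝ) * ((Two.P1 R n d₁ d₂ univ).card : ℝ) := by
    refine sum_card_le (Two.P1 R n d₁ d₂ univ) _ _
      (fun p hp => h0a p.1 (mem_Pr.1 (mem_filter.1 hp).1).1) ?_
    intro ω p
    simp only [Two.C1, mem_filter, mem_univ, true_and]
  have e2 : ∑ ω : Ω, ((Two.P2 R n d₁ d₂ (Live univ (A ω))).card : ℝ)
      ≤ Φ₀ * (Fintype.card Ω : ℝ) * ((Two.P2 R n d₁ d₂ univ).card : ℝ) := by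
    refine sum_card_le (Two.P2 R n d₁ d₂ univ) _ _
      (fun p hp => h0b p.1 (mem_Pr.1 (mem_filter.1 hp).1).1) ?_
    intro ω p
    simp only [Two.P2, Live, mem_filter, mem_univ, true_and, and_true]
  have e3 : ∑ ω : Ω, ((Two.P12 R n d₁ d₂ (Live univ (A ω)) univ).card : ℝ)
      ≤ Φ₀ * (Fintype.card Ω : ℝ) * ((Two.P12 R n d₁ d₂ univ univ).card : ℝ) := by
    refine sum_card_le (Two.P12 R n d₁ d₂ univ univ) _ _
      (fun p hp => h0b p.1 (mem_Pr.1 (mem_filter.1 hp).1).1) ?_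
    intro ω p
    simp only [Two.P12, Live, mem_filter, mem_univ, true_and, and_true]
  obtain ⟨ω, hω⟩ : ∃ ω : Ω, ((Two.C1 R n d₁ d₂ univ (A ω)).card : ℝ) +
      y * ((Two.P2 R n d₁ d₂ (Live univ (A ω))).card : ℝ) +
      z * ((Two.P12 R n d₁ d₂ (Live univ (A ω)) univ).card : ℝ) ≤
      a₀ * ((Two.P1 R n d₁ d₂ univ).card : ℝ) + y * (Φ₀ * ((Two.P2 R n d₁ d₂ univ).card : ℝ)) +
      z * (Φ₀ * ((Two.P12 R n d₁ d₂ univ univ).card : ℝ)) := by
    by_contra hcon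
    push Not at hcon
    have hs := Finset.sum_lt_sum_of_nonempty (s := (univ : Finset Ω)) univ_nonempty
      (fun ω _ => hcon ω)
    rw [Finset.sum_const, nsmul_eq_mul, card_univ, Finset.sum_add_distrib,
      Finset.sum_add_distrib, ← Finset.mul_sum, ← Finset.mul_sum] at hs
    have g2 := mul_le_mul_of_nonneg_left e2 hy0
    have g3 := mul_le_mul_of_nonneg_left e3 hz0.le
    have : (Fintype.card Ω : ℝ) * (a₀ * ((Two.P1 R n d₁ d₂ univ).card : ℝ) +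
        y * (Φ₀ * ((Two.P2 R n d₁ d₂ univ).card : ℝ)) +
        z * (Φ₀ * ((Two.P12 R n d₁ d₂ univ univ).card : ℝ))) =
        a₀ * (Fintype.card Ω : ℝ) * ((Two.P1 R n d₁ d₂ univ).card : ℝ) +
        y * (Φ₀ * (Fintype.card Ω : ℝ) * ((Two.P2 R n d₁ d₂ univ).card : ℝ)) +
        z * (Φ₀ * (Fintype.card Ω : ℝ) * ((Two.P12 R n d₁ d₂ univ univ).card : ℝ)) := by ring
    linarith
  set U := Live univ (A ω) with hU
  obtain ⟨N, hN⟩ := exists_nat_ge (Two.W R n d₁ d₂ x y z U univ / (z * (1 - Φ₁ * Φ₂)))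
  have hN' : Two.W R n d₁ d₂ x y z U univ ≤ (N : ℝ) * (z * (1 - Φ₁ * Φ₂)) := by
    rwa [div_le_iff₀ (by positivity)] at hN
  obtain ⟨T, hT1, hT2, hT3⟩ := Two.potential (h1 n) (h2 n) ha1 ha2 hp1 hp1' hp2 hp2' hz0 N
    U univ hN'
  refine ⟨T ∪ ((Two.C1 R n d₁ d₂ univ (A ω)).image fun p => p.1 ∪ p.2), ?_, ?_, ?_⟩
  · intro Z hZ
    rw [mem_union] at hZ
    rcases hZ with hZ | hZ
    · exact hT1 Z hZ
    · obtain ⟨p, hp, rfl⟩ := mem_image.1 hZ
      have := card_union_of_mem_Pr (mem_filter.1 (mem_filter.1 hp).1).1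
      rw [this]; ring
  · intro Y hY
    obtain ⟨p, hp, hpY⟩ := exists_pair (a := d₁ + R) (b := d₂ + R) Y (by omega)
    have hpr := mem_Pr.1 hp
    by_cases q1 : ∃ Z ∈ A ω, Z ⊆ p.1
    · obtain ⟨Z, hZ, hZp⟩ := q1
      refine ⟨Z ∪ p.2, ?_, ?_⟩
      · rw [mem_union]
        refine Or.inr (mem_image.2 ⟨(Z, p.2), ?_, rfl⟩)
        refine mem_filter.2 ⟨mem_filter.2 ⟨mem_Pr.2 ⟨c0 ω Z hZ, hpr.2.1, ?_⟩, mem_univ _⟩, hZ⟩
        intro x hx y hy
        exact hpr.2.2 x (hZp hx) y hy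
      · rw [← hpY]
        exact Finset.union_subset_union_left hZp
    · obtain ⟨Z, hZ, hZp⟩ := hT2 p (mem_filter.2 ⟨hp, mem_filter.2 ⟨mem_univ _, q1⟩, mem_univ _⟩)
      exact ⟨Z, mem_union_left _ hZ, by rw [← hpY]; exact hZp⟩
  · have k1 : (T ∪ ((Two.C1 R n d₁ d₂ univ (A ω)).image fun p => p.1 ∪ p.2)).card ≤
        T.card + (Two.C1 R n d₁ d₂ univ (A ω)).card :=
      (card_union_le _ _).trans (Nat.add_le_add le_rfl card_image_le)
    have k2 : ((T ∪ ((Two.C1 R n d₁ d₂ univ (A ω)).image fun p => p.1 ∪ p.2)).card : ℝ) ≤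
        (T.card : ℝ) + ((Two.C1 R n d₁ d₂ univ (A ω)).card : ℝ) := by exact_mod_cast k1
    have b1 : ((Two.P1 R n d₁ d₂ univ).card : ℝ) ≤ (n.choose (d₁ + d₂ + R) : ℝ) := by
      have : (Two.P1 R n d₁ d₂ univ).card ≤ _ :=
        le_trans (Finset.card_filter_le _ _) (Pr_card_le n d₁ (d₂ + R))
      rw [← Nat.add_assoc] at this
      exact_mod_cast this
    have b2 : ((Two.P2 R n d₁ d₂ univ).card : ℝ) ≤ (n.choose (d₁ + d₂ + R) : ℝ) := by
      have : (Two.P2 R n d₁ d₂ univ).card ≤ _ :=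
        le_trans (Finset.card_filter_le _ _) (Pr_card_le n (d₁ + R) d₂)
      rw [show d₁ + R + d₂ = d₁ + d₂ + R by ring] at this
      exact_mod_cast this
    have b3 : ((Two.P12 R n d₁ d₂ univ univ).card : ℝ) ≤ (n.choose (d₁ + d₂ + 2 * R) : ℝ) := by
      have : (Two.P12 R n d₁ d₂ univ univ).card ≤ _ :=
        le_trans (Finset.card_filter_le _ _) (Pr_card_le n (d₁ + R) (d₂ + R))
      rw [show d₁ + R + (d₂ + R) = d₁ + d₂ + 2 * R by ring] at this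
      exact_mod_cast this
    unfold Two.W at hT3
    have hz2 : z * ((1 + Φ₀) * (n.choose (d₁ + d₂ + 2 * R) : ℝ)) =
        ε * (n.choose (d₁ + d₂ + R) : ℝ) := by
      rw [hz]; field_simp
    have g0 := mul_le_mul_of_nonneg_left b1 ha0
    have g1 := mul_le_mul_of_nonneg_left b1 hx0
    have g2 := mul_le_mul_of_nonneg_left b2 (mul_nonneg hy0 hp0)
    have g3 := mul_le_mul_of_nonneg_left b3 (mul_nonneg hz0.le hp0)
    have g4 : 0 ≤ z * (n.choose (d₁ + d₂ + 2 * R) : ℝ) := by positivity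
    calc _ ≤ (T.card : ℝ) + ((Two.C1 R n d₁ d₂ univ (A ω)).card : ℝ) := k2
      _ ≤ a₀ * (n.choose (d₁ + d₂ + R) : ℝ) + x * (n.choose (d₁ + d₂ + R) : ℝ) +
          y * Φ₀ * (n.choose (d₁ + d₂ + R) : ℝ) +
          z * ((1 + Φ₀) * (n.choose (d₁ + d₂ + 2 * R) : ℝ)) := by
          nlinarith
      _ = _ := by rw [hz2]; ring

/-- the pair (normalised cost, failure probability) is achieved by random families of `d`-sets for
large `d` -/
def Ach (R : ℕ) (A Φ : ℝ) : Prop :=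
  ∀ ε : ℝ, 0 < ε → ∀ᶠ d : ℕ in atTop, ∃ a Φ' : ℝ, (∀ n, Rnd R n d a Φ') ∧ 0 ≤ a ∧ 0 < Φ' ∧
    Φ' ≤ Φ + ε ∧ ((d + R).choose R : ℝ) * a ≤ A + ε

theorem ach_triv (R : ℕ) : Ach R 0 1 := by
  intro ε hε
  refine Eventually.of_forall fun d => ⟨0, 1, fun n => ?_, le_rfl, one_pos, by linarith, by
    rw [mul_zero]; linarith⟩
  refine ⟨Unit, inferInstance, inferInstance, fun _ => ∅, by simp, by simp, by simp⟩

theorem ach_det {R : ℕ} (hR : 1 ≤ R) {y : ℝ} (hy : 0 < y) : Ach R (G R y) (PP R y) := by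
  intro ε hε
  exact one_part hR hy (by linarith) (by linarith)

theorem choose_tendsto {R : ℕ} (hR : 1 ≤ R) :
    Tendsto (fun d : ℕ => ((d + R).choose R : ℝ)) atTop atTop := by
  have h1 : ∀ d : ℕ, (d : ℝ) ≤ ((d + R).choose R : ℝ) := by
    intro d
    have h2 : d + 1 ≤ (d + R).choose R := by
      obtain ⟨s, rfl⟩ : ∃ s, R = s + 1 := ⟨R - 1, by omega⟩
      have h3 : (d + 1).choose 1 ≤ (d + (s + 1)).choose (s + 1) := by
        have h4 := Nat.choose_symm_add (a := d) (b := s + 1)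
        rw [← h4]
        have h5 := Nat.choose_symm_add (a := d) (b := 1)
        rw [← h5]
        exact Nat.choose_le_choose d (by omega)
      rwa [Nat.choose_one_right] at h3
    exact_mod_cast (show d ≤ (d + R).choose R by omega)
  exact tendsto_atTop_mono h1 tendsto_natCast_atTop_atTop

theorem ach_rand {R : ℕ} (hR : 1 ≤ R) {κ : ℝ} (hκ : 0 ≤ κ) : Ach R κ (Real.exp (-κ)) := by
  intro ε hε
  filter_upwards [(choose_tendsto hR).eventually_gt_atTop (2 * κ + 2 * ε)] with d hd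
  set C : ℝ := ((d + R).choose R : ℝ) with hC
  have hC0 : 0 < C := by linarith
  obtain ⟨m, hm⟩ := exists_nat_gt (C / ε)
  have hm0 : (0 : ℝ) < m := lt_trans (by positivity) hm
  have hmn : 0 < m := by exact_mod_cast hm0
  set i : ℕ := ⌈κ * m / C⌉₊ with hi
  have h1 : κ * m / C ≤ i := Nat.le_ceil _
  have h2 : (i : ℝ) < κ * m / C + 1 := Nat.ceil_lt_add_one (by positivity)
  rw [div_lt_iff₀ hε] at hm
  have h3 : C * ((i : ℝ) / m) ≤ κ + ε := by
    rw [← mul_div_assoc, div_le_iff₀ hm0]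
    have h4 : C * (κ * m / C + 1) = κ * m + C := by field_simp
    have h5 : C * (i : ℝ) ≤ C * (κ * m / C + 1) := mul_le_mul_of_nonneg_left h2.le hC0.le
    nlinarith
  have h6 : (i : ℝ) / m ≤ 1 / 2 := by
    have h7 : C * ((i : ℝ) / m) ≤ C * (1 / 2) := by linarith
    exact le_of_mul_le_mul_left h7 hC0
  have him : i ≤ m := by
    rw [div_le_iff₀ hm0] at h6
    have : (i : ℝ) ≤ m := by linarith
    exact_mod_cast this
  refine ⟨(i : ℝ) / m, (1 - (i : ℝ) / m) ^ ((d + R).choose R), fun n => rnd_random him hmn,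
    by positivity, ?_, ?_, h3⟩
  · apply pow_pos
    linarith
  · have h8 : (1 - (i : ℝ) / m) ≤ Real.exp (-((i : ℝ) / m)) := Real.one_sub_le_exp_neg _
    have h9 : (1 - (i : ℝ) / m) ^ ((d + R).choose R) ≤
        Real.exp (-((i : ℝ) / m)) ^ ((d + R).choose R) := pow_le_pow_left₀ (by linarith) h8 _
    rw [← Real.exp_nat_mul] at h9
    refine h9.trans ?_
    have h10 : Real.exp (((d + R).choose R : ℕ) * -((i : ℝ) / m)) ≤ Real.exp (-κ) := by
      apply Real.exp_le_exp.2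
      have h11 : κ ≤ C * ((i : ℝ) / m) := by
        rw [← mul_div_assoc, le_div_iff₀ hm0]
        have h12 : κ * m = C * (κ * m / C) := by field_simp
        rw [h12]
        exact mul_le_mul_of_nonneg_left h1 hC0.le
      rw [← hC]
      linarith
    linarith

/-- the general inequality: an initial round, then alternating rounds -/
theorem ach_bound {R : ℕ} (hR : 1 ≤ R) {A₀ A₁ A₂ P₀ P₁ P₂ lam : ℝ} (h0 : Ach R A₀ P₀)
    (h1 : Ach R A₁ P₁) (h2 : Ach R A₂ P₂) (hP0 : 0 ≤ P₀) (hP1 : 0 ≤ P₁) (hP1' : P₁ < 1)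
    (hP2 : 0 ≤ P₂) (hP2' : P₂ < 1) (hl0 : 0 < lam) (hl1 : lam < 1) :
    LL R ≤ (A₀ + A₁ / (1 - P₂)) / lam ^ R + P₀ * (A₂ * P₁ / (1 - P₁)) / (1 - lam) ^ R := by
  refine le_of_forall_gt_imp_ge_of_dense fun V hV => LL_le hR ?_
  have hl1' : 0 < 1 - lam := by linarith
  -- room for a small error
  obtain ⟨ε, hε, hεV, hε1, hε2⟩ : ∃ ε : ℝ, 0 < ε ∧
      ((A₀ + ε) + (A₁ + ε) / (1 - (P₂ + ε))) / lam ^ R +
        (P₀ + ε) * ((A₂ + ε) * (P₁ + ε) / (1 - (P₁ + ε))) / (1 - lam) ^ R < V ∧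
      P₁ + ε < 1 ∧ P₂ + ε < 1 := by
    have hcont : ContinuousAt (fun ε : ℝ => ((A₀ + ε) + (A₁ + ε) / (1 - (P₂ + ε))) / lam ^ R +
        (P₀ + ε) * ((A₂ + ε) * (P₁ + ε) / (1 - (P₁ + ε))) / (1 - lam) ^ R) 0 := by
      have g1 : (1 - (P₂ + (0 : ℝ))) ≠ 0 := by
        have : 0 < 1 - (P₂ + 0) := by linarith
        exact this.ne'
      have g2 : (1 - (P₁ + (0 : ℝ))) ≠ 0 := by
        have : 0 < 1 - (P₁ + 0) := by linarith
        exact this.ne'
      refine ContinuousAt.add (ContinuousAt.div_const (ContinuousAt.add (by fun_prop)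
        (ContinuousAt.div (by fun_prop) (by fun_prop) ?_)) _)
        (ContinuousAt.div_const (ContinuousAt.mul (by fun_prop)
          (ContinuousAt.div (by fun_prop) (by fun_prop) ?_)) _)
      · exact g1
      · exact g2
    have h1 := hcont.tendsto
    simp only [add_zero] at h1
    have h2 := ((h1.mono_left (nhdsWithin_le_nhds (s := Set.Ioi 0))).eventually_lt_const hV)
    have h3 : ∀ᶠ ε : ℝ in 𝓝[>] 0, ε < 1 - P₁ :=
      (nhdsWithin_le_nhds (s := Set.Ioi 0)) (Iio_mem_nhds (by linarith))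
    have h4 : ∀ᶠ ε : ℝ in 𝓝[>] 0, ε < 1 - P₂ :=
      (nhdsWithin_le_nhds (s := Set.Ioi 0)) (Iio_mem_nhds (by linarith))
    obtain ⟨ε, e1, e2, e3, e4⟩ := (h2.and (h3.and (h4.and self_mem_nhdsWithin))).exists
    exact ⟨ε, e4, e1, by linarith, by linarith⟩
  have f0 := h0 ε hε
  have f1 := h1 ε hε
  have f2 := h2 ε hε
  -- the sizes of the parts
  let h : ℕ → ℕ := fun r => ⌊lam * ((r + R : ℕ) : ℝ)⌋₊
  have hcast : Tendsto (fun r : ℕ => ((r + R : ℕ) : ℝ)) atTop atTop :=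
    tendsto_natCast_atTop_atTop.comp (tendsto_add_atTop_nat R)
  have hlim : Tendsto h atTop atTop :=
    tendsto_nat_floor_atTop.comp (hcast.const_mul_atTop hl0)
  have hratio : Tendsto (fun r : ℕ => (h r : ℝ) / ((r + R : ℕ) : ℝ)) atTop (𝓝 lam) := by
    have := (tendsto_nat_floor_mul_div_atTop hl0.le).comp hcast
    exact this
  have hle : ∀ r : ℕ, h r ≤ r + R := by
    intro r
    have h1 : (h r : ℝ) ≤ lam * ((r + R : ℕ) : ℝ) := Nat.floor_le (by positivity)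
    have h2 : lam * ((r + R : ℕ) : ℝ) ≤ 1 * ((r + R : ℕ) : ℝ) :=
      mul_le_mul_of_nonneg_right hl1.le (Nat.cast_nonneg _)
    rw [one_mul] at h2
    exact_mod_cast h1.trans h2
  have hratio2 : Tendsto (fun r : ℕ => ((r + R - h r : ℕ) : ℝ) / ((r + R : ℕ) : ℝ)) atTop
      (𝓝 (1 - lam)) := by
    refine (hratio.const_sub 1).congr' ?_
    filter_upwards [eventually_ge_atTop 1] with r hr
    have : (0 : ℝ) < ((r + R : ℕ) : ℝ) := by exact_mod_cast (show 0 < r + R by omega)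
    rw [Nat.cast_sub (hle r)]
    field_simp
  have hlim2 : Tendsto (fun r => r + R - h r) atTop atTop := by
    have h1 := hratio2.pos_mul_atTop hl1' hcast
    rw [← tendsto_natCast_atTop_iff (R := ℝ)]
    refine h1.congr' ?_
    filter_upwards [eventually_ge_atTop 1] with r hr
    have : (0 : ℝ) < ((r + R : ℕ) : ℝ) := by exact_mod_cast (show 0 < r + R by omega)
    field_simp
  have hnat : Tendsto (fun r : ℕ => r + R) atTop atTop := tendsto_add_atTop_nat R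
  have ρ1 := choose_ratio R hnat hlim hl0 hratio
  have ρ2 := choose_ratio R hnat hlim2 hl1' hratio2
  have hlimR : Tendsto (fun r => h r - R) atTop atTop := by
    refine tendsto_atTop.2 fun b => ?_
    filter_upwards [tendsto_atTop.1 hlim (b + R)] with r hr
    omega
  have hlim2R : Tendsto (fun r => r + R - h r - R) atTop atTop := by
    refine tendsto_atTop.2 fun b => ?_
    filter_upwards [tendsto_atTop.1 hlim2 (b + R)] with r hr
    omega
  obtain ⟨D₀, hD0⟩ : ∃ x, x = A₀ + ε := ⟨_, rfl⟩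
  obtain ⟨D₁, hD1⟩ : ∃ x, x = A₁ + ε := ⟨_, rfl⟩
  obtain ⟨D₂, hD2⟩ : ∃ x, x = A₂ + ε := ⟨_, rfl⟩
  obtain ⟨Q₀, hQ0⟩ : ∃ x, x = P₀ + ε := ⟨_, rfl⟩
  obtain ⟨Q₁, hQ1⟩ : ∃ x, x = P₁ + ε := ⟨_, rfl⟩
  obtain ⟨Q₂, hQ2⟩ : ∃ x, x = P₂ + ε := ⟨_, rfl⟩
  rw [← hD0, ← hQ0] at f0
  rw [← hD1, ← hQ1] at f1
  rw [← hD2, ← hQ2] at f2
  rw [← hD0, ← hD1, ← hD2, ← hQ0, ← hQ1, ← hQ2] at hεV
  rw [← hQ1] at hε1
  rw [← hQ2] at hε2
  have hQ0p : 0 < Q₀ := by linarith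
  have hQ1p : 0 < Q₁ := by linarith
  have hQ2p : 0 < Q₂ := by linarith
  have hfin : Tendsto (fun r : ℕ => ((r + R).choose R : ℝ) / ((h r).choose R : ℝ) *
      (D₀ + D₁ / (1 - Q₂)) + ((r + R).choose R : ℝ) / ((r + R - h r).choose R : ℝ) *
      (Q₀ * (D₂ * Q₁ / (1 - Q₁)))) atTop
      (𝓝 ((lam ^ R)⁻¹ * (D₀ + D₁ / (1 - Q₂)) + ((1 - lam) ^ R)⁻¹ *
        (Q₀ * (D₂ * Q₁ / (1 - Q₁))))) :=
    (ρ1.mul_const _).add (ρ2.mul_const _)
  have hlt : (lam ^ R)⁻¹ * (D₀ + D₁ / (1 - Q₂)) + ((1 - lam) ^ R)⁻¹ *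
      (Q₀ * (D₂ * Q₁ / (1 - Q₁))) < V := by
    refine lt_of_eq_of_lt ?_ hεV
    rw [← div_eq_inv_mul, ← div_eq_inv_mul]
  filter_upwards [hfin.eventually_lt_const hlt, hlimR.eventually f0, hlimR.eventually f1,
    hlim2R.eventually f2, tendsto_atTop.1 hlim R, tendsto_atTop.1 hlim2 R] with r g0 g00 g1 g2 g3 g4
  obtain ⟨a₀, Φ₀, b1, b2, b3, b4, b5⟩ := g00
  obtain ⟨a₁, Φ₁, c1, c2, c3, c4, c5⟩ := g1
  obtain ⟨a₂, Φ₂, d1, d2, d3, d4, d5⟩ := g2
  have hr : (h r - R) + (r + R - h r - R) + R = r := by have := hle r; omega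
  rw [Nat.sub_add_cancel g3] at b5 c5
  rw [Nat.sub_add_cancel g4] at d5
  have htt : tt R r ≤ a₀ + a₁ / (1 - Φ₂) + Φ₀ * (a₂ * Φ₁ / (1 - Φ₁)) := by
    refine le_of_forall_pos_le_add fun ε' hε' => ?_
    have hT := two_part_init b1 c1 d1 b2 b3.le c2 d2 c3 (lt_of_le_of_lt c4 hε1) d3
      (lt_of_le_of_lt d4 hε2) hε'
    rw [hr] at hT
    exact tt_le hT
  refine le_trans ?_ g0.le
  have hC0 : (0 : ℝ) < ((r + R).choose R : ℝ) := by
    exact_mod_cast Nat.choose_pos (show R ≤ r + R by omega)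
  have hC1 : (0 : ℝ) < ((h r).choose R : ℝ) := by exact_mod_cast Nat.choose_pos g3
  have hC2 : (0 : ℝ) < ((r + R - h r).choose R : ℝ) := by exact_mod_cast Nat.choose_pos g4
  have q1 : 0 < 1 - Φ₁ := by linarith
  have q2 : 0 < 1 - Φ₂ := by linarith
  have q3 : 0 < 1 - Q₁ := by linarith
  have q4 : 0 < 1 - Q₂ := by linarith
  have hD00 : 0 ≤ D₀ := le_trans (mul_nonneg hC1.le b2) b5
  have hD10 : 0 ≤ D₁ := le_trans (mul_nonneg hC1.le c2) c5
  have hD20 : 0 ≤ D₂ := le_trans (mul_nonneg hC2.le d2) d5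
  have k0 : a₀ ≤ D₀ / ((h r).choose R : ℝ) := by
    rw [le_div_iff₀ hC1]
    linarith
  have k1 : a₁ / (1 - Φ₂) ≤ D₁ / ((h r).choose R : ℝ) / (1 - Q₂) := by
    apply div_le_div₀ (by positivity) _ q4 (by linarith)
    rw [le_div_iff₀ hC1]
    linarith
  have k2 : a₂ * Φ₁ / (1 - Φ₁) ≤ D₂ / ((r + R - h r).choose R : ℝ) * Q₁ / (1 - Q₁) := by
    apply div_le_div₀ (by positivity) _ q3 (by linarith)
    apply mul_le_mul _ c4 c3.le (by positivity)
    rw [le_div_iff₀ hC2]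
    linarith
  have k3 : Φ₀ * (a₂ * Φ₁ / (1 - Φ₁)) ≤
      Q₀ * (D₂ / ((r + R - h r).choose R : ℝ) * Q₁ / (1 - Q₁)) :=
    mul_le_mul b4 k2 (by positivity) hQ0p.le
  unfold CC
  calc ((r + R).choose R : ℝ) * tt R r
      ≤ ((r + R).choose R : ℝ) * (D₀ / ((h r).choose R : ℝ) +
        D₁ / ((h r).choose R : ℝ) / (1 - Q₂) +
        Q₀ * (D₂ / ((r + R - h r).choose R : ℝ) * Q₁ / (1 - Q₁))) :=
        mul_le_mul_of_nonneg_left (htt.trans (add_le_add (add_le_add k0 k1) k3)) hC0.le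
    _ = _ := by ring

/-- the inequality of the determinant codes, two means -/
theorem LL_le_two {R : ℕ} (hR : 1 ≤ R) {y₁ y₂ lam : ℝ} (hy1 : 0 < y₁) (hy2 : 0 < y₂)
    (hl0 : 0 < lam) (hl1 : lam < 1) :
    LL R ≤ G R y₁ / (lam ^ R * (1 - PP R y₂)) +
      G R y₂ * PP R y₁ / ((1 - lam) ^ R * (1 - PP R y₁)) :=
  le_of_forall_gt_imp_ge_of_dense fun _ hV => LL_le hR (asymptotic hR hy1 hy2 hl0 hl1 hV)

/-- the bound from purely random families -/
theorem LL_le_rand' {R : ℕ} (hR : 1 ≤ R) {κ lam : ℝ} (hκ : 0 ≤ κ) (hl0 : 0 < lam) (hl1 : lam < 1) :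
    LL R ≤ (κ + 1) / lam ^ R + Real.exp (-κ) / (1 - lam) ^ R := by
  have hl1' : 0 < 1 - lam := by linarith
  have h : ∀ ε : ℝ, 0 < ε → LL R ≤ (κ + Real.exp ε) / lam ^ R + Real.exp (-κ) / (1 - lam) ^ R := by
    intro ε hε
    have h1 : Real.exp (-ε) < 1 := by
      have := Real.exp_lt_exp.2 (show -ε < 0 by linarith)
      rwa [Real.exp_zero] at this
    have h2 := ach_bound hR (ach_rand hR hκ) (ach_rand hR hε.le) (ach_rand hR hε.le)
      (Real.exp_pos _).le (Real.exp_pos _).le h1 (Real.exp_pos _).le h1 hl0 hl1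
    have h3 : ε * Real.exp (-ε) ≤ 1 - Real.exp (-ε) := by
      have h4 : 1 + ε ≤ Real.exp ε := by linarith [Real.add_one_le_exp ε]
      have h5 : Real.exp ε * Real.exp (-ε) = 1 := by rw [← Real.exp_add]; simp
      have h6 := mul_le_mul_of_nonneg_right h4 (Real.exp_pos (-ε)).le
      rw [h5] at h6
      linarith
    have h7 : 0 < 1 - Real.exp (-ε) := by linarith
    have h8 : ε / (1 - Real.exp (-ε)) ≤ Real.exp ε := by
      rw [div_le_iff₀ h7]
      have h5 : Real.exp ε * Real.exp (-ε) = 1 := by rw [← Real.exp_add]; simp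
      have h9 := mul_le_mul_of_nonneg_left h3 (Real.exp_pos ε).le
      nlinarith
    have h10 : ε * Real.exp (-ε) / (1 - Real.exp (-ε)) ≤ 1 := by
      rw [div_le_one h7]
      exact h3
    refine h2.trans ?_
    apply add_le_add
    · apply div_le_div_of_nonneg_right _ (by positivity)
      linarith
    · apply div_le_div_of_nonneg_right _ (by positivity)
      have := mul_le_mul_of_nonneg_left h10 (Real.exp_pos (-κ)).le
      linarith
  have hcont : Tendsto (fun ε : ℝ => (κ + Real.exp ε) / lam ^ R + Real.exp (-κ) / (1 - lam) ^ R)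
      (𝓝[>] 0) (𝓝 ((κ + Real.exp 0) / lam ^ R + Real.exp (-κ) / (1 - lam) ^ R)) := by
    apply Tendsto.mono_left _ nhdsWithin_le_nhds
    exact (Continuous.tendsto (by fun_prop) 0)
  rw [Real.exp_zero] at hcont
  refine ge_of_tendsto hcont ?_
  filter_upwards [self_mem_nhdsWithin] with ε hε
  exact h ε hε

theorem LL_le_rand {R : ℕ} (hR : 1 ≤ R) {κ : ℝ} (hκ : 0 ≤ κ) :
    LL R ≤ ((κ + 1) ^ ((1 : ℝ) / ((R : ℝ) + 1)) + Real.exp (-κ / ((R : ℝ) + 1))) ^ (R + 1) := by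
  obtain ⟨u, hu⟩ : ∃ u : ℝ, u = (κ + 1) ^ ((1 : ℝ) / ((R : ℝ) + 1)) := ⟨_, rfl⟩
  obtain ⟨v, hv⟩ : ∃ v : ℝ, v = Real.exp (-κ / ((R : ℝ) + 1)) := ⟨_, rfl⟩
  have hu0 : 0 < u := by rw [hu]; exact Real.rpow_pos_of_pos (by linarith) _
  have hv0 : 0 < v := by rw [hv]; exact Real.exp_pos _
  have hR1 : (0 : ℝ) < (R : ℝ) + 1 := by positivity
  have hue : u ^ (R + 1) = κ + 1 := by
    rw [hu, ← Real.rpow_natCast, ← Real.rpow_mul (by linarith)]
    have : (1 : ℝ) / ((R : ℝ) + 1) * ((R + 1 : ℕ) : ℝ) = 1 := by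
      push_cast
      field_simp
    rw [this, Real.rpow_one]
  have hve : v ^ (R + 1) = Real.exp (-κ) := by
    rw [hv, ← Real.exp_nat_mul]
    congr 1
    push_cast
    field_simp
  rw [← hu, ← hv]
  have hl0 : 0 < u / (u + v) := by positivity
  have hl1 : u / (u + v) < 1 := by rw [div_lt_one (by positivity)]; linarith
  have h := LL_le_rand' hR hκ hl0 hl1
  refine h.trans (le_of_eq ?_)
  have e1 : 1 - u / (u + v) = v / (u + v) := by field_simp; ring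
  rw [e1, ← hue, ← hve, div_pow, div_pow]
  have h1 : u ^ R ≠ 0 := by positivity
  have h2 : v ^ R ≠ 0 := by positivity
  rw [pow_succ u R, pow_succ v R, pow_succ (u + v) R]
  field_simp

end Pool.Agent.J4.H85.GD
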