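import Pool.Agent.J4.H85.GD.Prod
import Pool.Agent.J4.H85.GD.Ach
import Pool.Agent.TH485.Uni.Main
import Pool.Agent.J4.H76.TK.Num
import Pool.Agent.H688R3.TuranGenLimit

/-!
# Explicit constants for `R = 1` and `R = 2`
-/

set_option autoImplicit false

open Finset Filter Topology

namespace Pool.Agent.J4.H85.GD

open Pool.Agent.TH485.Uni (dn g cN tur_dn)

theorem tt_one_le (r : ℕ) : tt 1 r ≤ dn r := tt_le (R := 1) (tur_dn r)

theorem LL_one : LL 1 ≤ 1.919 := by
  refine LL_le le_rfl ?_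
  filter_upwards [Pool.Agent.J4.H76.TK.tur_1919] with r hr
  have h := tt_le (R := 1) hr
  unfold CC
  rw [Nat.choose_one_right, le_div_iff₀ (by positivity)] at *
  push_cast
  linarith

/-- `1000 C(r+2, 2) t(r+2, r)` is at most the `r`-th entry -/
def tab : List ℕ := [1000, 3000, 3000, 2500, 3750, 4667, 4375, 5001, 4395, 5230, 4875, 5609, 5083, 5865, 5990, 6788, 6462, 7222, 7171, 7926, 7377, 8080, 8282, 9002, 9163, 9896, 10225, 10214, 10246, 10313, 10413, 10432, 10453, 10502, 10576, 10673, 10791, 10927]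

/-- the uniformity of the first factor -/
def spl : List ℕ := [0, 0, 0, 0, 2, 2, 2, 3, 4, 4, 4, 5, 6, 6, 6, 6, 6, 7, 8, 9, 10, 10, 10, 10, 12, 12, 10, 10, 10, 10, 10, 10, 10, 10, 10, 10, 10, 10]

theorem tab_chk : ∀ r < 38, r = 3 ∨ (spl.getD r 0 ≤ r ∧
    (r + 2).choose 2 * (g (spl.getD r 0 + 1) * g (r - spl.getD r 0 + 1)) * 1000 ≤
      tab.getD r 0 * (100000 * (spl.getD r 0 + 1) * (100000 * (r - spl.getD r 0 + 1)))) := by
  decide

theorem tt_two_le {a b : ℕ} : tt 2 (a + b) ≤ (g (a + 1) : ℝ) * g (b + 1) /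
    ((100000 * ((a : ℝ) + 1)) * (100000 * ((b : ℝ) + 1))) := by
  have h := tt_prod 1 1 a b
  have h1 := tt_one_le a
  have h2 := tt_one_le b
  have h3 : tt 1 a * tt 1 b ≤ dn a * dn b :=
    mul_le_mul h1 h2 (tt_nonneg _ _) ((tt_nonneg _ _).trans h1)
  refine (h.trans h3).trans (le_of_eq ?_)
  unfold Pool.Agent.TH485.Uni.dn
  have : (0 : ℝ) < (a : ℝ) + 1 := by positivity
  have : (0 : ℝ) < (b : ℝ) + 1 := by positivity
  field_simp

theorem tt_two_three : tt 2 3 ≤ 1 / 4 := by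
  have h := Pool.Agent.H688R3.TuranGen.t_div (s := 2) le_rfl (j := 3) (m := 5) (by norm_num)
    (by norm_num)
  have h1 : Pool.Agent.H688R3.TuranGen.t 3 3 ≤ 1 := tt_le_one 0 3
  have e : (((5 - 1) / (3 - 1) : ℕ) : ℝ) = 2 := by norm_num
  have h2 : Pool.Agent.H688R3.TuranGen.t 3 5 = tt 2 3 := rfl
  norm_num at h
  rw [h2] at h
  linarith

theorem cj_tab : ∀ r < 38, cj 2 (r + 2) ≤ (tab.getD r 0 : ℝ) / 1000 := by
  intro r hr
  rw [cj_add]
  unfold CC
  rcases tab_chk r hr with h3 | ⟨h1, h2⟩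
  · subst h3
    have h := tt_two_three
    have e : ((3 + 2).choose 2 : ℝ) = 10 := by norm_num [Nat.choose]
    rw [e]
    norm_num [tab]
    linarith
  · obtain ⟨a, ha⟩ : ∃ a, a = spl.getD r 0 := ⟨_, rfl⟩
    rw [← ha] at h1 h2
    obtain ⟨b, hb⟩ : ∃ b, r = a + b := ⟨r - a, by omega⟩
    have hb' : r - a = b := by omega
    rw [hb'] at h2
    have h3 := tt_two_le (a := a) (b := b)
    rw [← hb] at h3
    have h4 : (((r + 2).choose 2 * (g (a + 1) * g (b + 1)) * 1000 : ℕ) : ℝ) ≤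
        ((tab.getD r 0 * (100000 * (a + 1) * (100000 * (b + 1))) : ℕ) : ℝ) := by
      exact_mod_cast h2
    push_cast at h4
    have hpos : (0 : ℝ) < (100000 * ((a : ℝ) + 1)) * (100000 * ((b : ℝ) + 1)) := by positivity
    calc ((r + 2).choose 2 : ℝ) * tt 2 r ≤ ((r + 2).choose 2 : ℝ) *
          ((g (a + 1) : ℝ) * g (b + 1) / ((100000 * ((a : ℝ) + 1)) * (100000 * ((b : ℝ) + 1)))) :=
          mul_le_mul_of_nonneg_left h3 (Nat.cast_nonneg _)
      _ ≤ (tab.getD r 0 : ℝ) / 1000 := by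
          rw [← mul_div_assoc, div_le_div_iff₀ hpos (by norm_num)]
          linarith

theorem g_le (j : ℕ) : (g j : ℝ) ≤ 262307 := by
  exact_mod_cast Pool.Agent.J4.H76.TK.g_le j

theorem cj_two_le (j : ℕ) : cj 2 j ≤ 13761 / 1000 := by
  rcases Nat.lt_or_ge j 2 with h | h
  · rw [cj_of_lt h]; norm_num
  · obtain ⟨r, rfl⟩ : ∃ r, j = r + 2 := ⟨j - 2, by omega⟩
    rw [cj_add]
    unfold CC
    obtain ⟨a, b, hab, hd⟩ : ∃ a b, r = a + b ∧ (b = a ∨ b = a + 1) :=
      ⟨r / 2, r - r / 2, by omega, by omega⟩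
    have h3 := tt_two_le (a := a) (b := b)
    rw [← hab] at h3
    have h4 : (g (a + 1) : ℝ) * g (b + 1) ≤ 262307 * 262307 :=
      mul_le_mul (g_le _) (g_le _) (Nat.cast_nonneg _) (by norm_num)
    have hpos : (0 : ℝ) < (100000 * ((a : ℝ) + 1)) * (100000 * ((b : ℝ) + 1)) := by positivity
    have e : ((r + 2).choose 2 : ℝ) = ((r : ℝ) + 2) * ((r : ℝ) + 1) / 2 := by
      rw [Nat.cast_choose_two]
      push_cast
      ring
    have hr : (r : ℝ) = a + b := by exact_mod_cast hab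
    have ha0 : (0 : ℝ) ≤ a := Nat.cast_nonneg _
    have h5 : ((r : ℝ) + 2) * ((r : ℝ) + 1) / 2 ≤ 2 * (((a : ℝ) + 1) * ((b : ℝ) + 1)) := by
      rw [hr]
      rcases hd with hd | hd
      · subst hd
        nlinarith
      · have : (b : ℝ) = a + 1 := by rw [hd]; push_cast; ring
        rw [this]
        nlinarith
    calc ((r + 2).choose 2 : ℝ) * tt 2 r ≤ ((r + 2).choose 2 : ℝ) *
          ((262307 * 262307) / ((100000 * ((a : ℝ) + 1)) * (100000 * ((b : ℝ) + 1)))) := by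
          apply mul_le_mul_of_nonneg_left _ (Nat.cast_nonneg _)
          exact h3.trans (div_le_div_of_nonneg_right h4 hpos.le)
      _ ≤ 13761 / 1000 := by
          rw [e, ← mul_div_assoc, div_le_div_iff₀ hpos (by norm_num)]
          have hq : (0 : ℝ) < ((a : ℝ) + 1) * ((b : ℝ) + 1) := by positivity
          nlinarith

theorem exp_12 : 6144212 / 1000000000000 ≤ Real.exp (-12) ∧
    Real.exp (-12) ≤ 6144213 / 1000000000000 := by
  have e : Real.exp (-12) = (Real.exp 1 ^ 12)⁻¹ := by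
    rw [Real.exp_neg, ← Real.exp_nat_mul]; norm_num
  have h1 := Real.exp_one_gt_d9
  have h2 := Real.exp_one_lt_d9
  rw [e]
  constructor
  · rw [le_inv_comm₀ (by norm_num) (by positivity)]
    calc Real.exp 1 ^ 12 ≤ 2.7182818286 ^ 12 := pow_le_pow_left₀ (Real.exp_pos _).le h2.le _
      _ ≤ _ := by norm_num
  · rw [inv_le_comm₀ (by positivity) (by norm_num)]
    calc _ ≤ (2.7182818283 : ℝ) ^ 12 := by norm_num
      _ ≤ Real.exp 1 ^ 12 := pow_le_pow_left₀ (by norm_num) h1.le _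

/-- the bounds for `cj 2 j`, `j < 40` -/
noncomputable def cb (j : ℕ) : ℝ := if j < 2 then 0 else (tab.getD (j - 2) 0 : ℝ) / 1000

theorem cj_cb {j : ℕ} (hj : j < 40) : cj 2 j ≤ cb j := by
  unfold cb
  split_ifs with h
  · rw [cj_of_lt h]
  · obtain ⟨r, rfl⟩ : ∃ r, j = r + 2 := ⟨j - 2, by omega⟩
    rw [Nat.add_sub_cancel]
    exact cj_tab r (by omega)

theorem sum_num : ∑ j ∈ range 40, (cb j - 13761 / 1000) * ((12 : ℝ) ^ j / (j.factorial : ℝ)) ≤
    -1393705 := by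
  simp only [Finset.sum_range_succ, Finset.sum_range_zero, cb, tab]
  norm_num [Nat.factorial]

theorem G_two : G 2 12 ≤ 51978 / 10000 := by
  have hE : (0 : ℝ) < Real.exp (-12) := Real.exp_pos _
  have hEE : Real.exp (-12) * Real.exp 12 = 1 := by rw [← Real.exp_add]; simp
  have hpt : ∀ j : ℕ, cj 2 j * ((12 : ℝ) ^ j / (j.factorial : ℝ)) ≤
      (if j < 40 then (cb j - 13761 / 1000) * ((12 : ℝ) ^ j / (j.factorial : ℝ)) else 0) +
        13761 / 1000 * ((12 : ℝ) ^ j / (j.factorial : ℝ)) := by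
    intro j
    have hp : (0 : ℝ) ≤ (12 : ℝ) ^ j / (j.factorial : ℝ) := by positivity
    by_cases hj : j < 40
    · rw [if_pos hj]
      have := mul_le_mul_of_nonneg_right (cj_cb hj) hp
      linarith
    · rw [if_neg hj, zero_add]
      exact mul_le_mul_of_nonneg_right (cj_two_le j) hp
  have hs2 : HasSum (fun j : ℕ => if j < 40 then (cb j - 13761 / 1000) *
      ((12 : ℝ) ^ j / (j.factorial : ℝ)) else 0)
      (∑ j ∈ range 40, (cb j - 13761 / 1000) * ((12 : ℝ) ^ j / (j.factorial : ℝ))) := by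
    have h : HasSum (fun j : ℕ => if j < 40 then (cb j - 13761 / 1000) *
        ((12 : ℝ) ^ j / (j.factorial : ℝ)) else 0)
        (∑ j ∈ range 40, (if j < 40 then (cb j - 13761 / 1000) *
          ((12 : ℝ) ^ j / (j.factorial : ℝ)) else 0)) :=
      hasSum_sum_of_ne_finset_zero (fun j hj => by
        have : ¬ j < 40 := by simpa using hj
        simp only [if_neg this])
    have e : ∑ j ∈ range 40, (if j < 40 then (cb j - 13761 / 1000) *
          ((12 : ℝ) ^ j / (j.factorial : ℝ)) else 0) =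
        ∑ j ∈ range 40, (cb j - 13761 / 1000) * ((12 : ℝ) ^ j / (j.factorial : ℝ)) :=
      sum_congr rfl fun j hj => if_pos (mem_range.1 hj)
    rwa [e] at h
  have hs3 : HasSum (fun j : ℕ => 13761 / 1000 * ((12 : ℝ) ^ j / (j.factorial : ℝ)))
      (13761 / 1000 * Real.exp 12) := by
    have h2 := (Real.summable_pow_div_factorial 12).hasSum
    rw [exp_tsum] at h2
    exact h2.mul_left _
  have h6 := hasSum_le hpt (summ 12 (cj_abs (show 1 ≤ 2 by norm_num))).hasSum (hs2.add hs3)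
  have h7 := mul_le_mul_of_nonneg_left (h6.trans (add_le_add sum_num le_rfl)) hE.le
  unfold G
  refine h7.trans ?_
  have h8 := exp_12.1
  calc Real.exp (-12) * (-1393705 + 13761 / 1000 * Real.exp 12)
      = 13761 / 1000 * (Real.exp (-12) * Real.exp 12) - 1393705 * Real.exp (-12) := by ring
    _ ≤ 51978 / 10000 := by
        rw [hEE]
        linarith

theorem LL_two : LL 2 ≤ 5.9 := by
  have h := LL_le_G (R := 2) (by norm_num) (y := 12) (by norm_num)
  have hG := G_two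
  have hG0 := G_nonneg 2 (y := 12) (by norm_num)
  have hP : PP 2 12 ≤ (4307 / 100000) ^ 3 := by
    unfold PP
    have h2 := exp_12.2
    simp only [Finset.sum_range_succ, Finset.sum_range_zero]
    norm_num [Nat.factorial]
    linarith
  have hP0 : 0 < PP 2 12 := PP_pos (by norm_num) (by norm_num)
  have hp : PP 2 12 ^ ((1 : ℝ) / (((2 : ℕ) : ℝ) + 1)) ≤ 4307 / 100000 := by
    calc PP 2 12 ^ ((1 : ℝ) / (((2 : ℕ) : ℝ) + 1))
        ≤ ((4307 / 100000 : ℝ) ^ 3) ^ ((1 : ℝ) / (((2 : ℕ) : ℝ) + 1)) :=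
          Real.rpow_le_rpow hP0.le hP (by positivity)
      _ = 4307 / 100000 := by
          rw [← Real.rpow_natCast, ← Real.rpow_mul (by norm_num)]
          norm_num
  have hp0 : 0 ≤ PP 2 12 ^ ((1 : ℝ) / (((2 : ℕ) : ℝ) + 1)) := Real.rpow_nonneg hP0.le _
  have hF : FF 2 12 ≤ (1 + 4307 / 100000) ^ 3 / (1 - (4307 / 100000) ^ 3) := by
    unfold FF
    apply div_le_div₀ (by norm_num) _ (by norm_num) (by linarith)
    exact pow_le_pow_left₀ (by linarith) (by linarith) _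
  calc LL 2 ≤ FF 2 12 * G 2 12 := h
    _ ≤ (1 + 4307 / 100000) ^ 3 / (1 - (4307 / 100000) ^ 3) * (51978 / 10000) :=
        mul_le_mul hF hG hG0 (by norm_num)
    _ ≤ 5.9 := by norm_num

end Pool.Agent.J4.H85.GD
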