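import Pool.Agent.J4.H85.GD.Fin
import Pool.Agent.J4.H85.GD.Num

/-!
# The Turán densities of `K_{r+R}^r` for every fixed `R`, `r → ∞`

The notions are those of `Pool.Agent.H120R2.CliqueDefs`: `ex n r m = ex(n, K_m^r)` and
`turanDensity r m = π(K_m^r)`, the limit of `ex n r m / C(n, r)`. Below
`t R r = 1 - π(K_{r+R}^r)`, the least density of a family of `r`-sets with a member in every
`(r+R)`-set.

De Caen's bound gives `C(r+R, R) t R r ≥ 1`, and for fixed `R` the left side is known to be bounded.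
We show that it converges for every fixed `R ≥ 1`, to a limit `L R`, and that

* every single value bounds the limit: `L R ≤ (1 + C √(log (r+R) / (r+R))) C(r+R, R) t R r` for all
  `r ≥ 3`, with a constant `C` that depends only on `R`;
* covering almost all `(r+R)`-sets is not cheaper than covering all of them: if `r`-graphs of density
  `a` have members in all but a fraction `Φ < 1` of the `(r+R)`-sets, then, up to a factor `1 - δ`
  for large `r`, `L R ≤ (1 + Φ^(1/(R+1)))^(R+1) / (1 - Φ) · C(r+R, R) a`;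
* hence supersaturation for the graphs `K_{r+R}^r` is uniform in `r`: if the density exceeds
  `π(K_{r+R}^r)` by `δ / C(r+R, R)` (the natural scale), then at least a fraction `ε(R, δ)` of the
  `(r+R)`-sets are complete, where `ε` does not depend on `r`;
* with `N` a Poisson variable of mean `y` and `P = P(N < R)`, `L R` is the infimum over `y > 0`, and
  the limit for `y → ∞`, of `(1 + P^(1/(R+1)))^(R+1) / (1 - P) · E C(N, R) t(N, N - R)`;
* `L (R₁ + R₂)` is at most a constant times `L R₁ · L R₂`, `L 1 ≤ 1.919`, `L 2 ≤ 5.9`, an explicit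
  bound for all `R`, and `L R ≤ (1 + o(1)) R log R` for `R → ∞`.

Outline. The determinant codes of the starting library (`Pool.Agent.H369R2.TD`, the case `R = 1`)
are extended to `(d+R)`-sets of random vectors of `F_q^(d+R-1)`: such a set carries a linear
dependency, its set of zeros has about a Poisson number `N` of elements, and if `N ≥ R` then an
arbitrary system, or random family, for `(N - R)`-sets inside sets of `N` elements can be used on the
set of zeros. Two parts (the lowest and the highest points) and alternating rounds remove the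
failures. As `t R (r+1) ≤ t R r`, one value `t R r` bounds `t(N, N-R)` for all `N ≥ r + R`; take the
mean `y` slightly above `r + R`.
-/

set_option autoImplicit false

open Filter Topology

namespace Pool.Agent.J4.H85.GD.All

open Pool.Agent.H120R2.Clique

/-- `t(r+R, r) = 1 - π(K_{r+R}^r)` -/
noncomputable def t (R r : ℕ) : ℝ := 1 - turanDensity r (r + R)

/-- the probability that a Poisson variable of mean `y` is less than `R` -/
noncomputable def lowTail (R : ℕ) (y : ℝ) : ℝ :=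
  Real.exp (-y) * ∑ j ∈ Finset.range R, y ^ j / (j.factorial : ℝ)

/-- `(1 + x^(1/(R+1)))^(R+1) / (1 - x)` -/
noncomputable def factor (R : ℕ) (x : ℝ) : ℝ :=
  (1 + x ^ ((1 : ℝ) / ((R : ℝ) + 1))) ^ (R + 1) / (1 - x)

/-- `E C(N, R) t(N, N-R)` for a Poisson variable `N` of mean `y` -/
noncomputable def poissonMean (R : ℕ) (y : ℝ) : ℝ :=
  y ^ R / (R.factorial : ℝ) * (Real.exp (-y) * ∑' r : ℕ, t R r * (y ^ r / (r.factorial : ℝ)))

/-- the probability that a Poisson variable of mean `R` is equal to `R` -/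
noncomputable def mode (R : ℕ) : ℝ := (R : ℝ) ^ R * Real.exp (-R) / (R.factorial : ℝ)

theorem all_codimensions :
    (∀ r m : ℕ, Tendsto (fun n : ℕ => (ex n r m : ℝ) / (n.choose r : ℝ)) atTop
      (𝓝 (turanDensity r m))) ∧
    ∃ L : ℕ → ℝ,
      (∀ R : ℕ, 1 ≤ R →
        -- the limit
        Tendsto (fun r : ℕ => ((r + R).choose R : ℝ) * t R r) atTop (𝓝 (L R)) ∧
        1 ≤ L R ∧
        -- every single value bounds the limit
        (∃ C : ℝ, ∀ r : ℕ, 3 ≤ r →
          L R ≤ (1 + C * √(Real.log ((r : ℝ) + R) / ((r : ℝ) + R))) *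
            (((r + R).choose R : ℝ) * t R r)) ∧
        -- so does every family with a member in almost all `(r+R)`-sets
        (∀ Φ δ : ℝ, 0 ≤ Φ → Φ < 1 → 0 < δ → ∃ r₀ : ℕ, ∀ r : ℕ, r₀ ≤ r → ∀ a : ℝ,
          (∀ n₀ : ℕ, ∃ n : ℕ, n₀ ≤ n ∧ ∃ T : Finset (Finset (Fin n)), (∀ Z ∈ T, Z.card = r) ∧
            (T.card : ℝ) ≤ a * (n.choose r : ℝ) ∧
            (((Finset.univ.powersetCard (r + R)).filter fun Y => ∀ Z ∈ T, ¬ Z ⊆ Y).card : ℝ) ≤
              Φ * (n.choose (r + R) : ℝ)) →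
          (1 - δ) * L R ≤ factor R Φ * (((r + R).choose R : ℝ) * a)) ∧
        -- supersaturation, uniformly in `r`
        (∀ δ : ℝ, 0 < δ → ∃ ε : ℝ, 0 < ε ∧ ∀ r : ℕ, ∃ n₀ : ℕ, ∀ n : ℕ, n₀ ≤ n →
          ∀ H : Finset (Finset (Fin n)), (∀ e ∈ H, e.card = r) →
            (turanDensity r (r + R) + δ / ((r + R).choose R : ℝ)) * (n.choose r : ℝ) ≤
              (H.card : ℝ) →
            ε * (n.choose (r + R) : ℝ) ≤
              (((Finset.univ.powersetCard (r + R)).filter
                fun Y => Y.powersetCard r ⊆ H).card : ℝ)) ∧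
        -- the Poisson averages
        (∀ y : ℝ, 0 < y → (Summable fun r : ℕ => t R r * (y ^ r / (r.factorial : ℝ))) ∧
          L R ≤ factor R (lowTail R y) * poissonMean R y) ∧
        Tendsto (fun y : ℝ => factor R (lowTail R y) * poissonMean R y) atTop (𝓝 (L R)) ∧
        -- all orders
        (∀ ε : ℝ, 0 < ε → ∃ r₀ : ℕ, ∀ r : ℕ, r₀ ≤ r → ∀ m : ℕ, r + R ≤ m →
          1 - turanDensity r m ≤ (L R + ε) /
            (((r + R).choose R : ℝ) * (((m - 1) / (r + R - 1) : ℕ) : ℝ) ^ (r - 1)))) ∧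
      -- products
      (∀ R₁ R₂ : ℕ, 1 ≤ R₁ → 1 ≤ R₂ →
        L (R₁ + R₂) ≤ (R₁.factorial : ℝ) * R₂.factorial * ((R₁ : ℝ) + R₂) ^ (R₁ + R₂) /
          ((R₁ + R₂).factorial * ((R₁ : ℝ) ^ R₁ * (R₂ : ℝ) ^ R₂)) * (L R₁ * L R₂)) ∧
      -- explicit constants
      L 1 ≤ 1.919 ∧ L 2 ≤ 5.9 ∧
      (∀ R n : ℕ, 1 ≤ R → L R ≤ ((1 + n * mode R) ^ ((1 : ℝ) / ((R : ℝ) + 1)) +
        ((1 - mode R) ^ (n + 1)) ^ ((1 : ℝ) / ((R : ℝ) + 1))) ^ (R + 1)) ∧
      (∀ ε : ℝ, 0 < ε → ∃ R₀ : ℕ, ∀ R : ℕ, R₀ ≤ R → L R ≤ (1 + ε) * (R * Real.log R)) := by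
  refine ⟨fun r m => ratio_tendsto r m, Pool.Agent.J4.H85.GD.LL, ?_,
    fun R₁ R₂ h1 h2 => Pool.Agent.J4.H85.GD.LL_prod_opt h1 h2, Pool.Agent.J4.H85.GD.LL_one,
    Pool.Agent.J4.H85.GD.LL_two, fun R n hR => Pool.Agent.J4.H85.GD.LL_le_pow hR n,
    Pool.Agent.J4.H85.GD.LL_asymp⟩
  intro R hR
  have hG : ∀ y : ℝ, poissonMean R y = Pool.Agent.J4.H85.GD.G R y := fun y =>
    (Pool.Agent.J4.H85.GD.G_eq hR y).symm
  refine ⟨Pool.Agent.J4.H85.GD.CC_tendsto hR, Pool.Agent.J4.H85.GD.LL_ge hR, ?_,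
    fun Φ δ h0 h1 hδ => Pool.Agent.J4.H85.GD.almost hR h0 h1 hδ,
    fun δ hδ => Pool.Agent.J4.H85.GD.supersat hR hδ, fun y hy => ⟨?_, ?_⟩, ?_,
    fun ε hε => Pool.Agent.J4.H85.GD.all_orders hR hε⟩
  · obtain ⟨C, _, h⟩ := Pool.Agent.J4.H85.GD.LL_le_CC hR
    refine ⟨C, fun r hr => ?_⟩
    have h1 := h r hr
    unfold Pool.Agent.J4.H85.GD.sk at h1
    push_cast at h1
    exact h1
  · exact Pool.Agent.J4.H85.GD.summ y (f := t R) (M := 1) fun j => by
      show |Pool.Agent.J4.H85.GD.tt R j| ≤ 1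
      rw [abs_of_nonneg (Pool.Agent.J4.H85.GD.tt_nonneg R j)]
      exact Pool.Agent.J4.H85.GD.tt_le_one R j
  · rw [hG]
    exact Pool.Agent.J4.H85.GD.LL_le_G hR hy
  · refine (Pool.Agent.J4.H85.GD.FG_tendsto hR).congr fun y => ?_
    rw [hG]
    rfl

end Pool.Agent.J4.H85.GD.All
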