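import Pool.Agent.J4.H85.GD.Defs
import Pool.Agent.H369R2.TD.Two

/-!
# Two parts and many rounds, for `(k + R, k)`-systems

A set of `d₁ + d₂ + 2 R` points is cut into its lowest `d₁ + R` and its highest `d₂ + R` points
(the argument of `Pool.Agent.H369R2.TD.Two`, where `R = 1`).
-/

set_option autoImplicit false

open Finset

namespace Pool.Agent.J4.H85.GD

namespace Two

open Pool.Agent.H369R2.TD.Two (Pr mem_Pr card_union_of_mem_Pr Pr_card_le exists_pair sum_card_le Live)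

open Classical in
/-- pairs of sizes `(d₁, d₂+R)` with live high part -/
noncomputable def P1 (R n d₁ d₂ : ℕ) (U : Finset (Finset (Fin n))) :
    Finset (Finset (Fin n) × Finset (Fin n)) := (Pr n d₁ (d₂ + R)).filter fun p => p.2 ∈ U

open Classical in
/-- pairs of sizes `(d₁+R, d₂)` with live low part -/
noncomputable def P2 (R n d₁ d₂ : ℕ) (U : Finset (Finset (Fin n))) :
    Finset (Finset (Fin n) × Finset (Fin n)) := (Pr n (d₁ + R) d₂).filter fun p => p.1 ∈ U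

open Classical in
/-- pairs of sizes `(d₁+R, d₂+R)` with both parts live -/
noncomputable def P12 (R n d₁ d₂ : ℕ) (U₁ U₂ : Finset (Finset (Fin n))) :
    Finset (Finset (Fin n) × Finset (Fin n)) :=
  (Pr n (d₁ + R) (d₂ + R)).filter fun p => p.1 ∈ U₁ ∧ p.2 ∈ U₂

/-- the potential -/
noncomputable def W (R n d₁ d₂ : ℕ) (x y z : ℝ) (U₁ U₂ : Finset (Finset (Fin n))) : ℝ :=
  x * ((P1 R n d₁ d₂ U₂).card : ℝ) + y * ((P2 R n d₁ d₂ U₁).card : ℝ)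
    + z * ((P12 R n d₁ d₂ U₁ U₂).card : ℝ)

open Classical in
noncomputable def C1 (R n d₁ d₂ : ℕ) (U A : Finset (Finset (Fin n))) :
    Finset (Finset (Fin n) × Finset (Fin n)) := (P1 R n d₁ d₂ U).filter fun p => p.1 ∈ A

open Classical in
noncomputable def C2 (R n d₁ d₂ : ℕ) (U A : Finset (Finset (Fin n))) :
    Finset (Finset (Fin n) × Finset (Fin n)) := (P2 R n d₁ d₂ U).filter fun p => p.2 ∈ A

open Classical in
/-- the cost of a round plus the potential afterwards is at most the potential before minus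
`z (1 - Φ₁ Φ₂) |P12|`, for a suitable outcome -/
theorem exists_round {R n d₁ d₂ : ℕ} {a₁ a₂ Φ₁ Φ₂ : ℝ} {Ω₁ Ω₂ : Type} [Fintype Ω₁] [Nonempty Ω₁]
    [Fintype Ω₂] [Nonempty Ω₂] {A₁ : Ω₁ → Finset (Finset (Fin n))}
    {A₂ : Ω₂ → Finset (Finset (Fin n))}
    (h1a : ∀ Z : Finset (Fin n), Z.card = d₁ →
      (((univ : Finset Ω₁).filter fun ω => Z ∈ A₁ ω).card : ℝ) ≤ a₁ * (Fintype.card Ω₁ : ℝ))
    (h1b : ∀ Y : Finset (Fin n), Y.card = d₁ + R →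
      (((univ : Finset Ω₁).filter fun ω => ¬ ∃ Z ∈ A₁ ω, Z ⊆ Y).card : ℝ)
        ≤ Φ₁ * (Fintype.card Ω₁ : ℝ))
    (h2a : ∀ Z : Finset (Fin n), Z.card = d₂ →
      (((univ : Finset Ω₂).filter fun ω => Z ∈ A₂ ω).card : ℝ) ≤ a₂ * (Fintype.card Ω₂ : ℝ))
    (h2b : ∀ Y : Finset (Fin n), Y.card = d₂ + R →
      (((univ : Finset Ω₂).filter fun ω => ¬ ∃ Z ∈ A₂ ω, Z ⊆ Y).card : ℝ)
        ≤ Φ₂ * (Fintype.card Ω₂ : ℝ))
    (ha2 : 0 ≤ a₂) (hp1 : 0 < Φ₁) (hp1' : Φ₁ < 1) (hp2 : 0 < Φ₂) (hp2' : Φ₂ < 1)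
    (ha1 : 0 ≤ a₁) {z : ℝ} (hz : 0 < z) (U₁ U₂ : Finset (Finset (Fin n))) :
    ∃ ω₁ : Ω₁, ∃ ω₂ : Ω₂,
      ((C1 R n d₁ d₂ U₂ (A₁ ω₁)).card : ℝ) + ((C2 R n d₁ d₂ (Live U₁ (A₁ ω₁)) (A₂ ω₂)).card : ℝ)
        + W R n d₁ d₂ (a₁ / (1 - Φ₂)) (a₂ * Φ₁ / (1 - Φ₁)) z (Live U₁ (A₁ ω₁)) (Live U₂ (A₂ ω₂))
      ≤ W R n d₁ d₂ (a₁ / (1 - Φ₂)) (a₂ * Φ₁ / (1 - Φ₁)) z U₁ U₂
        - z * (1 - Φ₁ * Φ₂) * ((P12 R n d₁ d₂ U₁ U₂).card : ℝ) := by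
  classical
  set x := a₁ / (1 - Φ₂) with hx
  set y := a₂ * Φ₁ / (1 - Φ₁) with hy
  have hx0 : 0 ≤ x := div_nonneg ha1 (by linarith)
  have hy0 : 0 ≤ y := div_nonneg (mul_nonneg ha2 hp1.le) (by linarith)
  have hxe : a₁ + x * Φ₂ = x := by
    have h0 : (1 - Φ₂) ≠ 0 := by linarith
    rw [hx]; field_simp; ring
  have hye : (a₂ + y) * Φ₁ = y := by
    have h0 : (1 - Φ₁) ≠ 0 := by linarith
    rw [hy]; field_simp; ring
  have hN1 : (0 : ℝ) < (Fintype.card Ω₁ : ℝ) := by exact_mod_cast Fintype.card_pos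
  have hN2 : (0 : ℝ) < (Fintype.card Ω₂ : ℝ) := by exact_mod_cast Fintype.card_pos
  -- the averages over `ω₁`
  have e1 : ∑ ω : Ω₁, ((C1 R n d₁ d₂ U₂ (A₁ ω)).card : ℝ)
      ≤ a₁ * (Fintype.card Ω₁ : ℝ) * ((P1 R n d₁ d₂ U₂).card : ℝ) := by
    refine sum_card_le (P1 R n d₁ d₂ U₂) _ _
      (fun p hp => h1a p.1 (mem_Pr.1 (mem_filter.1 hp).1).1) ?_
    intro ω p
    simp only [C1, mem_filter, mem_univ, true_and]
  have e2 : ∑ ω : Ω₁, ((P2 R n d₁ d₂ (Live U₁ (A₁ ω))).card : ℝ)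
      ≤ Φ₁ * (Fintype.card Ω₁ : ℝ) * ((P2 R n d₁ d₂ U₁).card : ℝ) := by
    refine sum_card_le (P2 R n d₁ d₂ U₁) _ _
      (fun p hp => h1b p.1 (mem_Pr.1 (mem_filter.1 hp).1).1) ?_
    intro ω p
    simp only [P2, Live, mem_filter, mem_univ, true_and, and_assoc]
  have e3 : ∑ ω : Ω₁, ((P12 R n d₁ d₂ (Live U₁ (A₁ ω)) U₂).card : ℝ)
      ≤ Φ₁ * (Fintype.card Ω₁ : ℝ) * ((P12 R n d₁ d₂ U₁ U₂).card : ℝ) := by
    refine sum_card_le (P12 R n d₁ d₂ U₁ U₂) _ _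
      (fun p hp => h1b p.1 (mem_Pr.1 (mem_filter.1 hp).1).1) ?_
    intro ω p
    simp only [P12, Live, mem_filter, mem_univ, true_and]
    tauto
  -- the averages over `ω₂`
  have f1 : ∀ V : Finset (Finset (Fin n)), ∑ ω : Ω₂, ((C2 R n d₁ d₂ V (A₂ ω)).card : ℝ)
      ≤ a₂ * (Fintype.card Ω₂ : ℝ) * ((P2 R n d₁ d₂ V).card : ℝ) := by
    intro V
    refine sum_card_le (P2 R n d₁ d₂ V) _ _
      (fun p hp => h2a p.2 (mem_Pr.1 (mem_filter.1 hp).1).2.1) ?_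
    intro ω p
    simp only [C2, mem_filter, mem_univ, true_and]
  have f2 : ∑ ω : Ω₂, ((P1 R n d₁ d₂ (Live U₂ (A₂ ω))).card : ℝ)
      ≤ Φ₂ * (Fintype.card Ω₂ : ℝ) * ((P1 R n d₁ d₂ U₂).card : ℝ) := by
    refine sum_card_le (P1 R n d₁ d₂ U₂) _ _
      (fun p hp => h2b p.2 (mem_Pr.1 (mem_filter.1 hp).1).2.1) ?_
    intro ω p
    simp only [P1, Live, mem_filter, mem_univ, true_and, and_assoc]
  have f3 : ∀ V : Finset (Finset (Fin n)),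
      ∑ ω : Ω₂, ((P12 R n d₁ d₂ V (Live U₂ (A₂ ω))).card : ℝ)
      ≤ Φ₂ * (Fintype.card Ω₂ : ℝ) * ((P12 R n d₁ d₂ V U₂).card : ℝ) := by
    intro V
    refine sum_card_le (P12 R n d₁ d₂ V U₂) _ _
      (fun p hp => h2b p.2 (mem_Pr.1 (mem_filter.1 hp).1).2.1) ?_
    intro ω p
    simp only [P12, Live, mem_filter, mem_univ, true_and]
    tauto
  -- choose `ω₂` for a given `ω₁`
  have hω2 : ∀ ω₁ : Ω₁, ∃ ω₂ : Ω₂,
      ((C2 R n d₁ d₂ (Live U₁ (A₁ ω₁)) (A₂ ω₂)).card : ℝ)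
        + x * ((P1 R n d₁ d₂ (Live U₂ (A₂ ω₂))).card : ℝ)
        + z * ((P12 R n d₁ d₂ (Live U₁ (A₁ ω₁)) (Live U₂ (A₂ ω₂))).card : ℝ)
      ≤ a₂ * ((P2 R n d₁ d₂ (Live U₁ (A₁ ω₁))).card : ℝ) + x * Φ₂ * ((P1 R n d₁ d₂ U₂).card : ℝ)
        + z * Φ₂ * ((P12 R n d₁ d₂ (Live U₁ (A₁ ω₁)) U₂).card : ℝ) := by
    intro ω₁
    by_contra hcon
    push Not at hcon
    have hs := Finset.sum_lt_sum_of_nonempty (s := (univ : Finset Ω₂)) univ_nonempty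
      (fun ω _ => hcon ω)
    rw [Finset.sum_const, nsmul_eq_mul, card_univ, Finset.sum_add_distrib,
      Finset.sum_add_distrib, ← Finset.mul_sum, ← Finset.mul_sum] at hs
    have g1 := f1 (Live U₁ (A₁ ω₁))
    have g2 := mul_le_mul_of_nonneg_left f2 hx0
    have g3 := mul_le_mul_of_nonneg_left (f3 (Live U₁ (A₁ ω₁))) hz.le
    have : (Fintype.card Ω₂ : ℝ) * (a₂ * ((P2 R n d₁ d₂ (Live U₁ (A₁ ω₁))).card : ℝ)
        + x * Φ₂ * ((P1 R n d₁ d₂ U₂).card : ℝ)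
        + z * Φ₂ * ((P12 R n d₁ d₂ (Live U₁ (A₁ ω₁)) U₂).card : ℝ))
      = a₂ * (Fintype.card Ω₂ : ℝ) * ((P2 R n d₁ d₂ (Live U₁ (A₁ ω₁))).card : ℝ)
        + x * (Φ₂ * (Fintype.card Ω₂ : ℝ) * ((P1 R n d₁ d₂ U₂).card : ℝ))
        + z * (Φ₂ * (Fintype.card Ω₂ : ℝ)
          * ((P12 R n d₁ d₂ (Live U₁ (A₁ ω₁)) U₂).card : ℝ)) := by ring
    linarith
  -- choose `ω₁`
  have hω1 : ∃ ω₁ : Ω₁,
      ((C1 R n d₁ d₂ U₂ (A₁ ω₁)).card : ℝ)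
        + (a₂ + y) * ((P2 R n d₁ d₂ (Live U₁ (A₁ ω₁))).card : ℝ)
        + z * Φ₂ * ((P12 R n d₁ d₂ (Live U₁ (A₁ ω₁)) U₂).card : ℝ)
      ≤ a₁ * ((P1 R n d₁ d₂ U₂).card : ℝ) + y * ((P2 R n d₁ d₂ U₁).card : ℝ)
        + z * Φ₂ * Φ₁ * ((P12 R n d₁ d₂ U₁ U₂).card : ℝ) := by
    by_contra hcon
    push Not at hcon
    have hs := Finset.sum_lt_sum_of_nonempty (s := (univ : Finset Ω₁)) univ_nonempty
      (fun ω _ => hcon ω)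
    rw [Finset.sum_const, nsmul_eq_mul, card_univ, Finset.sum_add_distrib,
      Finset.sum_add_distrib, ← Finset.mul_sum, ← Finset.mul_sum] at hs
    have g2 := mul_le_mul_of_nonneg_left e2 (add_nonneg ha2 hy0)
    have g3 := mul_le_mul_of_nonneg_left e3 (mul_nonneg hz.le hp2.le)
    have h2 : (a₂ + y) * (Φ₁ * (Fintype.card Ω₁ : ℝ) * ((P2 R n d₁ d₂ U₁).card : ℝ))
        = y * (Fintype.card Ω₁ : ℝ) * ((P2 R n d₁ d₂ U₁).card : ℝ) := by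
      calc (a₂ + y) * (Φ₁ * (Fintype.card Ω₁ : ℝ) * ((P2 R n d₁ d₂ U₁).card : ℝ))
          = ((a₂ + y) * Φ₁) * (Fintype.card Ω₁ : ℝ) * ((P2 R n d₁ d₂ U₁).card : ℝ) := by ring
        _ = _ := by rw [hye]
    have : (Fintype.card Ω₁ : ℝ) * (a₁ * ((P1 R n d₁ d₂ U₂).card : ℝ)
        + y * ((P2 R n d₁ d₂ U₁).card : ℝ) + z * Φ₂ * Φ₁ * ((P12 R n d₁ d₂ U₁ U₂).card : ℝ))
      = a₁ * (Fintype.card Ω₁ : ℝ) * ((P1 R n d₁ d₂ U₂).card : ℝ)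
        + y * (Fintype.card Ω₁ : ℝ) * ((P2 R n d₁ d₂ U₁).card : ℝ)
        + z * Φ₂ * (Φ₁ * (Fintype.card Ω₁ : ℝ) * ((P12 R n d₁ d₂ U₁ U₂).card : ℝ)) := by ring
    linarith
  obtain ⟨ω₁, hω1⟩ := hω1
  obtain ⟨ω₂, hω2⟩ := hω2 ω₁
  refine ⟨ω₁, ω₂, ?_⟩
  simp only [W]
  have hq : a₁ * ((P1 R n d₁ d₂ U₂).card : ℝ) + x * Φ₂ * ((P1 R n d₁ d₂ U₂).card : ℝ)
      = x * ((P1 R n d₁ d₂ U₂).card : ℝ) := by
    rw [← add_mul, hxe]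
  nlinarith [hω1, hω2, hq]

/-- the potential argument -/
theorem potential {R n d₁ d₂ : ℕ} {a₁ a₂ Φ₁ Φ₂ : ℝ} (h1 : Rnd R n d₁ a₁ Φ₁)
    (h2 : Rnd R n d₂ a₂ Φ₂) (ha1 : 0 ≤ a₁) (ha2 : 0 ≤ a₂) (hp1 : 0 < Φ₁) (hp1' : Φ₁ < 1)
    (hp2 : 0 < Φ₂) (hp2' : Φ₂ < 1) {z : ℝ} (hz : 0 < z) :
    ∀ N : ℕ, ∀ U₁ U₂ : Finset (Finset (Fin n)),
      W R n d₁ d₂ (a₁ / (1 - Φ₂)) (a₂ * Φ₁ / (1 - Φ₁)) z U₁ U₂ ≤ (N : ℝ) * (z * (1 - Φ₁ * Φ₂)) →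
      ∃ T : Finset (Finset (Fin n)), (∀ Z ∈ T, Z.card = d₁ + d₂ + R) ∧
        (∀ p ∈ P12 R n d₁ d₂ U₁ U₂, ∃ Z ∈ T, Z ⊆ p.1 ∪ p.2) ∧
        (T.card : ℝ) ≤ W R n d₁ d₂ (a₁ / (1 - Φ₂)) (a₂ * Φ₁ / (1 - Φ₁)) z U₁ U₂ := by
  classical
  have hx0 : 0 ≤ a₁ / (1 - Φ₂) := div_nonneg ha1 (by linarith)
  have hy0 : 0 ≤ a₂ * Φ₁ / (1 - Φ₁) := div_nonneg (mul_nonneg ha2 hp1.le) (by linarith)
  have hpp : 0 < 1 - Φ₁ * Φ₂ := by nlinarith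
  have hW0 : ∀ U₁ U₂ : Finset (Finset (Fin n)),
      0 ≤ W R n d₁ d₂ (a₁ / (1 - Φ₂)) (a₂ * Φ₁ / (1 - Φ₁)) z U₁ U₂ := by
    intro U₁ U₂
    unfold W
    positivity
  obtain ⟨Ω₁, _, _, A₁, c1, h1a, h1b⟩ := h1
  obtain ⟨Ω₂, _, _, A₂, c2, h2a, h2b⟩ := h2
  intro N
  induction N with
  | zero =>
    intro U₁ U₂ hN
    refine ⟨∅, by simp, ?_, by simpa using hW0 U₁ U₂⟩
    intro p hp
    exfalso
    have hc : (1 : ℝ) ≤ ((P12 R n d₁ d₂ U₁ U₂).card : ℝ) := by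
      exact_mod_cast Finset.card_pos.2 ⟨p, hp⟩
    have : z * 1 ≤ W R n d₁ d₂ (a₁ / (1 - Φ₂)) (a₂ * Φ₁ / (1 - Φ₁)) z U₁ U₂ := by
      unfold W
      have := mul_le_mul_of_nonneg_left hc hz.le
      have t1 : 0 ≤ a₁ / (1 - Φ₂) * ((P1 R n d₁ d₂ U₂).card : ℝ) := by positivity
      have t2 : 0 ≤ a₂ * Φ₁ / (1 - Φ₁) * ((P2 R n d₁ d₂ U₁).card : ℝ) := by positivity
      linarith
    simp only [Nat.cast_zero, zero_mul] at hN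
    linarith
  | succ N ih =>
    intro U₁ U₂ hN
    by_cases hP : (P12 R n d₁ d₂ U₁ U₂).card = 0
    · refine ⟨∅, by simp, ?_, by simpa using hW0 U₁ U₂⟩
      intro p hp
      exfalso
      rw [Finset.card_eq_zero] at hP
      rw [hP] at hp
      simp at hp
    · have hc : (1 : ℝ) ≤ ((P12 R n d₁ d₂ U₁ U₂).card : ℝ) := by
        exact_mod_cast Nat.one_le_iff_ne_zero.2 hP
      obtain ⟨ω₁, ω₂, hr⟩ := exists_round h1a h1b h2a h2b ha2 hp1 hp1' hp2 hp2' ha1 hz U₁ U₂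
      have hzc : z * (1 - Φ₁ * Φ₂) ≤ z * (1 - Φ₁ * Φ₂) * ((P12 R n d₁ d₂ U₁ U₂).card : ℝ) := by
        have : 0 ≤ z * (1 - Φ₁ * Φ₂) := by positivity
        nlinarith
      have n1 : (0 : ℝ) ≤ ((C1 R n d₁ d₂ U₂ (A₁ ω₁)).card : ℝ) := by positivity
      have n2 : (0 : ℝ) ≤ ((C2 R n d₁ d₂ (Live U₁ (A₁ ω₁)) (A₂ ω₂)).card : ℝ) := by positivity
      obtain ⟨T, hT1, hT2, hT3⟩ := ih (Live U₁ (A₁ ω₁)) (Live U₂ (A₂ ω₂)) (by
        push_cast at hN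
        linarith)
      refine ⟨T ∪ ((C1 R n d₁ d₂ U₂ (A₁ ω₁)).image fun p => p.1 ∪ p.2)
        ∪ ((C2 R n d₁ d₂ (Live U₁ (A₁ ω₁)) (A₂ ω₂)).image fun p => p.1 ∪ p.2), ?_, ?_, ?_⟩
      · intro Z hZ
        rw [mem_union, mem_union] at hZ
        rcases hZ with (hZ | hZ) | hZ
        · exact hT1 Z hZ
        · obtain ⟨p, hp, rfl⟩ := mem_image.1 hZ
          have := card_union_of_mem_Pr (mem_filter.1 (mem_filter.1 hp).1).1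
          rw [this]; ring
        · obtain ⟨p, hp, rfl⟩ := mem_image.1 hZ
          have := card_union_of_mem_Pr (mem_filter.1 (mem_filter.1 hp).1).1
          rw [this]; ring
      · intro p hp
        have hp0 := mem_filter.1 hp
        have hpr := mem_Pr.1 hp0.1
        by_cases q1 : ∃ Z ∈ A₁ ω₁, Z ⊆ p.1
        · obtain ⟨Z, hZ, hZp⟩ := q1
          refine ⟨Z ∪ p.2, ?_, Finset.union_subset_union_left hZp⟩
          rw [mem_union, mem_union]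
          refine Or.inl (Or.inr (mem_image.2 ⟨(Z, p.2), ?_, rfl⟩))
          refine mem_filter.2 ⟨mem_filter.2 ⟨mem_Pr.2 ⟨c1 ω₁ Z hZ, hpr.2.1, ?_⟩, hp0.2.2⟩, hZ⟩
          intro x hx y hy
          exact hpr.2.2 x (hZp hx) y hy
        · by_cases q2 : ∃ Z ∈ A₂ ω₂, Z ⊆ p.2
          · obtain ⟨Z, hZ, hZp⟩ := q2
            refine ⟨p.1 ∪ Z, ?_, Finset.union_subset_union_right hZp⟩
            rw [mem_union, mem_union]
            refine Or.inr (mem_image.2 ⟨(p.1, Z), ?_, rfl⟩)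
            refine mem_filter.2 ⟨mem_filter.2 ⟨mem_Pr.2 ⟨hpr.1, c2 ω₂ Z hZ, ?_⟩, ?_⟩, hZ⟩
            · intro x hx y hy
              exact hpr.2.2 x hx y (hZp hy)
            · exact mem_filter.2 ⟨hp0.2.1, q1⟩
          · obtain ⟨Z, hZ, hZp⟩ := hT2 p (mem_filter.2 ⟨hp0.1, mem_filter.2 ⟨hp0.2.1, q1⟩,
              mem_filter.2 ⟨hp0.2.2, q2⟩⟩)
            exact ⟨Z, by rw [mem_union, mem_union]; exact Or.inl (Or.inl hZ), hZp⟩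
      · have k1 : (T ∪ ((C1 R n d₁ d₂ U₂ (A₁ ω₁)).image fun p => p.1 ∪ p.2)
            ∪ ((C2 R n d₁ d₂ (Live U₁ (A₁ ω₁)) (A₂ ω₂)).image fun p => p.1 ∪ p.2)).card
            ≤ T.card + (C1 R n d₁ d₂ U₂ (A₁ ω₁)).card
              + (C2 R n d₁ d₂ (Live U₁ (A₁ ω₁)) (A₂ ω₂)).card := by
          refine le_trans (card_union_le _ _) ?_
          refine Nat.add_le_add ?_ card_image_le
          refine le_trans (card_union_le _ _) ?_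
          exact Nat.add_le_add le_rfl card_image_le
        have k2 : ((T ∪ ((C1 R n d₁ d₂ U₂ (A₁ ω₁)).image fun p => p.1 ∪ p.2)
            ∪ ((C2 R n d₁ d₂ (Live U₁ (A₁ ω₁)) (A₂ ω₂)).image fun p => p.1 ∪ p.2)).card : ℝ)
            ≤ (T.card : ℝ) + ((C1 R n d₁ d₂ U₂ (A₁ ω₁)).card : ℝ)
              + ((C2 R n d₁ d₂ (Live U₁ (A₁ ω₁)) (A₂ ω₂)).card : ℝ) := by exact_mod_cast k1
        have k3 : 0 ≤ z * (1 - Φ₁ * Φ₂) * ((P12 R n d₁ d₂ U₁ U₂).card : ℝ) := by positivity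
        linarith

end Two

/-- two random families that sometimes fail give a system -/
theorem two_part {R d₁ d₂ : ℕ} {a₁ a₂ Φ₁ Φ₂ : ℝ} (h1 : ∀ n, Rnd R n d₁ a₁ Φ₁)
    (h2 : ∀ n, Rnd R n d₂ a₂ Φ₂) (ha1 : 0 ≤ a₁) (ha2 : 0 ≤ a₂) (hp1 : 0 < Φ₁) (hp1' : Φ₁ < 1)
    (hp2 : 0 < Φ₂) (hp2' : Φ₂ < 1) {ε : ℝ} (hε : 0 < ε) :
    Tur R (d₁ + d₂ + R) (a₁ / (1 - Φ₂) + a₂ * Φ₁ / (1 - Φ₁) + ε) := by
  classical
  intro n
  have hx0 : 0 ≤ a₁ / (1 - Φ₂) := div_nonneg ha1 (by linarith)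
  have hy0 : 0 ≤ a₂ * Φ₁ / (1 - Φ₁) := div_nonneg (mul_nonneg ha2 hp1.le) (by linarith)
  have hpp : 0 < 1 - Φ₁ * Φ₂ := by nlinarith
  by_cases hn : n < d₁ + d₂ + 2 * R
  · -- no set to be covered
    refine ⟨∅, by simp, ?_, ?_⟩
    · intro Y hY
      exfalso
      have := Finset.card_le_univ Y
      rw [Fintype.card_fin, hY] at this
      omega
    · simp only [card_empty, Nat.cast_zero]
      positivity
  · push Not at hn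
    have hc0 : 0 < n.choose (d₁ + d₂ + R) := Nat.choose_pos (by omega)
    have hc0' : (0 : ℝ) < (n.choose (d₁ + d₂ + R) : ℝ) := by exact_mod_cast hc0
    have hc1 : 0 < n.choose (d₁ + d₂ + 2 * R) := Nat.choose_pos (by omega)
    have hc1' : (0 : ℝ) < (n.choose (d₁ + d₂ + 2 * R) : ℝ) := by exact_mod_cast hc1
    set z : ℝ := ε * (n.choose (d₁ + d₂ + R) : ℝ) / (n.choose (d₁ + d₂ + 2 * R) : ℝ) with hz
    have hz0 : 0 < z := by positivity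
    obtain ⟨N, hN⟩ := exists_nat_ge (Two.W R n d₁ d₂ (a₁ / (1 - Φ₂)) (a₂ * Φ₁ / (1 - Φ₁)) z
      univ univ / (z * (1 - Φ₁ * Φ₂)))
    have hN' : Two.W R n d₁ d₂ (a₁ / (1 - Φ₂)) (a₂ * Φ₁ / (1 - Φ₁)) z univ univ
        ≤ (N : ℝ) * (z * (1 - Φ₁ * Φ₂)) := by
      rwa [div_le_iff₀ (by positivity)] at hN
    obtain ⟨T, hT1, hT2, hT3⟩ := Two.potential (h1 n) (h2 n) ha1 ha2 hp1 hp1' hp2 hp2' hz0 N
      univ univ hN'
    refine ⟨T, hT1, ?_, ?_⟩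
    · intro Y hY
      obtain ⟨p, hp, hpY⟩ := Pool.Agent.H369R2.TD.Two.exists_pair (a := d₁ + R) (b := d₂ + R) Y (by omega)
      obtain ⟨Z, hZ, hZp⟩ := hT2 p (mem_filter.2 ⟨hp, mem_univ _, mem_univ _⟩)
      exact ⟨Z, hZ, by rw [← hpY]; exact hZp⟩
    · refine le_trans hT3 ?_
      unfold Two.W
      have b1 : ((Two.P1 R n d₁ d₂ univ).card : ℝ) ≤ (n.choose (d₁ + d₂ + R) : ℝ) := by
        have : (Two.P1 R n d₁ d₂ univ).card ≤ _ :=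
          le_trans (Finset.card_filter_le _ _) (Pool.Agent.H369R2.TD.Two.Pr_card_le n d₁ (d₂ + R))
        rw [← Nat.add_assoc] at this
        exact_mod_cast this
      have b2 : ((Two.P2 R n d₁ d₂ univ).card : ℝ) ≤ (n.choose (d₁ + d₂ + R) : ℝ) := by
        have : (Two.P2 R n d₁ d₂ univ).card ≤ _ :=
          le_trans (Finset.card_filter_le _ _) (Pool.Agent.H369R2.TD.Two.Pr_card_le n (d₁ + R) d₂)
        rw [show d₁ + R + d₂ = d₁ + d₂ + R by ring] at this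
        exact_mod_cast this
      have b3 : ((Two.P12 R n d₁ d₂ univ univ).card : ℝ) ≤ (n.choose (d₁ + d₂ + 2 * R) : ℝ) := by
        have : (Two.P12 R n d₁ d₂ univ univ).card ≤ _ :=
          le_trans (Finset.card_filter_le _ _) (Pool.Agent.H369R2.TD.Two.Pr_card_le n (d₁ + R) (d₂ + R))
        rw [show d₁ + R + (d₂ + R) = d₁ + d₂ + 2 * R by ring] at this
        exact_mod_cast this
      have hz2 : z * (n.choose (d₁ + d₂ + 2 * R) : ℝ) = ε * (n.choose (d₁ + d₂ + R) : ℝ) := by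
        rw [hz]; field_simp
      have g1 := mul_le_mul_of_nonneg_left b1 hx0
      have g2 := mul_le_mul_of_nonneg_left b2 hy0
      have g3 := mul_le_mul_of_nonneg_left b3 hz0.le
      calc _ ≤ a₁ / (1 - Φ₂) * (n.choose (d₁ + d₂ + R) : ℝ)
            + a₂ * Φ₁ / (1 - Φ₁) * (n.choose (d₁ + d₂ + R) : ℝ)
            + z * (n.choose (d₁ + d₂ + 2 * R) : ℝ) := by linarith
        _ = _ := by rw [hz2]; ring

end Pool.Agent.J4.H85.GD
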