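import Pool.Agent.J4.H85.GD.Bin
import Pool.Agent.J4.H85.GD.Two

/-!
# The asymptotic inequality for `C(r+R, R) t(r+R, r)`
-/

set_option autoImplicit false

open Finset Filter Topology Asymptotics

namespace Pool.Agent.J4.H85.GD

theorem choose_ratio {ι : Type} {l : Filter ι} (R : ℕ) {a b : ι → ℕ} (ha : Tendsto a l atTop)
    (hb : Tendsto b l atTop) {μ : ℝ} (hμ : 0 < μ)
    (h : Tendsto (fun i => (b i : ℝ) / a i) l (𝓝 μ)) :
    Tendsto (fun i => ((a i).choose R : ℝ) / ((b i).choose R : ℝ)) l (𝓝 ((μ ^ R)⁻¹)) := by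
  have e := isEquivalent_choose R
  have e1 := (e.comp_tendsto ha).div (e.comp_tendsto hb)
  have e2 : Tendsto (fun i => ((b i : ℝ) / a i)⁻¹ ^ R) l (𝓝 (μ⁻¹ ^ R)) :=
    (h.inv₀ hμ.ne').pow R
  rw [inv_pow] at e2
  refine (IsEquivalent.tendsto_nhds_iff e1).2 (e2.congr' ?_)
  filter_upwards [ha.eventually_gt_atTop 0, hb.eventually_gt_atTop 0] with i h1 h2
  have h1' : (0 : ℝ) < a i := by exact_mod_cast h1
  have h2' : (0 : ℝ) < b i := by exact_mod_cast h2
  simp only [Function.comp, Pi.div_apply]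
  rw [inv_div, div_pow]
  have h3 : (0 : ℝ) < (R.factorial : ℝ) := by positivity
  field_simp

theorem asymptotic {R : ℕ} (hR : 1 ≤ R) {y₁ y₂ lam V : ℝ} (hy1 : 0 < y₁) (hy2 : 0 < y₂)
    (hl0 : 0 < lam) (hl1 : lam < 1)
    (hV : G R y₁ / (lam ^ R * (1 - PP R y₂)) +
      G R y₂ * PP R y₁ / ((1 - lam) ^ R * (1 - PP R y₁)) < V) :
    ∀ᶠ r : ℕ in atTop, CC R r ≤ V := by
  have hp1 := PP_lt_one R hy1
  have hp2 := PP_lt_one R hy2
  have hl1' : 0 < 1 - lam := by linarith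
  -- room for a small error
  obtain ⟨ε, hε, hεV, hε1, hε2⟩ : ∃ ε : ℝ, 0 < ε ∧
      (G R y₁ + ε) / (lam ^ R * (1 - (PP R y₂ + ε))) +
        (G R y₂ + ε) * (PP R y₁ + ε) / ((1 - lam) ^ R * (1 - (PP R y₁ + ε))) < V ∧
      PP R y₁ + ε < 1 ∧ PP R y₂ + ε < 1 := by
    have hcont : ContinuousAt (fun ε : ℝ => (G R y₁ + ε) / (lam ^ R * (1 - (PP R y₂ + ε))) +
        (G R y₂ + ε) * (PP R y₁ + ε) / ((1 - lam) ^ R * (1 - (PP R y₁ + ε)))) 0 := by
      refine ContinuousAt.add (ContinuousAt.div (by fun_prop) (by fun_prop) ?_)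
        (ContinuousAt.div (by fun_prop) (by fun_prop) ?_)
      · have : 0 < lam ^ R * (1 - (PP R y₂ + 0)) := by
          apply mul_pos (by positivity); linarith
        exact this.ne'
      · have : 0 < (1 - lam) ^ R * (1 - (PP R y₁ + 0)) := by
          apply mul_pos (by positivity); linarith
        exact this.ne'
    have h1 := hcont.tendsto
    simp only [add_zero] at h1
    have h2 := ((h1.mono_left (nhdsWithin_le_nhds (s := Set.Ioi 0))).eventually_lt_const hV)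
    have h3 : ∀ᶠ ε : ℝ in 𝓝[>] 0, ε < 1 - PP R y₁ :=
      (nhdsWithin_le_nhds (s := Set.Ioi 0)) (Iio_mem_nhds (by linarith))
    have h4 : ∀ᶠ ε : ℝ in 𝓝[>] 0, ε < 1 - PP R y₂ :=
      (nhdsWithin_le_nhds (s := Set.Ioi 0)) (Iio_mem_nhds (by linarith))
    obtain ⟨ε, e1, e2, e3, e4⟩ := (h2.and (h3.and (h4.and self_mem_nhdsWithin))).exists
    exact ⟨ε, e4, e1, by linarith, by linarith⟩
  have f1 := one_part hR hy1 (show G R y₁ < G R y₁ + ε by linarith)
    (show PP R y₁ < PP R y₁ + ε by linarith)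
  have f2 := one_part hR hy2 (show G R y₂ < G R y₂ + ε by linarith)
    (show PP R y₂ < PP R y₂ + ε by linarith)
  set D₁ := G R y₁ + ε with hD1
  set D₂ := G R y₂ + ε with hD2
  set P₁ := PP R y₁ + ε with hP1
  set P₂ := PP R y₂ + ε with hP2
  have hP10 : 0 < P₁ := by have := PP_pos hR hy1; linarith
  have hP20 : 0 < P₂ := by have := PP_pos hR hy2; linarith
  -- the sizes of the parts
  let h : ℕ → ℕ := fun r => ⌊lam * ((r + R : ℕ) : ℝ)⌋₊
  have hcast : Tendsto (fun r : ℕ => ((r + R : ℕ) : ℝ)) atTop atTop :=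
    tendsto_natCast_atTop_atTop.comp (tendsto_add_atTop_nat R)
  have hlim : Tendsto h atTop atTop :=
    tendsto_nat_floor_atTop.comp (hcast.const_mul_atTop hl0)
  have hratio : Tendsto (fun r : ℕ => (h r : ℝ) / ((r + R : ℕ) : ℝ)) atTop (𝓝 lam) := by
    have := (tendsto_nat_floor_mul_div_atTop hl0.le).comp hcast
    exact this
  have hle : ∀ r : ℕ, h r ≤ r + R := by
    intro r
    have h1 : (h r : ℝ) ≤ lam * ((r + R : ℕ) : ℝ) := Nat.floor_le (by positivity)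
    have h2 : lam * ((r + R : ℕ) : ℝ) ≤ 1 * ((r + R : ℕ) : ℝ) :=
      mul_le_mul_of_nonneg_right hl1.le (Nat.cast_nonneg _)
    rw [one_mul] at h2
    exact_mod_cast h1.trans h2
  have hratio2 : Tendsto (fun r : ℕ => ((r + R - h r : ℕ) : ℝ) / ((r + R : ℕ) : ℝ)) atTop
      (𝓝 (1 - lam)) := by
    refine (hratio.const_sub 1).congr' ?_
    filter_upwards [eventually_ge_atTop 1] with r hr
    have : (0 : ℝ) < ((r + R : ℕ) : ℝ) := by exact_mod_cast (show 0 < r + R by omega)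
    rw [Nat.cast_sub (hle r)]
    field_simp
  have hlim2 : Tendsto (fun r => r + R - h r) atTop atTop := by
    have h1 := hratio2.pos_mul_atTop hl1' hcast
    rw [← tendsto_natCast_atTop_iff (R := ℝ)]
    refine h1.congr' ?_
    filter_upwards [eventually_ge_atTop 1] with r hr
    have : (0 : ℝ) < ((r + R : ℕ) : ℝ) := by exact_mod_cast (show 0 < r + R by omega)
    field_simp
  have hnat : Tendsto (fun r : ℕ => r + R) atTop atTop := tendsto_add_atTop_nat R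
  have ρ1 := choose_ratio R hnat hlim hl0 hratio
  have ρ2 := choose_ratio R hnat hlim2 hl1' hratio2
  have hlimR : Tendsto (fun r => h r - R) atTop atTop := by
    refine tendsto_atTop.2 fun b => ?_
    filter_upwards [tendsto_atTop.1 hlim (b + R)] with r hr
    omega
  have hlim2R : Tendsto (fun r => r + R - h r - R) atTop atTop := by
    refine tendsto_atTop.2 fun b => ?_
    filter_upwards [tendsto_atTop.1 hlim2 (b + R)] with r hr
    omega
  have hfin : Tendsto (fun r : ℕ => ((r + R).choose R : ℝ) / ((h r).choose R : ℝ) *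
      (D₁ / (1 - P₂)) + ((r + R).choose R : ℝ) / ((r + R - h r).choose R : ℝ) *
      (D₂ * P₁ / (1 - P₁))) atTop
      (𝓝 ((lam ^ R)⁻¹ * (D₁ / (1 - P₂)) + ((1 - lam) ^ R)⁻¹ * (D₂ * P₁ / (1 - P₁)))) :=
    (ρ1.mul_const _).add (ρ2.mul_const _)
  have hlt : (lam ^ R)⁻¹ * (D₁ / (1 - P₂)) + ((1 - lam) ^ R)⁻¹ * (D₂ * P₁ / (1 - P₁)) < V := by
    refine lt_of_eq_of_lt ?_ hεV
    rw [← div_eq_inv_mul, ← div_eq_inv_mul, div_div, div_div, mul_comm (1 - P₂), mul_comm (1 - P₁)]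
  filter_upwards [hfin.eventually_lt_const hlt, hlimR.eventually f1, hlim2R.eventually f2,
    tendsto_atTop.1 hlim R, tendsto_atTop.1 hlim2 R] with r g0 g1 g2 g3 g4
  obtain ⟨a₁, Φ₁, c1, c2, c3, c4, c5⟩ := g1
  obtain ⟨a₂, Φ₂, d1, d2, d3, d4, d5⟩ := g2
  have hr : (h r - R) + (r + R - h r - R) + R = r := by have := hle r; omega
  rw [Nat.sub_add_cancel g3] at c5
  rw [Nat.sub_add_cancel g4] at d5
  have hP11 : P₁ < 1 := hε1
  have hP21 : P₂ < 1 := hε2
  have htt : tt R r ≤ a₁ / (1 - Φ₂) + a₂ * Φ₁ / (1 - Φ₁) := by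
    refine le_of_forall_pos_le_add fun ε' hε' => ?_
    have hT := two_part c1 d1 c2 d2 c3 (lt_of_le_of_lt c4 hP11) d3 (lt_of_le_of_lt d4 hP21) hε'
    rw [hr] at hT
    exact tt_le hT
  refine le_trans ?_ g0.le
  have hC0 : (0 : ℝ) < ((r + R).choose R : ℝ) := by
    exact_mod_cast Nat.choose_pos (show R ≤ r + R by omega)
  have hC1 : (0 : ℝ) < ((h r).choose R : ℝ) := by exact_mod_cast Nat.choose_pos g3
  have hC2 : (0 : ℝ) < ((r + R - h r).choose R : ℝ) := by exact_mod_cast Nat.choose_pos g4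
  have q1 : 0 < 1 - Φ₁ := by linarith
  have q2 : 0 < 1 - Φ₂ := by linarith
  have q3 : 0 < 1 - P₁ := by linarith
  have q4 : 0 < 1 - P₂ := by linarith
  have hD10 : 0 ≤ D₁ := le_trans (mul_nonneg hC1.le c2) c5
  have hD20 : 0 ≤ D₂ := le_trans (mul_nonneg hC2.le d2) d5
  have k1 : a₁ / (1 - Φ₂) ≤ D₁ / ((h r).choose R : ℝ) / (1 - P₂) := by
    apply div_le_div₀ (by positivity) _ q4 (by linarith)
    rw [le_div_iff₀ hC1]
    linarith
  have k2 : a₂ * Φ₁ / (1 - Φ₁) ≤ D₂ / ((r + R - h r).choose R : ℝ) * P₁ / (1 - P₁) := by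
    apply div_le_div₀ (by positivity) _ q3 (by linarith)
    apply mul_le_mul _ c4 c3.le (by positivity)
    rw [le_div_iff₀ hC2]
    linarith
  unfold CC
  calc ((r + R).choose R : ℝ) * tt R r
      ≤ ((r + R).choose R : ℝ) * (D₁ / ((h r).choose R : ℝ) / (1 - P₂) +
        D₂ / ((r + R - h r).choose R : ℝ) * P₁ / (1 - P₁)) :=
        mul_le_mul_of_nonneg_left (htt.trans (add_le_add k1 k2)) hC0.le
    _ = _ := by ring

/-- the factor `(1 + p)^(R+1) / (1 - p^(R+1))`, `p^(R+1)` the probability that a Poisson variable of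
mean `y` is `< R` -/
noncomputable def FF (R : ℕ) (y : ℝ) : ℝ :=
  (1 + PP R y ^ ((1 : ℝ) / ((R : ℝ) + 1))) ^ (R + 1) / (1 - PP R y)

theorem eventually_le {R : ℕ} (hR : 1 ≤ R) {y V : ℝ} (hy : 0 < y) (hV : FF R y * G R y < V) :
    ∀ᶠ r : ℕ in atTop, CC R r ≤ V := by
  have hP0 := PP_pos hR hy
  have hP1 := PP_lt_one R hy
  obtain ⟨p, hp⟩ : ∃ p : ℝ, p = PP R y ^ ((1 : ℝ) / ((R : ℝ) + 1)) := ⟨_, rfl⟩
  have hp0 : 0 < p := by rw [hp]; exact Real.rpow_pos_of_pos hP0 _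
  have hpP : p ^ (R + 1) = PP R y := by
    rw [hp, ← Real.rpow_natCast, ← Real.rpow_mul hP0.le]
    have : (1 : ℝ) / ((R : ℝ) + 1) * ((R + 1 : ℕ) : ℝ) = 1 := by
      push_cast
      field_simp
    rw [this, Real.rpow_one]
  have h1p : 0 < 1 + p := by linarith
  refine asymptotic hR hy hy (lam := 1 / (1 + p)) (by positivity)
    (by rw [div_lt_one h1p]; linarith) ?_
  refine lt_of_eq_of_lt ?_ hV
  unfold FF
  rw [← hp]
  have e2 : 1 - 1 / (1 + p) = p / (1 + p) := by field_simp; ring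
  rw [e2, ← hpP]
  have h3 : 1 - p ^ (R + 1) ≠ 0 := by rw [hpP]; linarith
  rw [div_pow, div_pow, one_pow]
  have h4 : p ^ R ≠ 0 := by positivity
  have h5 : (1 + p) ^ R ≠ 0 := by positivity
  rw [pow_succ (1 + p) R]
  have h6 : p ^ (R + 1) = p ^ R * p := pow_succ p R
  rw [div_mul_eq_mul_div, div_mul_eq_mul_div, one_mul]
  rw [div_div_eq_mul_div, div_div_eq_mul_div]
  rw [div_add_div _ _ h3 (mul_ne_zero h4 h3)]
  rw [div_mul_eq_mul_div, div_eq_div_iff (mul_ne_zero h3 (mul_ne_zero h4 h3)) h3]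
  rw [h6]
  ring

end Pool.Agent.J4.H85.GD
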