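import Pool.Agent.J4.H85.GD.Defs
import Pool.Agent.H369R2.TD.Det

/-!
# The determinant code for `(d + R)`-sets: random vectors of dimension `d + R - 1`
-/

set_option autoImplicit false

open Finset

namespace Pool.Agent.J4.H85.GD

open Pool.Agent.H369R2.TD (dep_count supp_count exists_dep perm_count)
open Pool.Agent.H369R2.TD.Det (coord_count supp supp_smul scalar_count)

variable {F : Type} [Field F] [Fintype F] [DecidableEq F] {n d D : ℕ}

/-- the sample space -/
abbrev Om (F : Type) (n D : ℕ) : Type :=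
  (Fin n → Fin D → F) × (Finset (Fin n) → Equiv.Perm (Fin n))

/-- `α` makes `e` a member -/
def Good (T : ℕ → Finset (Finset (Fin n))) (ω : Om F n D) (e : Finset (Fin n)) (α : Fin n → F) :
    Prop :=
  α ≠ 0 ∧ (∀ v, v ∉ e → α v = 0) ∧ ∑ v, α v • ω.1 v = 0 ∧
    (e \ supp α).map (ω.2 (supp α)).toEmbedding ∈ T (e \ supp α).card

omit [Fintype F] in
theorem Good.smul {T : ℕ → Finset (Finset (Fin n))} {ω : Om F n D} {e : Finset (Fin n)}
    {α : Fin n → F} (h : Good T ω e α) {c : F} (hc : c ≠ 0) : Good T ω e (c • α) := by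
  obtain ⟨h1, h2, h3, h4⟩ := h
  refine ⟨smul_ne_zero hc h1, fun v hv => by simp [h2 v hv], ?_, ?_⟩
  · have : ∑ v, (c • α) v • ω.1 v = c • ∑ v, α v • ω.1 v := by
      rw [Finset.smul_sum]
      apply Finset.sum_congr rfl
      intro v _
      simp [mul_smul]
    rw [this, h3, smul_zero]
  · rw [supp_smul hc]; exact h4

open Classical in
/-- the random family -/
noncomputable def fam (T : ℕ → Finset (Finset (Fin n))) (d : ℕ) (ω : Om F n D) :
    Finset (Finset (Fin n)) :=
  ((univ : Finset (Fin n)).powersetCard d).filter fun e => ∃ α : Fin n → F, Good T ω e α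

omit [Fintype F] in
theorem sdiff_supp_lt {e : Finset (Fin n)} (he : e.card = d) {α : Fin n → F} (hα : α ≠ 0)
    (hs : ∀ v, v ∉ e → α v = 0) : (e \ supp α).card < d := by
  classical
  rw [← he]
  apply Finset.card_lt_card
  rw [Finset.ssubset_iff_subset_ne]
  refine ⟨sdiff_subset, fun hE => hα ?_⟩
  ext v
  by_contra hv
  have hv' : α v ≠ 0 := hv
  have hve : v ∈ e := by
    by_contra hh; exact hv' (hs v hh)
  have : v ∈ e \ supp α := by rw [hE]; exact hve
  rw [mem_sdiff] at this
  exact this.2 (by simp [supp, hv'])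

theorem count_good {T : ℕ → Finset (Finset (Fin n))} {δ : ℕ → ℝ}
    (hT1 : ∀ m, m < d → ∀ Z ∈ T m, Z.card = m)
    (hT3 : ∀ m, m < d → ((T m).card : ℝ) ≤ δ m * (n.choose m : ℝ))
    (e : Finset (Fin n)) (he : e.card = d) (α : Fin n → F) (hα : α ≠ 0)
    (hs : ∀ v, v ∉ e → α v = 0) :
    ((univ.filter fun ω : Om F n D => ∑ v, α v • ω.1 v = 0 ∧
        (e \ supp α).map (ω.2 (supp α)).toEmbedding ∈ T (e \ supp α).card).card : ℝ)
      ≤ δ (e \ supp α).card / (Fintype.card F : ℝ) ^ D * (Fintype.card (Om F n D) : ℝ) := by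
  classical
  have hlt : (e \ supp α).card < d := sdiff_supp_lt he hα hs
  have hsplit : (univ.filter fun ω : Om F n D => ∑ v, α v • ω.1 v = 0 ∧
        (e \ supp α).map (ω.2 (supp α)).toEmbedding ∈ T (e \ supp α).card)
      = (univ.filter fun ξ : Fin n → Fin D → F => ∑ v, α v • ξ v = 0) ×ˢ
        (univ.filter fun π : Finset (Fin n) → Equiv.Perm (Fin n) =>
          (e \ supp α).map (π (supp α)).toEmbedding ∈ T (e \ supp α).card) := by
    ext ω
    simp only [mem_filter, mem_univ, true_and, mem_product]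
  rw [hsplit, Finset.card_product, Nat.cast_mul]
  have hq : (0 : ℝ) < (Fintype.card F : ℝ) := by exact_mod_cast Fintype.card_pos
  have c1 := dep_count (d := D) α hα
  have c2 := coord_count (supp α)
    (fun p : Equiv.Perm (Fin n) => (e \ supp α).map p.toEmbedding ∈ T (e \ supp α).card)
  have c3 := perm_count (δ := δ (e \ supp α).card) (T (e \ supp α).card) (hT1 _ hlt) (hT3 _ hlt)
    (e \ supp α) rfl
  have hP : (0 : ℝ) < (Fintype.card (Equiv.Perm (Fin n)) : ℝ) := by exact_mod_cast Fintype.card_pos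
  have c4 : ((univ.filter fun π : Finset (Fin n) → Equiv.Perm (Fin n) =>
          (e \ supp α).map (π (supp α)).toEmbedding ∈ T (e \ supp α).card).card : ℝ)
      ≤ δ (e \ supp α).card * (Fintype.card (Finset (Fin n) → Equiv.Perm (Fin n)) : ℝ) := by
    have h5 : ((univ.filter fun π : Finset (Fin n) → Equiv.Perm (Fin n) =>
          (e \ supp α).map (π (supp α)).toEmbedding ∈ T (e \ supp α).card).card : ℝ)
          * (Fintype.card (Equiv.Perm (Fin n)) : ℝ)
        ≤ (δ (e \ supp α).card * (Fintype.card (Finset (Fin n) → Equiv.Perm (Fin n)) : ℝ))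
          * (Fintype.card (Equiv.Perm (Fin n)) : ℝ) := by
      rw [c2]
      calc _ ≤ (δ (e \ supp α).card * (Fintype.card (Equiv.Perm (Fin n)) : ℝ))
            * (Fintype.card (Finset (Fin n) → Equiv.Perm (Fin n)) : ℝ) := by
            gcongr
        _ = _ := by ring
    exact le_of_mul_le_mul_right h5 hP
  have hqd : (0 : ℝ) < (Fintype.card F : ℝ) ^ D := by positivity
  have c5 : ((univ.filter fun ξ : Fin n → Fin D → F => ∑ v, α v • ξ v = 0).card : ℝ)
      = (Fintype.card (Fin n → Fin D → F) : ℝ) / (Fintype.card F : ℝ) ^ D := by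
    rw [eq_div_iff hqd.ne', c1]
  rw [c5, Fintype.card_prod, Nat.cast_mul]
  calc _ ≤ (Fintype.card (Fin n → Fin D → F) : ℝ) / (Fintype.card F : ℝ) ^ D *
        (δ (e \ supp α).card * (Fintype.card (Finset (Fin n) → Equiv.Perm (Fin n)) : ℝ)) := by
        gcongr
    _ = _ := by ring

/-- density of the random family -/
theorem density {T : ℕ → Finset (Finset (Fin n))} {δ : ℕ → ℝ}
    (hT1 : ∀ m, m < d → ∀ Z ∈ T m, Z.card = m)
    (hT3 : ∀ m, m < d → ((T m).card : ℝ) ≤ δ m * (n.choose m : ℝ))
    (e : Finset (Fin n)) (he : e.card = d) [DecidablePred fun ω : Om F n D => e ∈ fam T d ω] :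
    ((univ.filter fun ω : Om F n D => e ∈ fam T d ω).card : ℝ) ≤
      (∑ m ∈ range d, (d.choose m : ℝ) * ((Fintype.card F : ℝ) - 1) ^ (d - m - 1) /
        (Fintype.card F : ℝ) ^ D * δ m) * (Fintype.card (Om F n D) : ℝ) := by
  classical
  have hq1 : 1 < Fintype.card F := Fintype.one_lt_card
  have hq : (0 : ℝ) < (Fintype.card F : ℝ) := by exact_mod_cast Fintype.card_pos
  have hq' : (0 : ℝ) < (Fintype.card F : ℝ) - 1 := by
    have : (1 : ℝ) < (Fintype.card F : ℝ) := by exact_mod_cast hq1
    linarith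
  have hqc : ((Fintype.card F - 1 : ℕ) : ℝ) = (Fintype.card F : ℝ) - 1 := by
    rw [Nat.cast_sub hq1.le]; simp
  have key : ((Fintype.card F - 1 : ℕ) : ℝ) *
      ((univ.filter fun ω : Om F n D => e ∈ fam T d ω).card : ℝ)
      ≤ ∑ α ∈ univ.filter (fun α : Fin n → F => α ≠ 0 ∧ ∀ v, v ∉ e → α v = 0),
        δ (e \ supp α).card / (Fintype.card F : ℝ) ^ D * (Fintype.card (Om F n D) : ℝ) := by
    have s1 : (Fintype.card F - 1) * (univ.filter fun ω : Om F n D => e ∈ fam T d ω).card
        ≤ ∑ ω : Om F n D, (univ.filter fun α : Fin n → F => Good T ω e α).card := by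
      calc (Fintype.card F - 1) * (univ.filter fun ω : Om F n D => e ∈ fam T d ω).card
          = ∑ ω ∈ univ.filter (fun ω : Om F n D => e ∈ fam T d ω), (Fintype.card F - 1) := by
            rw [Finset.sum_const, smul_eq_mul, mul_comm]
        _ ≤ ∑ ω ∈ univ.filter (fun ω : Om F n D => e ∈ fam T d ω),
              (univ.filter fun α : Fin n → F => Good T ω e α).card := by
            apply Finset.sum_le_sum
            intro ω hω
            rw [mem_filter] at hω
            have h2 := hω.2
            rw [fam, mem_filter] at h2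
            obtain ⟨α, hα⟩ := h2.2
            apply scalar_count
            · exact ⟨α, by rw [mem_filter]; exact ⟨mem_univ _, hα⟩⟩
            · intro β hβ; rw [mem_filter] at hβ; exact hβ.2.1
            · intro β hβ c hc; rw [mem_filter] at hβ ⊢
              exact ⟨mem_univ _, hβ.2.smul hc⟩
        _ ≤ _ := Finset.sum_le_sum_of_subset (filter_subset _ _)
    have s2 : ∑ ω : Om F n D, (univ.filter fun α : Fin n → F => Good T ω e α).card
        = ∑ α ∈ univ.filter (fun α : Fin n → F => α ≠ 0 ∧ ∀ v, v ∉ e → α v = 0),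
          (univ.filter fun ω : Om F n D => ∑ v, α v • ω.1 v = 0 ∧
            (e \ supp α).map (ω.2 (supp α)).toEmbedding ∈ T (e \ supp α).card).card := by
      simp_rw [Finset.card_filter]
      rw [Finset.sum_comm, Finset.sum_filter]
      apply Finset.sum_congr rfl
      intro α _
      by_cases h : α ≠ 0 ∧ ∀ v, v ∉ e → α v = 0
      · rw [if_pos h]
        apply Finset.sum_congr rfl
        intro ω _
        congr 1
        simp only [Good, eq_iff_iff]
        constructor
        · rintro ⟨_, _, h3, h4⟩; exact ⟨h3, h4⟩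
        · rintro ⟨h3, h4⟩; exact ⟨h.1, h.2, h3, h4⟩
      · rw [if_neg h]
        apply Finset.sum_eq_zero
        intro ω _
        rw [if_neg]
        rintro ⟨h1, h2, _, _⟩
        exact h ⟨h1, h2⟩
    have s3 : (((Fintype.card F - 1) * (univ.filter fun ω : Om F n D => e ∈ fam T d ω).card : ℕ) : ℝ)
        ≤ ((∑ α ∈ univ.filter (fun α : Fin n → F => α ≠ 0 ∧ ∀ v, v ∉ e → α v = 0),
          (univ.filter fun ω : Om F n D => ∑ v, α v • ω.1 v = 0 ∧
            (e \ supp α).map (ω.2 (supp α)).toEmbedding ∈ T (e \ supp α).card).card : ℕ) : ℝ) := by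
      exact_mod_cast (s1.trans_eq s2)
    rw [Nat.cast_mul] at s3
    refine s3.trans ?_
    rw [Nat.cast_sum]
    apply Finset.sum_le_sum
    intro α hα
    rw [mem_filter] at hα
    exact count_good hT1 hT3 e he α hα.2.1 hα.2.2
  -- evaluate the sum by the number of zeros
  have key2 : ∑ α ∈ univ.filter (fun α : Fin n → F => α ≠ 0 ∧ ∀ v, v ∉ e → α v = 0),
        δ (e \ supp α).card / (Fintype.card F : ℝ) ^ D * (Fintype.card (Om F n D) : ℝ)
      = ((Fintype.card F : ℝ) - 1) * (∑ m ∈ range d, (d.choose m : ℝ) *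
        ((Fintype.card F : ℝ) - 1) ^ (d - m - 1) / (Fintype.card F : ℝ) ^ D * δ m)
          * (Fintype.card (Om F n D) : ℝ) := by
    have hmap : ∀ α ∈ univ.filter (fun α : Fin n → F => α ≠ 0 ∧ ∀ v, v ∉ e → α v = 0),
        (e \ supp α).card ∈ range d := by
      intro α hα
      rw [mem_filter] at hα
      rw [mem_range]
      exact sdiff_supp_lt he hα.2.1 hα.2.2
    rw [← Finset.sum_fiberwise_of_maps_to hmap]
    rw [Finset.mul_sum, Finset.sum_mul]
    apply Finset.sum_congr rfl
    intro m hm
    rw [mem_range] at hm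
    have hcongr : ∀ α ∈ (univ.filter (fun α : Fin n → F => α ≠ 0 ∧ ∀ v, v ∉ e → α v = 0)).filter
          (fun α => (e \ supp α).card = m),
        δ (e \ supp α).card / (Fintype.card F : ℝ) ^ D * (Fintype.card (Om F n D) : ℝ)
        = δ m / (Fintype.card F : ℝ) ^ D * (Fintype.card (Om F n D) : ℝ) := by
      intro α hα
      rw [mem_filter] at hα
      rw [hα.2]
    rw [Finset.sum_congr rfl hcongr, Finset.sum_const, nsmul_eq_mul]
    have hset : ((univ.filter (fun α : Fin n → F => α ≠ 0 ∧ ∀ v, v ∉ e → α v = 0)).filter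
          (fun α => (e \ supp α).card = m)).card
        = e.card.choose m * (Fintype.card F - 1) ^ (e.card - m) := by
      rw [← supp_count e]
      congr 1
      ext α
      have hs : e \ supp α = e.filter fun v => α v = 0 := by
        ext v; simp [supp]
      simp only [mem_filter, mem_univ, true_and, hs]
      constructor
      · rintro ⟨⟨_, h2⟩, h3⟩; exact ⟨h2, h3⟩
      · rintro ⟨h2, h3⟩
        refine ⟨⟨?_, h2⟩, h3⟩
        rintro rfl
        have : (e.filter fun v => (0 : Fin n → F) v = 0) = e := by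
          ext v; simp
        rw [this, he] at h3
        omega
    rw [hset, he]
    have hp : (((Fintype.card F - 1) ^ (d - m) : ℕ) : ℝ)
        = ((Fintype.card F : ℝ) - 1) ^ (d - m - 1) * ((Fintype.card F : ℝ) - 1) := by
      rw [Nat.cast_pow, hqc, ← pow_succ]
      congr 1; omega
    rw [Nat.cast_mul, hp]
    ring
  rw [hqc] at key
  rw [key2, mul_assoc] at key
  exact le_of_mul_le_mul_left key hq'

/-- a failure produces a dependency supported in `Y` with fewer than `R` zeros in `Y` -/
theorem fail_dep {R : ℕ} (hR : 1 ≤ R) {T : ℕ → Finset (Finset (Fin n))}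
    (hT1 : ∀ m, m < d → ∀ Z ∈ T m, Z.card = m)
    (hT2 : ∀ m, m < d → ∀ Y : Finset (Fin n), Y.card = m + R → ∃ Z ∈ T m, Z ⊆ Y)
    {Y : Finset (Fin n)} (hY : Y.card = d + R) (ω : Om F n (d + R - 1))
    (hω : ¬ ∃ Z ∈ fam T d ω, Z ⊆ Y) :
    ∃ α : Fin n → F, α ≠ 0 ∧ (∀ v, v ∉ Y → α v = 0) ∧ ∑ v, α v • ω.1 v = 0 ∧
      (Y.filter fun v => α v = 0).card < R := by
  classical
  obtain ⟨α, h0, h1, h2⟩ := exists_dep ω.1 Y (by rw [hY]; omega)
  refine ⟨α, h0, h1, h2, ?_⟩
  by_contra hcon
  push Not at hcon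
  apply hω
  have hsub : supp α ⊆ Y := by
    intro v hv
    by_contra hh
    simp only [supp, mem_filter, mem_univ, true_and] at hv
    exact hv (h1 v hh)
  have hZe : (Y.filter fun v => α v = 0) = Y \ supp α := by
    ext v; simp [supp]
  rw [hZe] at hcon
  have hsne : (supp α).Nonempty := by
    by_contra hh
    rw [Finset.not_nonempty_iff_eq_empty] at hh
    apply h0
    ext v
    by_contra hv
    have : v ∈ supp α := by simp [supp]; exact hv
    rw [hh] at this
    simp at this
  set Z := Y \ supp α with hZ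
  have hZcard : Z.card + (supp α).card = d + R := by
    rw [hZ, ← hY]; exact Finset.card_sdiff_add_card_eq_card hsub
  have hsc : 1 ≤ (supp α).card := Finset.card_pos.mpr hsne
  obtain ⟨m, hm⟩ : ∃ m, Z.card = m + R := ⟨Z.card - R, by omega⟩
  have hmd : m < d := by omega
  obtain ⟨W, hW1, hW2⟩ := hT2 m hmd (Z.map (ω.2 (supp α)).toEmbedding)
    (by rw [Finset.card_map, hm])
  obtain ⟨W', hW'1, hW'2⟩ := Finset.subset_map_iff.mp hW2
  have hW'card : W'.card = m := by
    have := hT1 m hmd W hW1
    rw [hW'2, Finset.card_map] at this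
    exact this
  have hdisj : Disjoint (supp α) W' := by
    rw [Finset.disjoint_left]
    intro v hv hv'
    exact (mem_sdiff.1 (hW'1 hv')).2 hv
  refine ⟨supp α ∪ W', ?_, union_subset hsub (hW'1.trans sdiff_subset)⟩
  rw [fam, mem_filter, mem_powersetCard]
  refine ⟨⟨subset_univ _, by rw [card_union_of_disjoint hdisj, hW'card]; omega⟩, α, h0, ?_, h2, ?_⟩
  · intro v hv
    by_contra hh
    exact hv (mem_union_left _ (by simp [supp, hh]))
  · have hd : (supp α ∪ W') \ supp α = W' := by
      rw [Finset.union_sdiff_left]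
      exact Finset.sdiff_eq_self_of_disjoint hdisj.symm
    rw [hd, ← hW'2, hW'card]
    exact hW1

/-- failure probability of the random family -/
theorem failure {R : ℕ} (hR : 1 ≤ R) {T : ℕ → Finset (Finset (Fin n))}
    (hT1 : ∀ m, m < d → ∀ Z ∈ T m, Z.card = m)
    (hT2 : ∀ m, m < d → ∀ Y : Finset (Fin n), Y.card = m + R → ∃ Z ∈ T m, Z ⊆ Y)
    {Y : Finset (Fin n)} (hY : Y.card = d + R) 
    [DecidablePred fun ω : Om F n (d + R - 1) => ¬ ∃ Z ∈ fam T d ω, Z ⊆ Y] (hd : 1 ≤ d) :
    ((univ.filter fun ω : Om F n (d + R - 1) => ¬ ∃ Z ∈ fam T d ω, Z ⊆ Y).card : ℝ) ≤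
      detF R d (Fintype.card F) * (Fintype.card (Om F n (d + R - 1)) : ℝ) := by
  classical
  have hq1 : 1 < Fintype.card F := Fintype.one_lt_card
  have hq : (0 : ℝ) < (Fintype.card F : ℝ) := by exact_mod_cast Fintype.card_pos
  have hq' : (0 : ℝ) < (Fintype.card F : ℝ) - 1 := by
    have : (1 : ℝ) < (Fintype.card F : ℝ) := by exact_mod_cast hq1
    linarith
  have hqc : ((Fintype.card F - 1 : ℕ) : ℝ) = (Fintype.card F : ℝ) - 1 := by
    rw [Nat.cast_sub hq1.le]; simp
  have hqd : (0 : ℝ) < (Fintype.card F : ℝ) ^ (d + R - 1) := by positivity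
  set S : Finset (Fin n → F) := univ.filter (fun α : Fin n → F => α ≠ 0 ∧ (∀ v, v ∉ Y → α v = 0) ∧
    (Y.filter fun v => α v = 0).card < R) with hS
  have key : (Fintype.card F - 1) *
      (univ.filter fun ω : Om F n (d + R - 1) => ¬ ∃ Z ∈ fam T d ω, Z ⊆ Y).card
      ≤ ∑ α ∈ S, (univ.filter fun ω : Om F n (d + R - 1) => ∑ v, α v • ω.1 v = 0).card := by
    calc (Fintype.card F - 1) *
          (univ.filter fun ω : Om F n (d + R - 1) => ¬ ∃ Z ∈ fam T d ω, Z ⊆ Y).card
        = ∑ ω ∈ univ.filter (fun ω : Om F n (d + R - 1) => ¬ ∃ Z ∈ fam T d ω, Z ⊆ Y),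
            (Fintype.card F - 1) := by
          rw [Finset.sum_const, smul_eq_mul, mul_comm]
      _ ≤ ∑ ω ∈ univ.filter (fun ω : Om F n (d + R - 1) => ¬ ∃ Z ∈ fam T d ω, Z ⊆ Y),
            (univ.filter fun α : Fin n → F => α ∈ S ∧ ∑ v, α v • ω.1 v = 0).card := by
          apply Finset.sum_le_sum
          intro ω hω
          rw [mem_filter] at hω
          obtain ⟨α, hα0, hα1, hα2, hα3⟩ := fail_dep hR hT1 hT2 hY ω hω.2
          apply scalar_count
          · exact ⟨α, by
              rw [mem_filter, hS, mem_filter]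
              exact ⟨mem_univ _, ⟨mem_univ _, hα0, hα1, hα3⟩, hα2⟩⟩
          · intro β hβ
            rw [mem_filter, hS, mem_filter] at hβ
            exact hβ.2.1.2.1
          · intro β hβ c hc
            rw [mem_filter, hS, mem_filter] at hβ ⊢
            obtain ⟨-, ⟨-, b1, b2, b3⟩, b4⟩ := hβ
            refine ⟨mem_univ _, ⟨mem_univ _, smul_ne_zero hc b1, fun v hv => by simp [b2 v hv], ?_⟩, ?_⟩
            · have : (Y.filter fun v => (c • β) v = 0) = Y.filter fun v => β v = 0 := by
                apply Finset.filter_congr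
                intro v _
                simp [hc]
              rw [this]; exact b3
            · have : ∑ v, (c • β) v • ω.1 v = c • ∑ v, β v • ω.1 v := by
                rw [Finset.smul_sum]
                apply Finset.sum_congr rfl
                intro v _
                simp [mul_smul]
              rw [this, b4, smul_zero]
      _ ≤ ∑ ω : Om F n (d + R - 1),
            (univ.filter fun α : Fin n → F => α ∈ S ∧ ∑ v, α v • ω.1 v = 0).card :=
          Finset.sum_le_sum_of_subset (filter_subset _ _)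
      _ = _ := by
          simp_rw [Finset.card_filter]
          rw [Finset.sum_comm, ← Finset.sum_filter_add_sum_filter_not univ (fun α => α ∈ S)]
          have z : ∑ α ∈ univ.filter (fun α : Fin n → F => ¬ α ∈ S),
              ∑ ω : Om F n (d + R - 1), (if α ∈ S ∧ ∑ v, α v • ω.1 v = 0 then 1 else 0) = 0 := by
            apply Finset.sum_eq_zero
            intro α hα
            rw [mem_filter] at hα
            apply Finset.sum_eq_zero
            intro ω _
            rw [if_neg]
            exact fun h => hα.2 h.1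
          rw [z, add_zero]
          have z2 : univ.filter (fun α : Fin n → F => α ∈ S) = S := by
            ext α; simp
          rw [z2]
          apply Finset.sum_congr rfl
          intro α hα
          apply Finset.sum_congr rfl
          intro ω _
          simp [hα]
  have hYe : ∀ α ∈ S,
      ((univ.filter fun ω : Om F n (d + R - 1) => ∑ v, α v • ω.1 v = 0).card : ℝ)
        = (Fintype.card (Om F n (d + R - 1)) : ℝ) / (Fintype.card F : ℝ) ^ (d + R - 1) := by
    intro α hα
    rw [hS, mem_filter] at hα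
    have h0 : α ≠ 0 := hα.2.1
    have hsplit : (univ.filter fun ω : Om F n (d + R - 1) => ∑ v, α v • ω.1 v = 0)
        = (univ.filter fun ξ : Fin n → Fin (d + R - 1) → F => ∑ v, α v • ξ v = 0) ×ˢ
          (univ : Finset (Finset (Fin n) → Equiv.Perm (Fin n))) := by
      ext ω
      simp only [mem_filter, mem_univ, true_and, mem_product, and_true]
    rw [hsplit, Finset.card_product, Nat.cast_mul, eq_div_iff hqd.ne', mul_right_comm,
      dep_count (d := d + R - 1) α h0, Fintype.card_prod, Nat.cast_mul, Finset.card_univ]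
  have hnum : (S.card : ℝ) = ((Fintype.card F : ℝ) - 1) *
      ∑ j ∈ range R, ((d + R).choose j : ℝ) * ((Fintype.card F : ℝ) - 1) ^ (d + R - j - 1) := by
    have hmap : ∀ α ∈ S, (Y.filter fun v => α v = 0).card ∈ range R := by
      intro α hα
      rw [hS, mem_filter] at hα
      rw [mem_range]
      exact hα.2.2.2
    rw [Finset.card_eq_sum_card_fiberwise hmap, Nat.cast_sum, Finset.mul_sum]
    apply Finset.sum_congr rfl
    intro j hj
    rw [mem_range] at hj
    have hset : (S.filter fun α => (Y.filter fun v => α v = 0).card = j).card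
        = Y.card.choose j * (Fintype.card F - 1) ^ (Y.card - j) := by
      rw [← supp_count Y]
      congr 1
      ext α
      rw [mem_filter, hS, mem_filter, mem_filter]
      constructor
      · rintro ⟨⟨_, _, h2, _⟩, h3⟩; exact ⟨mem_univ _, h2, h3⟩
      · rintro ⟨_, h2, h3⟩
        refine ⟨⟨mem_univ _, ?_, h2, ?_⟩, h3⟩
        · rintro rfl
          have : (Y.filter fun v => (0 : Fin n → F) v = 0) = Y := by
            ext v; simp
          rw [this, hY] at h3
          omega
        · omega
    rw [hset, hY]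
    have hp : (((Fintype.card F - 1) ^ (d + R - j) : ℕ) : ℝ)
        = ((Fintype.card F : ℝ) - 1) ^ (d + R - j - 1) * ((Fintype.card F : ℝ) - 1) := by
      rw [Nat.cast_pow, hqc, ← pow_succ]
      congr 1; omega
    rw [Nat.cast_mul, hp]
    ring
  have key' : ((Fintype.card F : ℝ) - 1) *
      ((univ.filter fun ω : Om F n (d + R - 1) => ¬ ∃ Z ∈ fam T d ω, Z ⊆ Y).card : ℝ)
      ≤ ((Fintype.card F : ℝ) - 1) *
        (detF R d (Fintype.card F) * (Fintype.card (Om F n (d + R - 1)) : ℝ)) := by
    have h1 : (((Fintype.card F - 1) *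
      (univ.filter fun ω : Om F n (d + R - 1) => ¬ ∃ Z ∈ fam T d ω, Z ⊆ Y).card : ℕ) : ℝ)
      ≤ ((∑ α ∈ S, (univ.filter fun ω : Om F n (d + R - 1) => ∑ v, α v • ω.1 v = 0).card : ℕ) : ℝ) := by
      exact_mod_cast key
    rw [Nat.cast_mul, hqc, Nat.cast_sum, Finset.sum_congr rfl hYe, Finset.sum_const,
      nsmul_eq_mul, hnum] at h1
    refine h1.trans_eq ?_
    rw [detF, Finset.mul_sum, Finset.sum_mul, Finset.sum_mul, Finset.mul_sum]
    apply Finset.sum_congr rfl
    intro j _
    ring
  exact le_of_mul_le_mul_left key' hq'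

theorem det_rnd (F : Type) [Field F] [Fintype F] {R d : ℕ} (hR : 1 ≤ R) (hd : 1 ≤ d) {δ : ℕ → ℝ}
    (hδ : ∀ m, m < d → Tur R m (δ m)) (n : ℕ) :
    Rnd R n d (detA R d (Fintype.card F) δ) (detF R d (Fintype.card F)) := by
  classical
  have hex : ∀ m, ∃ T : Finset (Finset (Fin n)), m < d → (∀ Z ∈ T, Z.card = m) ∧
    (∀ Y : Finset (Fin n), Y.card = m + R → ∃ Z ∈ T, Z ⊆ Y) ∧
      (T.card : ℝ) ≤ δ m * (n.choose m : ℝ) := by
    intro m
    by_cases hm : m < d
    · obtain ⟨T, hT⟩ := hδ m hm n
      exact ⟨T, fun _ => hT⟩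
    · exact ⟨∅, fun h => absurd h hm⟩
  choose T hT using hex
  refine ⟨Om F n (d + R - 1), inferInstance, inferInstance, fam T d, ?_, ?_, ?_⟩
  · intro ω Z hZ
    rw [fam, mem_filter, mem_powersetCard] at hZ
    exact hZ.1.2
  · intro e he
    exact density (fun m hm => (hT m hm).1) (fun m hm => (hT m hm).2.2) e he
  · intro Y hY
    exact failure hR (fun m hm => (hT m hm).1) (fun m hm => (hT m hm).2.1) hY hd

end Pool.Agent.J4.H85.GD
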