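import Pool.Agent.J4.H85.GD.Seq
import Pool.Agent.J4.H85.GD.Det
import Pool.Agent.Helper213.Sidon.Prime

/-!
# From the binomial sums of the determinant code to the Poisson averages
-/

set_option autoImplicit false

open Finset Filter Topology

namespace Pool.Agent.J4.H85.GD

/-- the binomial weights -/
noncomputable def bw (N : ℕ) (q : ℝ) (j : ℕ) : ℝ :=
  (N.choose j : ℝ) * (1 / q) ^ j * (1 - 1 / q) ^ (N - j)

theorem bw_nonneg {N : ℕ} {q : ℝ} (hq : 1 < q) (j : ℕ) : 0 ≤ bw N q j := by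
  unfold bw
  have h1 : 0 ≤ 1 - 1 / q := by
    rw [sub_nonneg, div_le_one (by linarith)]
    exact hq.le
  have h2 : 0 ≤ 1 / q := by positivity
  positivity

theorem bw_sum (N : ℕ) (q : ℝ) : ∑ j ∈ range (N + 1), bw N q j = 1 := by
  have h := add_pow (1 / q) (1 - 1 / q) N
  have e : 1 / q + (1 - 1 / q) = 1 := by ring
  rw [e, one_pow] at h
  rw [h]
  apply Finset.sum_congr rfl
  intro j _
  unfold bw
  ring

theorem bw_eq {N j : ℕ} (hj : j ≤ N) {q : ℝ} (hq : 1 < q) :
    bw N q j = (N.choose j : ℝ) * (q - 1) ^ (N - j) / q ^ N := by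
  unfold bw
  have hq0 : q ≠ 0 := by linarith
  have e : 1 - 1 / q = (q - 1) / q := by field_simp
  rw [e, div_pow, div_pow, one_pow]
  obtain ⟨i, rfl⟩ : ∃ i, N = j + i := ⟨N - j, by omega⟩
  rw [Nat.add_sub_cancel_left, pow_add]
  field_simp

theorem detA_eq {R d q : ℕ} (hR : 1 ≤ R) (hq : 2 ≤ q) (δ : ℕ → ℝ) :
    ((d + R).choose R : ℝ) * detA R d q δ = (q : ℝ) / ((q : ℝ) - 1) *
      ∑ m ∈ range d, bw (d + R) q (m + R) * (((m + R).choose R : ℝ) * δ m) := by
  have hq' : (2 : ℝ) ≤ q := by exact_mod_cast hq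
  have hq1 : (1 : ℝ) < q := by linarith
  have hq0 : (0 : ℝ) < (q : ℝ) - 1 := by linarith
  unfold detA
  rw [Finset.mul_sum, Finset.mul_sum]
  apply Finset.sum_congr rfl
  intro m hm
  rw [mem_range] at hm
  rw [bw_eq (by omega) hq1]
  have e1 : ((d + R).choose (m + R) : ℝ) * ((m + R).choose R : ℝ) =
      ((d + R).choose R : ℝ) * (d.choose m : ℝ) := by
    have h := Nat.choose_mul (n := d + R) (k := m + R) (s := R) (by omega)
    rw [Nat.add_sub_cancel, Nat.add_sub_cancel] at h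
    exact_mod_cast h
  have e2 : d + R - (m + R) = (d - m - 1) + 1 := by omega
  have e3 : (q : ℝ) ^ (d + R) = (q : ℝ) ^ (d + R - 1) * q := by
    rw [← pow_succ]; congr 1; omega
  rw [e2, pow_succ, e3]
  have hqne : (q : ℝ) ≠ 0 := by linarith
  calc ((d + R).choose R : ℝ) * ((d.choose m : ℝ) * ((q : ℝ) - 1) ^ (d - m - 1) /
        (q : ℝ) ^ (d + R - 1) * δ m)
      = (((d + R).choose R : ℝ) * (d.choose m : ℝ)) * (((q : ℝ) - 1) ^ (d - m - 1) /
        (q : ℝ) ^ (d + R - 1) * δ m) := by ring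
    _ = (((d + R).choose (m + R) : ℝ) * ((m + R).choose R : ℝ)) * (((q : ℝ) - 1) ^ (d - m - 1) /
        (q : ℝ) ^ (d + R - 1) * δ m) := by rw [e1]
    _ = _ := by field_simp

theorem detF_eq {R d q : ℕ} (hq : 2 ≤ q) (hd : 1 ≤ d) :
    detF R d q = (q : ℝ) / ((q : ℝ) - 1) * ∑ j ∈ range R, bw (d + R) q j := by
  have hq' : (2 : ℝ) ≤ q := by exact_mod_cast hq
  have hq1 : (1 : ℝ) < q := by linarith
  have hq0 : (0 : ℝ) < (q : ℝ) - 1 := by linarith
  unfold detF
  rw [Finset.mul_sum]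
  apply Finset.sum_congr rfl
  intro j hj
  rw [mem_range] at hj
  rw [bw_eq (by omega) hq1]
  have e2 : d + R - j = (d + R - j - 1) + 1 := by omega
  have e3 : (q : ℝ) ^ (d + R) = (q : ℝ) ^ (d + R - 1) * q := by
    rw [← pow_succ]; congr 1; omega
  have hqne : (q : ℝ) ≠ 0 := by linarith
  have e4 : ((q : ℝ) - 1) ^ (d + R - j) = ((q : ℝ) - 1) ^ (d + R - j - 1) * ((q : ℝ) - 1) := by
    rw [← pow_succ]; congr 1
  rw [e4, e3]
  field_simp

theorem detF_pos {R d q : ℕ} (hR : 1 ≤ R) (hq : 2 ≤ q) : 0 < detF R d q := by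
  have hq' : (2 : ℝ) ≤ q := by exact_mod_cast hq
  have hq0 : (0 : ℝ) < (q : ℝ) - 1 := by linarith
  unfold detF
  apply Finset.sum_pos
  · intro j hj
    rw [mem_range] at hj
    have : (0 : ℝ) < ((d + R).choose j : ℝ) := by
      exact_mod_cast Nat.choose_pos (show j ≤ d + R by omega)
    positivity
  · exact ⟨0, by rw [mem_range]; omega⟩

theorem detA_nonneg {R d q : ℕ} {δ : ℕ → ℝ} (hq : 2 ≤ q) (h0 : ∀ m, 0 ≤ δ m) :
    0 ≤ detA R d q δ := by
  have hq' : (2 : ℝ) ≤ q := by exact_mod_cast hq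
  unfold detA
  refine Finset.sum_nonneg fun m _ => ?_
  have h1 : 0 ≤ (q : ℝ) - 1 := by linarith
  have h2 := h0 m
  positivity

/-- the binomial average is at most its truncation -/
theorem avg_le {R d J : ℕ} {q : ℝ} (hq : 1 < q) {c : ℕ → ℝ} {K : ℝ} (h0 : ∀ j, 0 ≤ c j)
    (hK : ∀ j, c j ≤ K) (hJ : J ≤ d + R + 1) :
    ∑ m ∈ range d, bw (d + R) q (m + R) * c (m + R) ≤
      ∑ j ∈ range J, bw (d + R) q j * c j + K * (1 - ∑ j ∈ range J, bw (d + R) q j) := by
  have hb := bw_nonneg (N := d + R) hq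
  have h1 : ∑ m ∈ range d, bw (d + R) q (m + R) * c (m + R) ≤
      ∑ j ∈ range (d + R + 1), bw (d + R) q j * c j := by
    have e : ∑ m ∈ range d, bw (d + R) q (m + R) * c (m + R) =
        ∑ j ∈ (range d).image (fun m => m + R), bw (d + R) q j * c j := by
      rw [Finset.sum_image]
      intro a _ b _ hab
      have : a + R = b + R := hab
      omega
    rw [e]
    apply Finset.sum_le_sum_of_subset_of_nonneg
    · intro j hj
      rw [mem_image] at hj
      obtain ⟨m, hm, rfl⟩ := hj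
      rw [mem_range] at hm ⊢
      omega
    · intro j _ _
      exact mul_nonneg (hb j) (h0 j)
  refine h1.trans ?_
  have hs : range J ⊆ range (d + R + 1) := Finset.range_subset_range.2 hJ
  rw [← Finset.sum_sdiff hs]
  have h2 : ∑ j ∈ range (d + R + 1) \ range J, bw (d + R) q j * c j ≤
      ∑ j ∈ range (d + R + 1) \ range J, K * bw (d + R) q j := by
    apply Finset.sum_le_sum
    intro j _
    have := mul_le_mul_of_nonneg_left (hK j) (hb j)
    linarith
  have h3 : ∑ j ∈ range (d + R + 1) \ range J, K * bw (d + R) q j =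
      K * (1 - ∑ j ∈ range J, bw (d + R) q j) := by
    rw [← Finset.mul_sum]
    congr 1
    have := Finset.sum_sdiff hs (f := fun j => bw (d + R) q j)
    rw [bw_sum] at this
    linarith
  linarith

theorem exists_primes {y : ℝ} (hy : 0 < y) : ∃ q : ℕ → ℕ, (∀ d, (q d).Prime) ∧
    Tendsto (fun d => (q d : ℝ)) atTop atTop ∧
    Tendsto (fun d : ℕ => (d : ℝ) / q d) atTop (𝓝 y) := by
  have hex : ∀ d : ℕ, ∃ p, ⌊(d : ℝ) / y⌋₊ + 1 ≤ p ∧ p.Prime := fun d =>
    Nat.exists_infinite_primes _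
  classical
  let q : ℕ → ℕ := fun d => Nat.find (hex d)
  have hq1 : ∀ d : ℕ, ⌊(d : ℝ) / y⌋₊ + 1 ≤ q d ∧ (q d).Prime := fun d => Nat.find_spec (hex d)
  have hlow : ∀ d : ℕ, (d : ℝ) / y < q d := by
    intro d
    have h := (hq1 d).1
    have h2 : ((⌊(d : ℝ) / y⌋₊ + 1 : ℕ) : ℝ) ≤ (q d : ℝ) := by exact_mod_cast h
    push_cast at h2
    exact (Nat.lt_floor_add_one _).trans_le h2
  have htend : Tendsto (fun d : ℕ => (d : ℝ) / y) atTop atTop :=
    Tendsto.atTop_div_const hy tendsto_natCast_atTop_atTop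
  refine ⟨q, fun d => (hq1 d).2, tendsto_atTop_mono (fun d => (hlow d).le) htend, ?_⟩
  have hqp : ∀ d, (0 : ℝ) < q d := fun d => by exact_mod_cast (hq1 d).2.pos
  refine tendsto_order.2 ⟨fun a ha => ?_, fun b hb => ?_⟩
  · -- lower bounds
    rcases le_or_gt a 0 with ha0 | ha0
    · filter_upwards [eventually_ge_atTop 1] with d hd
      have : (0 : ℝ) < d := by exact_mod_cast hd
      exact lt_of_le_of_lt ha0 (div_pos this (hqp d))
    · have hη : 0 < (y / a - 1) / 2 := by
        have : 1 < y / a := by rwa [lt_div_iff₀ ha0, one_mul]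
        linarith
      have h1 := htend.eventually (Pool.Agent.Helper213.Sidon.prime_between _ hη)
      filter_upwards [h1, eventually_ge_atTop 1] with d ⟨p, hp, hp1, hp2⟩ hd
      have hd0 : (0 : ℝ) < d := by exact_mod_cast hd
      have hqle : q d ≤ p := by
        apply Nat.find_min'
        refine ⟨?_, hp⟩
        have : ⌊(d : ℝ) / y⌋₊ < p := (Nat.floor_lt (by positivity)).2 hp1
        omega
      have hqle' : (q d : ℝ) ≤ p := by exact_mod_cast hqle
      rw [lt_div_iff₀ (hqp d)]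
      have h3 : a * (q d : ℝ) ≤ a * ((1 + (y / a - 1) / 2) * ((d : ℝ) / y)) :=
        mul_le_mul_of_nonneg_left (hqle'.trans hp2) ha0.le
      have h4 : a * ((1 + (y / a - 1) / 2) * ((d : ℝ) / y)) = d * ((a / y + 1) / 2) := by
        field_simp
        ring
      have h5 : a / y < 1 := by rwa [div_lt_one hy]
      rw [h4] at h3
      have h6 : (d : ℝ) * ((a / y + 1) / 2) < d * 1 := by
        apply mul_lt_mul_of_pos_left _ hd0
        linarith
      linarith
  · refine Eventually.of_forall fun d => ?_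
    refine lt_trans ?_ hb
    rw [div_lt_iff₀ (hqp d)]
    have := hlow d
    rw [div_lt_iff₀ hy] at this
    linarith

/-- Poisson limit of the binomial weights -/
theorem bw_tendsto {y : ℝ} (R : ℕ) {q : ℕ → ℕ} (hq : Tendsto (fun d => (q d : ℝ)) atTop atTop)
    (hy : Tendsto (fun d : ℕ => (d : ℝ) / q d) atTop (𝓝 y)) (j : ℕ) :
    Tendsto (fun d : ℕ => bw (d + R) (q d) j) atTop
      (𝓝 (Real.exp (-y) * (y ^ j / (j.factorial : ℝ)))) := by
  have h1 : Tendsto (fun n : ℕ => (n : ℝ) * (1 / (q (n - R) : ℝ))) atTop (𝓝 y) := by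
    rw [← tendsto_add_atTop_iff_nat R]
    have h2 : Tendsto (fun d : ℕ => (d : ℝ) / q d + (R : ℝ) / q d) atTop (𝓝 (y + 0)) :=
      hy.add (tendsto_const_nhds.div_atTop hq)
    rw [add_zero] at h2
    refine h2.congr fun d => ?_
    rw [Nat.add_sub_cancel]
    push_cast
    ring
  have h2 := ProbabilityTheory.tendsto_choose_mul_pow_of_tendsto_mul_atTop j h1
  have h3 := h2.comp (tendsto_add_atTop_nat R)
  rw [mul_div_assoc] at h3
  refine h3.congr fun d => ?_
  simp only [Function.comp, Nat.add_sub_cancel]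
  rfl

theorem qq_tendsto {q : ℕ → ℕ} (hq : Tendsto (fun d => (q d : ℝ)) atTop atTop) :
    Tendsto (fun d => (q d : ℝ) / ((q d : ℝ) - 1)) atTop (𝓝 1) := by
  have h1 : Tendsto (fun x : ℝ => x / (x - 1)) atTop (𝓝 1) := by
    have h2 : Tendsto (fun x : ℝ => 1 + 1 / (x - 1)) atTop (𝓝 (1 + 0)) := by
      refine Tendsto.const_add _ ?_
      refine tendsto_const_nhds.div_atTop ?_
      exact tendsto_atTop_add_const_right _ _ tendsto_id
    rw [add_zero] at h2
    refine h2.congr' ?_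
    filter_upwards [eventually_gt_atTop 1] with x hx
    have : x - 1 ≠ 0 := by linarith
    field_simp
    ring
  exact h1.comp hq

theorem det_rnd' {R d q : ℕ} [Fact q.Prime] (hR : 1 ≤ R) (hd : 1 ≤ d) (n : ℕ) :
    Rnd R n d (detA R d q (tt R)) (detF R d q) := by
  have h := det_rnd (ZMod q) (d := d) (δ := tt R) hR hd (fun m _ => tur_tt R m) n
  simpa [ZMod.card] using h

/-- the truncated Poisson average -/
noncomputable def BJ (R J : ℕ) (y : ℝ) : ℝ :=
  ∑ j ∈ range J, Real.exp (-y) * (y ^ j / (j.factorial : ℝ)) * cj R j +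
    KK R * (1 - ∑ j ∈ range J, Real.exp (-y) * (y ^ j / (j.factorial : ℝ)))

theorem BJ_tendsto {R : ℕ} (hR : 1 ≤ R) (y : ℝ) : Tendsto (fun J : ℕ => BJ R J y) atTop (𝓝 (G R y)) := by
  have h1 := (summ y (cj_abs hR)).hasSum.tendsto_sum_nat
  have h2 := (Real.summable_pow_div_factorial y).hasSum.tendsto_sum_nat
  rw [exp_tsum] at h2
  have h3 := (h1.const_mul (Real.exp (-y))).add
    (((h2.const_mul (Real.exp (-y))).const_sub 1).const_mul (KK R))
  have e : Real.exp (-y) * (∑' j : ℕ, cj R j * (y ^ j / (j.factorial : ℝ))) +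
      KK R * (1 - Real.exp (-y) * Real.exp y) = G R y := by
    rw [← Real.exp_add]
    unfold G
    simp
  rw [e] at h3
  refine h3.congr fun J => ?_
  unfold BJ
  rw [Finset.mul_sum, Finset.mul_sum]
  congr 1
  apply Finset.sum_congr rfl
  intro j _
  ring

/-- **One part.** For large `d` there is a random family of `d`-sets with the asymptotic
parameters. -/
theorem one_part {R : ℕ} (hR : 1 ≤ R) {y D P : ℝ} (hy : 0 < y) (hD : G R y < D) (hP : PP R y < P) :
    ∀ᶠ d : ℕ in atTop, ∃ a Φ : ℝ, (∀ n, Rnd R n d a Φ) ∧ 0 ≤ a ∧ 0 < Φ ∧ Φ ≤ P ∧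
      ((d + R).choose R : ℝ) * a ≤ D := by
  obtain ⟨q, hqp, hq1, hq2⟩ := exists_primes hy
  obtain ⟨J, hJ⟩ := ((BJ_tendsto hR y).eventually_lt_const hD).exists
  have hqq := qq_tendsto hq1
  have hw := fun j => bw_tendsto R hq1 hq2 j
  -- the limit of the density
  have t1 : Tendsto (fun d : ℕ => (q d : ℝ) / ((q d : ℝ) - 1) *
      (∑ j ∈ range J, bw (d + R) (q d) j * cj R j +
        KK R * (1 - ∑ j ∈ range J, bw (d + R) (q d) j))) atTop (𝓝 (1 * BJ R J y)) := by
    refine hqq.mul ?_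
    unfold BJ
    refine Tendsto.add ?_ (Tendsto.const_mul _ (Tendsto.const_sub _ ?_))
    · exact tendsto_finsetSum _ fun j _ => (hw j).mul_const _
    · exact tendsto_finsetSum _ fun j _ => hw j
  have t2 : Tendsto (fun d : ℕ => (q d : ℝ) / ((q d : ℝ) - 1) *
      ∑ j ∈ range R, bw (d + R) (q d) j) atTop (𝓝 (1 * PP R y)) := by
    refine hqq.mul ?_
    unfold PP
    rw [Finset.mul_sum]
    exact tendsto_finsetSum _ fun j _ => hw j
  rw [one_mul] at t1 t2
  filter_upwards [t1.eventually_lt_const hJ, t2.eventually_lt_const hP, eventually_ge_atTop 1,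
    eventually_ge_atTop J] with d h1 h2 hd hdJ
  have hp := hqp d
  have hq2' : 2 ≤ q d := hp.two_le
  have hqR : (2 : ℝ) ≤ q d := by exact_mod_cast hq2'
  have : Fact (q d).Prime := ⟨hp⟩
  refine ⟨detA R d (q d) (tt R), detF R d (q d), fun n => ?_, detA_nonneg hq2' (tt_nonneg R),
    detF_pos hR hq2', ?_, ?_⟩
  · have h := det_rnd' (q := q d) hR hd n
    exact h
  · rw [detF_eq hq2' hd]
    exact h2.le
  · rw [detA_eq hR hq2']
    refine le_trans ?_ h1.le
    apply mul_le_mul_of_nonneg_left _ (div_nonneg (by linarith) (by linarith))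
    have h3 := avg_le (R := R) (d := d) (J := J) (q := (q d : ℝ)) (by linarith) (cj_nonneg R)
      (cj_le hR) (by omega)
    refine le_trans (le_of_eq ?_) h3
    apply Finset.sum_congr rfl
    intro m _
    rw [cj_add]
    rfl

end Pool.Agent.J4.H85.GD
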