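import Mathlib

/-!
# Determinant codes for Turán `(k + R, k)`-systems

`Tur R k δ`: on every `Fin n` there is a family of `k`-sets of relative size `≤ δ` such that every
`(k + R)`-set contains a member (so `t(k+R,k) ≤ δ`).
`Rnd R n d a Φ`: a random family of `d`-subsets of `Fin n` such that each `d`-set belongs to it with
probability at most `a` and each `(d + R)`-set contains no member with probability at most `Φ`.
(`R = 1` is the case treated in `Pool.Agent.H369R2.TD`.)
-/

open Finset

namespace Pool.Agent.J4.H85.GD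

def Tur (R k : ℕ) (δ : ℝ) : Prop :=
  ∀ n : ℕ, ∃ T : Finset (Finset (Fin n)), (∀ Z ∈ T, Z.card = k) ∧
    (∀ Y : Finset (Fin n), Y.card = k + R → ∃ Z ∈ T, Z ⊆ Y) ∧ (T.card : ℝ) ≤ δ * (n.choose k : ℝ)

open Classical in
def Rnd (R n d : ℕ) (a Φ : ℝ) : Prop :=
  ∃ (Ω : Type) (_ : Fintype Ω) (_ : Nonempty Ω) (A : Ω → Finset (Finset (Fin n))),
    (∀ ω, ∀ Z ∈ A ω, Z.card = d) ∧
    (∀ Z : Finset (Fin n), Z.card = d →
      ((univ.filter fun ω => Z ∈ A ω).card : ℝ) ≤ a * (Fintype.card Ω : ℝ)) ∧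
    (∀ Y : Finset (Fin n), Y.card = d + R →
      ((univ.filter fun ω => ¬ ∃ Z ∈ A ω, Z ⊆ Y).card : ℝ) ≤ Φ * (Fintype.card Ω : ℝ))

/-- the density of a round of the determinant code on `(d+R)`-sets over a field with `q` elements -/
noncomputable def detA (R d q : ℕ) (δ : ℕ → ℝ) : ℝ :=
  ∑ m ∈ range d, (d.choose m : ℝ) * ((q : ℝ) - 1) ^ (d - m - 1) / (q : ℝ) ^ (d + R - 1) * δ m

/-- the failure probability of a round -/
noncomputable def detF (R d q : ℕ) : ℝ :=
  ∑ j ∈ range R, ((d + R).choose j : ℝ) * ((q : ℝ) - 1) ^ (d + R - j - 1) / (q : ℝ) ^ (d + R - 1)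

theorem Tur.mono {R k : ℕ} {δ δ' : ℝ} (h : Tur R k δ) (hd : δ ≤ δ') : Tur R k δ' := by
  intro n
  obtain ⟨T, h1, h2, h3⟩ := h n
  refine ⟨T, h1, h2, h3.trans ?_⟩
  gcongr

private theorem sum_choose_fin (n k : ℕ) :
    ∑ v : Fin n, ((v : ℕ).choose k : ℝ) = (n.choose (k + 1) : ℝ) := by
  rw [Fin.sum_univ_eq_sum_range (fun v => (v.choose k : ℝ)) n]
  induction n with
  | zero => simp
  | succ n ih =>
    rw [Finset.sum_range_succ, ih, Nat.choose_succ_succ]
    push_cast
    ring

/-- `t(k+1+R,k+1) ≤ t(k+R,k)` -/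
theorem Tur.succ {R k : ℕ} {δ : ℝ} (h : Tur R k δ) : Tur R (k + 1) δ := by
  classical
  intro n
  choose T hT1 hT2 hT3 using h
  let emb : ∀ v : Fin n, Fin (v : ℕ) ↪ Fin n := fun v => Fin.castLEEmb v.isLt.le
  have hemb : ∀ (v : Fin n) (x : Fin (v : ℕ)), emb v x < v := by
    intro v x
    simp only [emb, Fin.castLEEmb_apply, Fin.lt_def, Fin.val_castLE]
    exact x.isLt
  refine ⟨univ.biUnion fun v : Fin n => (T v).image fun Z => insert v (Z.map (emb v)), ?_, ?_, ?_⟩
  · intro Z hZ
    simp only [mem_biUnion, mem_univ, true_and, mem_image] at hZ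
    obtain ⟨v, Z', hZ', rfl⟩ := hZ
    have hv : v ∉ Z'.map (emb v) := by
      intro hv
      rw [mem_map] at hv
      obtain ⟨x, _, hx⟩ := hv
      have := hemb v x
      rw [hx] at this
      exact lt_irrefl _ this
    rw [card_insert_of_notMem hv, card_map, hT1 _ Z' hZ']
  · intro Y hY
    have hne : Y.Nonempty := by
      rw [← card_pos, hY]; omega
    set v := Y.max' hne with hv
    have hvY : v ∈ Y := Y.max'_mem hne
    have hE : (Y.erase v).card = k + R := by
      rw [card_erase_of_mem hvY, hY]; omega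
    let Y' : Finset (Fin (v : ℕ)) := univ.filter fun x => emb v x ∈ Y.erase v
    have hY'map : Y'.map (emb v) = Y.erase v := by
      ext y
      simp only [Y', mem_map, mem_filter, mem_univ, true_and]
      constructor
      · rintro ⟨x, hx, rfl⟩
        exact hx
      · intro hy
        have hyv : y < v := by
          have h1 := mem_erase.1 hy
          exact lt_of_le_of_ne (Y.le_max' y h1.2) h1.1
        refine ⟨⟨y, hyv⟩, ?_, ?_⟩
        · have : emb v ⟨y, hyv⟩ = y := by
            apply Fin.ext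
            simp [emb]
          rw [this]
          exact hy
        · apply Fin.ext
          simp [emb]
    have hY'c : Y'.card = k + R := by
      rw [← card_map (emb v), hY'map, hE]
    obtain ⟨Z, hZ, hZY⟩ := hT2 v Y' hY'c
    refine ⟨insert v (Z.map (emb v)), ?_, ?_⟩
    · simp only [mem_biUnion, mem_univ, true_and, mem_image]
      exact ⟨v, Z, hZ, rfl⟩
    · rw [insert_subset_iff]
      refine ⟨hvY, ?_⟩
      calc Z.map (emb v) ⊆ Y'.map (emb v) := map_subset_map.2 hZY
        _ = Y.erase v := hY'map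
        _ ⊆ Y := erase_subset _ _
  · calc (((univ.biUnion fun v : Fin n => (T v).image fun Z => insert v (Z.map (emb v))).card : ℕ) : ℝ)
        ≤ ((∑ v : Fin n, ((T v).image fun Z => insert v (Z.map (emb v))).card : ℕ) : ℝ) := by
          exact_mod_cast card_biUnion_le
      _ ≤ ((∑ v : Fin n, (T (v : ℕ)).card : ℕ) : ℝ) := by
          exact_mod_cast sum_le_sum fun v _ => card_image_le
      _ = ∑ v : Fin n, ((T (v : ℕ)).card : ℝ) := by push_cast; rfl
      _ ≤ ∑ v : Fin n, δ * ((v : ℕ).choose k : ℝ) := sum_le_sum fun v _ => hT3 v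
      _ = δ * (n.choose (k + 1) : ℝ) := by
          rw [← mul_sum, sum_choose_fin]

end Pool.Agent.J4.H85.GD
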