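import Pool.Agent.J4.H85.GD.Defs
import Pool.Agent.H369R2.TD.Det

/-!
# The determinant code with random families on the sets of zeros

Random vectors of dimension `d + R - 1`; for every possible support `S` of a dependency an
independent sample of a random family of `(d - |S|)`-sets.
-/

set_option autoImplicit false

open Finset

namespace Pool.Agent.J4.H85.GD

open Pool.Agent.H369R2.TD (dep_count supp_count exists_dep perm_count)
open Pool.Agent.H369R2.TD.Det (supp supp_smul scalar_count)

namespace Comp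

/-- a condition on one coordinate of a dependent function -/
theorem coord_count {ι : Type} [Fintype ι] [DecidableEq ι] {P : ι → Type} [∀ i, Fintype (P i)]
    [∀ i, DecidableEq (P i)] (C : ι) (Q : P C → Prop) [DecidablePred Q] :
    ((univ.filter fun π : (∀ i, P i) => Q (π C)).card : ℝ) * (Fintype.card (P C) : ℝ)
      = ((univ.filter Q).card : ℝ) * (Fintype.card (∀ i, P i) : ℝ) := by
  classical
  let e := Equiv.piSplitAt C P
  have h1 : (univ.filter fun π : (∀ i, P i) => Q (π C)).card =
      (univ.filter fun x : P C × (∀ j : { j // j ≠ C }, P j) => Q x.1).card := by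
    refine Finset.card_bij (fun π _ => e π) ?_ ?_ ?_
    · intro π hπ
      rw [mem_filter] at hπ ⊢
      exact ⟨mem_univ _, hπ.2⟩
    · intro π _ π' _ h
      exact e.injective h
    · intro x hx
      rw [mem_filter] at hx
      refine ⟨e.symm x, ?_, e.apply_symm_apply x⟩
      rw [mem_filter]
      refine ⟨mem_univ _, ?_⟩
      have : (e (e.symm x)).1 = x.1 := by rw [e.apply_symm_apply]
      have h2 : (e (e.symm x)).1 = (e.symm x) C := rfl
      rw [← h2, this]
      exact hx.2
  have h2 : (univ.filter fun x : P C × (∀ j : { j // j ≠ C }, P j) => Q x.1) =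
      (univ.filter Q) ×ˢ (univ : Finset (∀ j : { j // j ≠ C }, P j)) := by
    ext x
    rw [mem_product, mem_filter, mem_filter]
    simp only [mem_univ, true_and, and_true]
  have h3 : Fintype.card (∀ i, P i) = Fintype.card (P C) *
      Fintype.card (∀ j : { j // j ≠ C }, P j) := by
    rw [Fintype.card_congr e, Fintype.card_prod]
  rw [h1, h2, Finset.card_product, h3, Finset.card_univ]
  push_cast
  ring

variable {F : Type} [Field F] [Fintype F] [DecidableEq F] {n d D : ℕ}
variable {Ω : ℕ → Type} [∀ m, Fintype (Ω m)] [∀ m, Nonempty (Ω m)]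

/-- the sample space -/
abbrev Om (F : Type) (Ω : ℕ → Type) (n d D : ℕ) : Type :=
  (Fin n → Fin D → F) × (∀ S : Finset (Fin n), Ω (d - S.card))

/-- `α` makes `e` a member -/
def Good (A : ∀ m, Ω m → Finset (Finset (Fin n))) (ω : Om F Ω n d D) (e : Finset (Fin n))
    (α : Fin n → F) : Prop :=
  α ≠ 0 ∧ (∀ v, v ∉ e → α v = 0) ∧ ∑ v, α v • ω.1 v = 0 ∧
    (e \ supp α) ∈ A (d - (supp α).card) (ω.2 (supp α))

omit [Fintype F] [DecidableEq F] in
theorem sum_smul (c : F) (α : Fin n → F) (ξ : Fin n → Fin D → F) :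
    ∑ v, (c • α) v • ξ v = c • ∑ v, α v • ξ v := by
  rw [Finset.smul_sum]
  apply Finset.sum_congr rfl
  intro v _
  simp [mul_smul]

omit [Fintype F] [∀ m, Fintype (Ω m)] [∀ m, Nonempty (Ω m)] in
theorem Good.smul {A : ∀ m, Ω m → Finset (Finset (Fin n))} {ω : Om F Ω n d D}
    {e : Finset (Fin n)} {α : Fin n → F} (h : Good A ω e α) {c : F} (hc : c ≠ 0) :
    Good A ω e (c • α) := by
  obtain ⟨h1, h2, h3, h4⟩ := h
  refine ⟨smul_ne_zero hc h1, fun v hv => by simp [h2 v hv], ?_, ?_⟩
  · rw [sum_smul, h3, smul_zero]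
  · rw [supp_smul hc]; exact h4

open Classical in
/-- the random family -/
noncomputable def fam (A : ∀ m, Ω m → Finset (Finset (Fin n))) (ω : Om F Ω n d D) :
    Finset (Finset (Fin n)) :=
  ((univ : Finset (Fin n)).powersetCard d).filter fun e => ∃ α : Fin n → F, Good A ω e α

omit [Fintype F] in
theorem supp_sub {e : Finset (Fin n)} {α : Fin n → F} (hs : ∀ v, v ∉ e → α v = 0) :
    supp α ⊆ e := by
  intro v hv
  by_contra hh
  simp only [supp, mem_filter, mem_univ, true_and] at hv
  exact hv (hs v hh)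

omit [Fintype F] in
theorem supp_pos {α : Fin n → F} (hα : α ≠ 0) : 1 ≤ (supp α).card := by
  rw [Nat.one_le_iff_ne_zero, Ne, Finset.card_eq_zero]
  intro hh
  apply hα
  ext v
  by_contra hv
  have : v ∈ supp α := by simp [supp]; exact hv
  rw [hh] at this
  simp at this

theorem cond_count (α : Fin n → F) (hα : α ≠ 0)
    {p : ℝ} (Q : Ω (d - (supp α).card) → Prop) [DecidablePred Q]
    (hQ : ((univ.filter Q).card : ℝ) ≤ p * (Fintype.card (Ω (d - (supp α).card)) : ℝ)) :
    ((univ.filter fun ω : Om F Ω n d D => ∑ v, α v • ω.1 v = 0 ∧ Q (ω.2 (supp α))).card : ℝ)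
      ≤ p / (Fintype.card F : ℝ) ^ D * (Fintype.card (Om F Ω n d D) : ℝ) := by
  classical
  have hsplit : (univ.filter fun ω : Om F Ω n d D => ∑ v, α v • ω.1 v = 0 ∧ Q (ω.2 (supp α)))
      = (univ.filter fun ξ : Fin n → Fin D → F => ∑ v, α v • ξ v = 0) ×ˢ
        (univ.filter fun π : (∀ S : Finset (Fin n), Ω (d - S.card)) => Q (π (supp α))) := by
    ext ω
    rw [mem_product, mem_filter, mem_filter, mem_filter]
    simp only [mem_univ, true_and]
  rw [hsplit, Finset.card_product, Nat.cast_mul]
  have hq : (0 : ℝ) < (Fintype.card F : ℝ) := by exact_mod_cast Fintype.card_pos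
  have c1 := dep_count (d := D) α hα
  have c2 := coord_count (P := fun S : Finset (Fin n) => Ω (d - S.card)) (supp α) Q
  have hP : (0 : ℝ) < (Fintype.card (Ω (d - (supp α).card)) : ℝ) := by
    exact_mod_cast Fintype.card_pos
  have c4 : ((univ.filter fun π : (∀ S : Finset (Fin n), Ω (d - S.card)) =>
      Q (π (supp α))).card : ℝ) ≤
      p * (Fintype.card (∀ S : Finset (Fin n), Ω (d - S.card)) : ℝ) := by
    have h5 : ((univ.filter fun π : (∀ S : Finset (Fin n), Ω (d - S.card)) =>
          Q (π (supp α))).card : ℝ) * (Fintype.card (Ω (d - (supp α).card)) : ℝ)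
        ≤ (p * (Fintype.card (∀ S : Finset (Fin n), Ω (d - S.card)) : ℝ))
          * (Fintype.card (Ω (d - (supp α).card)) : ℝ) := by
      rw [c2]
      calc _ ≤ (p * (Fintype.card (Ω (d - (supp α).card)) : ℝ))
            * (Fintype.card (∀ S : Finset (Fin n), Ω (d - S.card)) : ℝ) := by
            gcongr
        _ = _ := by ring
    exact le_of_mul_le_mul_right h5 hP
  have hqd : (0 : ℝ) < (Fintype.card F : ℝ) ^ D := by positivity
  have c5 : ((univ.filter fun ξ : Fin n → Fin D → F => ∑ v, α v • ξ v = 0).card : ℝ)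
      = (Fintype.card (Fin n → Fin D → F) : ℝ) / (Fintype.card F : ℝ) ^ D := by
    rw [eq_div_iff hqd.ne', c1]
  rw [c5, Fintype.card_prod, Nat.cast_mul]
  calc _ ≤ (Fintype.card (Fin n → Fin D → F) : ℝ) / (Fintype.card F : ℝ) ^ D *
        (p * (Fintype.card (∀ S : Finset (Fin n), Ω (d - S.card)) : ℝ)) := by
        gcongr
    _ = _ := by ring

/-- density of the random family -/
theorem density {A : ∀ m, Ω m → Finset (Finset (Fin n))} {a : ℕ → ℝ}
    (hA2 : ∀ m, m < d → ∀ Z : Finset (Fin n), Z.card = m → ∀ [DecidablePred fun ω => Z ∈ A m ω],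
      ((univ.filter fun ω => Z ∈ A m ω).card : ℝ) ≤ a m * (Fintype.card (Ω m) : ℝ))
    (e : Finset (Fin n)) (he : e.card = d) [DecidablePred fun ω : Om F Ω n d D => e ∈ fam A ω] :
    ((univ.filter fun ω : Om F Ω n d D => e ∈ fam A ω).card : ℝ) ≤
      (∑ m ∈ range d, (d.choose m : ℝ) * ((Fintype.card F : ℝ) - 1) ^ (d - m - 1) /
        (Fintype.card F : ℝ) ^ D * a m) * (Fintype.card (Om F Ω n d D) : ℝ) := by
  classical
  have hq1 : 1 < Fintype.card F := Fintype.one_lt_card
  have hq : (0 : ℝ) < (Fintype.card F : ℝ) := by exact_mod_cast Fintype.card_pos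
  have hq' : (0 : ℝ) < (Fintype.card F : ℝ) - 1 := by
    have : (1 : ℝ) < (Fintype.card F : ℝ) := by exact_mod_cast hq1
    linarith
  have hqc : ((Fintype.card F - 1 : ℕ) : ℝ) = (Fintype.card F : ℝ) - 1 := by
    rw [Nat.cast_sub hq1.le]; simp
  have key : ((Fintype.card F - 1 : ℕ) : ℝ) *
      ((univ.filter fun ω : Om F Ω n d D => e ∈ fam A ω).card : ℝ)
      ≤ ∑ α ∈ univ.filter (fun α : Fin n → F => α ≠ 0 ∧ ∀ v, v ∉ e → α v = 0),
        a (e \ supp α).card / (Fintype.card F : ℝ) ^ D * (Fintype.card (Om F Ω n d D) : ℝ) := by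
    have s1 : (Fintype.card F - 1) * (univ.filter fun ω : Om F Ω n d D => e ∈ fam A ω).card
        ≤ ∑ ω : Om F Ω n d D, (univ.filter fun α : Fin n → F => Good A ω e α).card := by
      calc (Fintype.card F - 1) * (univ.filter fun ω : Om F Ω n d D => e ∈ fam A ω).card
          = ∑ ω ∈ univ.filter (fun ω : Om F Ω n d D => e ∈ fam A ω), (Fintype.card F - 1) := by
            rw [Finset.sum_const, smul_eq_mul, mul_comm]
        _ ≤ ∑ ω ∈ univ.filter (fun ω : Om F Ω n d D => e ∈ fam A ω),
              (univ.filter fun α : Fin n → F => Good A ω e α).card := by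
            apply Finset.sum_le_sum
            intro ω hω
            rw [mem_filter] at hω
            have h2 := hω.2
            rw [fam, mem_filter] at h2
            obtain ⟨α, hα⟩ := h2.2
            apply scalar_count
            · exact ⟨α, by rw [mem_filter]; exact ⟨mem_univ _, hα⟩⟩
            · intro β hβ; rw [mem_filter] at hβ; exact hβ.2.1
            · intro β hβ c hc; rw [mem_filter] at hβ ⊢
              exact ⟨mem_univ _, hβ.2.smul hc⟩
        _ ≤ _ := Finset.sum_le_sum_of_subset (filter_subset _ _)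
    have s2 : ∑ ω : Om F Ω n d D, (univ.filter fun α : Fin n → F => Good A ω e α).card
        = ∑ α ∈ univ.filter (fun α : Fin n → F => α ≠ 0 ∧ ∀ v, v ∉ e → α v = 0),
          (univ.filter fun ω : Om F Ω n d D => ∑ v, α v • ω.1 v = 0 ∧
            (e \ supp α) ∈ A (d - (supp α).card) (ω.2 (supp α))).card := by
      simp_rw [Finset.card_filter]
      rw [Finset.sum_comm, Finset.sum_filter]
      apply Finset.sum_congr rfl
      intro α _
      by_cases h : α ≠ 0 ∧ ∀ v, v ∉ e → α v = 0
      · rw [if_pos h]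
        apply Finset.sum_congr rfl
        intro ω _
        congr 1
        simp only [Good, eq_iff_iff]
        constructor
        · rintro ⟨_, _, h3, h4⟩; exact ⟨h3, h4⟩
        · rintro ⟨h3, h4⟩; exact ⟨h.1, h.2, h3, h4⟩
      · rw [if_neg h]
        apply Finset.sum_eq_zero
        intro ω _
        rw [if_neg]
        rintro ⟨h1, h2, _, _⟩
        exact h ⟨h1, h2⟩
    have s3 : (((Fintype.card F - 1) *
        (univ.filter fun ω : Om F Ω n d D => e ∈ fam A ω).card : ℕ) : ℝ)
        ≤ ((∑ α ∈ univ.filter (fun α : Fin n → F => α ≠ 0 ∧ ∀ v, v ∉ e → α v = 0),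
          (univ.filter fun ω : Om F Ω n d D => ∑ v, α v • ω.1 v = 0 ∧
            (e \ supp α) ∈ A (d - (supp α).card) (ω.2 (supp α))).card : ℕ) : ℝ) := by
      exact_mod_cast (s1.trans_eq s2)
    rw [Nat.cast_mul] at s3
    refine s3.trans ?_
    rw [Nat.cast_sum]
    apply Finset.sum_le_sum
    intro α hα
    rw [mem_filter] at hα
    have hsub := supp_sub hα.2.2
    have hpos := supp_pos hα.2.1
    have hcard : (e \ supp α).card = d - (supp α).card := by
      rw [Finset.card_sdiff_of_subset hsub, he]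
    have hle : (supp α).card ≤ d := by rw [← he]; exact Finset.card_le_card hsub
    rw [hcard]
    exact cond_count α hα.2.1 (fun ω => (e \ supp α) ∈ A (d - (supp α).card) ω)
      (hA2 _ (by omega) _ hcard)
  -- evaluate the sum by the number of zeros
  have key2 : ∑ α ∈ univ.filter (fun α : Fin n → F => α ≠ 0 ∧ ∀ v, v ∉ e → α v = 0),
        a (e \ supp α).card / (Fintype.card F : ℝ) ^ D * (Fintype.card (Om F Ω n d D) : ℝ)
      = ((Fintype.card F : ℝ) - 1) * (∑ m ∈ range d, (d.choose m : ℝ) *
        ((Fintype.card F : ℝ) - 1) ^ (d - m - 1) / (Fintype.card F : ℝ) ^ D * a m)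
          * (Fintype.card (Om F Ω n d D) : ℝ) := by
    have hmap : ∀ α ∈ univ.filter (fun α : Fin n → F => α ≠ 0 ∧ ∀ v, v ∉ e → α v = 0),
        (e \ supp α).card ∈ range d := by
      intro α hα
      rw [mem_filter] at hα
      have hsub := supp_sub hα.2.2
      have hpos := supp_pos hα.2.1
      have hle : (supp α).card ≤ d := by rw [← he]; exact Finset.card_le_card hsub
      rw [mem_range, Finset.card_sdiff_of_subset hsub, he]
      omega
    rw [← Finset.sum_fiberwise_of_maps_to hmap]
    rw [Finset.mul_sum, Finset.sum_mul]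
    apply Finset.sum_congr rfl
    intro m hm
    rw [mem_range] at hm
    have hcongr : ∀ α ∈ (univ.filter (fun α : Fin n → F => α ≠ 0 ∧ ∀ v, v ∉ e → α v = 0)).filter
          (fun α => (e \ supp α).card = m),
        a (e \ supp α).card / (Fintype.card F : ℝ) ^ D * (Fintype.card (Om F Ω n d D) : ℝ)
        = a m / (Fintype.card F : ℝ) ^ D * (Fintype.card (Om F Ω n d D) : ℝ) := by
      intro α hα
      rw [mem_filter] at hα
      rw [hα.2]
    rw [Finset.sum_congr rfl hcongr, Finset.sum_const, nsmul_eq_mul]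
    have hset : ((univ.filter (fun α : Fin n → F => α ≠ 0 ∧ ∀ v, v ∉ e → α v = 0)).filter
          (fun α => (e \ supp α).card = m)).card
        = e.card.choose m * (Fintype.card F - 1) ^ (e.card - m) := by
      rw [← supp_count e]
      congr 1
      ext α
      have hs : e \ supp α = e.filter fun v => α v = 0 := by
        ext v; simp [supp]
      simp only [mem_filter, mem_univ, true_and, hs]
      constructor
      · rintro ⟨⟨_, h2⟩, h3⟩; exact ⟨h2, h3⟩
      · rintro ⟨h2, h3⟩
        refine ⟨⟨?_, h2⟩, h3⟩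
        rintro rfl
        have : (e.filter fun v => (0 : Fin n → F) v = 0) = e := by
          ext v; simp
        rw [this, he] at h3
        omega
    rw [hset, he]
    have hp : (((Fintype.card F - 1) ^ (d - m) : ℕ) : ℝ)
        = ((Fintype.card F : ℝ) - 1) ^ (d - m - 1) * ((Fintype.card F : ℝ) - 1) := by
      rw [Nat.cast_pow, hqc, ← pow_succ]
      congr 1; omega
    rw [Nat.cast_mul, hp]
    ring
  rw [hqc] at key
  rw [key2, mul_assoc] at key
  exact le_of_mul_le_mul_left key hq'

/-- the probability of a failure given a dependency with `j` zeros -/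
noncomputable def ff (R : ℕ) (Φ : ℕ → ℝ) (j : ℕ) : ℝ := if j < R then 1 else Φ (j - R)

/-- the failure probability of the composite code -/
noncomputable def detFF (R d q : ℕ) (Φ : ℕ → ℝ) : ℝ :=
  ∑ j ∈ range (d + R), ((d + R).choose j : ℝ) * ((q : ℝ) - 1) ^ (d + R - j - 1) /
    (q : ℝ) ^ (d + R - 1) * ff R Φ j

omit [∀ m, Fintype (Ω m)] [∀ m, Nonempty (Ω m)] in
/-- a failure produces a dependency supported in `Y` with fewer than `R` zeros in `Y`, or a
dependency whose set of zeros contains no member of its random family -/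
theorem fail_dep {R : ℕ} (hR : 1 ≤ R) {A : ∀ m, Ω m → Finset (Finset (Fin n))}
    (hA1 : ∀ m, m < d → ∀ ω, ∀ Z ∈ A m ω, Z.card = m)
    {Y : Finset (Fin n)} (hY : Y.card = d + R) (ω : Om F Ω n d (d + R - 1))
    (hω : ¬ ∃ Z ∈ fam A ω, Z ⊆ Y) :
    ∃ α : Fin n → F, α ≠ 0 ∧ (∀ v, v ∉ Y → α v = 0) ∧ ∑ v, α v • ω.1 v = 0 ∧
      ((Y.filter fun v => α v = 0).card < R ∨
        ¬ ∃ Z ∈ A (d - (supp α).card) (ω.2 (supp α)), Z ⊆ Y \ supp α) := by
  classical
  obtain ⟨α, h0, h1, h2⟩ := exists_dep ω.1 Y (by rw [hY]; omega)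
  refine ⟨α, h0, h1, h2, ?_⟩
  by_contra hcon
  push Not at hcon
  obtain ⟨hcon, Z, hZ1, hZ2⟩ := hcon
  apply hω
  have hsub : supp α ⊆ Y := supp_sub h1
  have hZe : (Y.filter fun v => α v = 0) = Y \ supp α := by
    ext v; simp [supp]
  rw [hZe] at hcon
  have hpos := supp_pos h0
  have hZcard : (Y \ supp α).card + (supp α).card = d + R := by
    rw [← hY]; exact Finset.card_sdiff_add_card_eq_card hsub
  have hZc : Z.card = d - (supp α).card := hA1 _ (by omega) _ Z hZ1
  have hdisj : Disjoint (supp α) Z := by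
    rw [Finset.disjoint_left]
    intro v hv hv'
    exact (mem_sdiff.1 (hZ2 hv')).2 hv
  refine ⟨supp α ∪ Z, ?_, union_subset hsub (hZ2.trans sdiff_subset)⟩
  rw [fam, mem_filter, mem_powersetCard]
  refine ⟨⟨subset_univ _, by rw [card_union_of_disjoint hdisj, hZc]; omega⟩, α, h0, ?_, h2, ?_⟩
  · intro v hv
    by_contra hh
    exact hv (mem_union_left _ (by simp [supp, hh]))
  · have hd : (supp α ∪ Z) \ supp α = Z := by
      rw [Finset.union_sdiff_left]
      exact Finset.sdiff_eq_self_of_disjoint hdisj.symm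
    rw [hd]
    exact hZ1

/-- failure probability of the random family -/
theorem failure {R : ℕ} (hR : 1 ≤ R) {A : ∀ m, Ω m → Finset (Finset (Fin n))} {Φ : ℕ → ℝ}
    (hA1 : ∀ m, m < d → ∀ ω, ∀ Z ∈ A m ω, Z.card = m)
    (hA3 : ∀ m, m < d → ∀ Y : Finset (Fin n), Y.card = m + R →
      ∀ [DecidablePred fun ω => ¬ ∃ Z ∈ A m ω, Z ⊆ Y],
      ((univ.filter fun ω => ¬ ∃ Z ∈ A m ω, Z ⊆ Y).card : ℝ) ≤ Φ m * (Fintype.card (Ω m) : ℝ))
    {Y : Finset (Fin n)} (hY : Y.card = d + R)
    [DecidablePred fun ω : Om F Ω n d (d + R - 1) => ¬ ∃ Z ∈ fam A ω, Z ⊆ Y] :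
    ((univ.filter fun ω : Om F Ω n d (d + R - 1) => ¬ ∃ Z ∈ fam A ω, Z ⊆ Y).card : ℝ) ≤
      detFF R d (Fintype.card F) Φ * (Fintype.card (Om F Ω n d (d + R - 1)) : ℝ) := by
  classical
  have hq1 : 1 < Fintype.card F := Fintype.one_lt_card
  have hq : (0 : ℝ) < (Fintype.card F : ℝ) := by exact_mod_cast Fintype.card_pos
  have hq' : (0 : ℝ) < (Fintype.card F : ℝ) - 1 := by
    have : (1 : ℝ) < (Fintype.card F : ℝ) := by exact_mod_cast hq1
    linarith
  have hqc : ((Fintype.card F - 1 : ℕ) : ℝ) = (Fintype.card F : ℝ) - 1 := by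
    rw [Nat.cast_sub hq1.le]; simp
  have hqd : (0 : ℝ) < (Fintype.card F : ℝ) ^ (d + R - 1) := by positivity
  set Bad : (Fin n → F) → Om F Ω n d (d + R - 1) → Prop := fun α ω =>
    ∑ v, α v • ω.1 v = 0 ∧ ((Y.filter fun v => α v = 0).card < R ∨
        ¬ ∃ Z ∈ A (d - (supp α).card) (ω.2 (supp α)), Z ⊆ Y \ supp α) with hBad
  set S : Finset (Fin n → F) :=
    univ.filter (fun α : Fin n → F => α ≠ 0 ∧ (∀ v, v ∉ Y → α v = 0)) with hS
  have key : (Fintype.card F - 1) *
      (univ.filter fun ω : Om F Ω n d (d + R - 1) => ¬ ∃ Z ∈ fam A ω, Z ⊆ Y).card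
      ≤ ∑ α ∈ S, (univ.filter fun ω : Om F Ω n d (d + R - 1) => Bad α ω).card := by
    calc (Fintype.card F - 1) *
          (univ.filter fun ω : Om F Ω n d (d + R - 1) => ¬ ∃ Z ∈ fam A ω, Z ⊆ Y).card
        = ∑ ω ∈ univ.filter (fun ω : Om F Ω n d (d + R - 1) => ¬ ∃ Z ∈ fam A ω, Z ⊆ Y),
            (Fintype.card F - 1) := by
          rw [Finset.sum_const, smul_eq_mul, mul_comm]
      _ ≤ ∑ ω ∈ univ.filter (fun ω : Om F Ω n d (d + R - 1) => ¬ ∃ Z ∈ fam A ω, Z ⊆ Y),
            (univ.filter fun α : Fin n → F => α ∈ S ∧ Bad α ω).card := by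
          apply Finset.sum_le_sum
          intro ω hω
          rw [mem_filter] at hω
          obtain ⟨α, hα0, hα1, hα2, hα3⟩ := fail_dep hR hA1 hY ω hω.2
          apply scalar_count
          · exact ⟨α, by
              rw [mem_filter, hS, mem_filter]
              exact ⟨mem_univ _, ⟨mem_univ _, hα0, hα1⟩, hα2, hα3⟩⟩
          · intro β hβ
            rw [mem_filter, hS, mem_filter] at hβ
            exact hβ.2.1.2.1
          · intro β hβ c hc
            rw [mem_filter, hS, mem_filter] at hβ ⊢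
            obtain ⟨-, ⟨-, b1, b2⟩, b4, b5⟩ := hβ
            refine ⟨mem_univ _, ⟨mem_univ _, smul_ne_zero hc b1, fun v hv => by simp [b2 v hv]⟩,
              ?_, ?_⟩
            · rw [sum_smul, b4, smul_zero]
            · have h5 : (Y.filter fun v => (c • β) v = 0) = Y.filter fun v => β v = 0 := by
                apply Finset.filter_congr
                intro v _
                simp [hc]
              rw [h5, supp_smul hc]
              exact b5
      _ ≤ ∑ ω : Om F Ω n d (d + R - 1),
            (univ.filter fun α : Fin n → F => α ∈ S ∧ Bad α ω).card :=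
          Finset.sum_le_sum_of_subset (filter_subset _ _)
      _ = _ := by
          simp_rw [Finset.card_filter]
          rw [Finset.sum_comm, ← Finset.sum_filter_add_sum_filter_not univ (fun α => α ∈ S)]
          have z : ∑ α ∈ univ.filter (fun α : Fin n → F => ¬ α ∈ S),
              ∑ ω : Om F Ω n d (d + R - 1), (if α ∈ S ∧ Bad α ω then 1 else 0) = 0 := by
            apply Finset.sum_eq_zero
            intro α hα
            rw [mem_filter] at hα
            apply Finset.sum_eq_zero
            intro ω _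
            rw [if_neg]
            exact fun h => hα.2 h.1
          rw [z, add_zero]
          have z2 : univ.filter (fun α : Fin n → F => α ∈ S) = S := by
            ext α; simp
          rw [z2]
          apply Finset.sum_congr rfl
          intro α hα
          apply Finset.sum_congr rfl
          intro ω _
          simp [hα]
  have hYe : ∀ α ∈ S,
      ((univ.filter fun ω : Om F Ω n d (d + R - 1) => Bad α ω).card : ℝ)
        ≤ ff R Φ (Y.filter fun v => α v = 0).card / (Fintype.card F : ℝ) ^ (d + R - 1) *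
          (Fintype.card (Om F Ω n d (d + R - 1)) : ℝ) := by
    intro α hα
    rw [hS, mem_filter] at hα
    have h0 : α ≠ 0 := hα.2.1
    have hsub : supp α ⊆ Y := supp_sub hα.2.2
    have hZe : (Y.filter fun v => α v = 0) = Y \ supp α := by
      ext v; simp [supp]
    by_cases hlt : (Y.filter fun v => α v = 0).card < R
    · have h1 := cond_count (Ω := Ω) (D := d + R - 1) (d := d) α h0 (p := 1)
        (fun _ => True) (by simp)
      have h2 : (univ.filter fun ω : Om F Ω n d (d + R - 1) => Bad α ω) =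
          univ.filter fun ω : Om F Ω n d (d + R - 1) => ∑ v, α v • ω.1 v = 0 ∧ True := by
        ext ω
        simp only [hBad, mem_filter, mem_univ, true_and, hlt, true_or]
      rw [h2, ff, if_pos hlt]
      exact h1
    · have hpos := supp_pos h0
      have hZcard : (Y \ supp α).card + (supp α).card = d + R := by
        rw [← hY]; exact Finset.card_sdiff_add_card_eq_card hsub
      have hge : R ≤ (Y \ supp α).card := by rw [← hZe]; omega
      have hcard : (Y \ supp α).card = (d - (supp α).card) + R := by omega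
      have h1 := cond_count (Ω := Ω) (D := d + R - 1) (d := d) α h0
        (p := Φ (d - (supp α).card))
        (fun ω => ¬ ∃ Z ∈ A (d - (supp α).card) ω, Z ⊆ Y \ supp α) (hA3 _ (by omega) _ hcard)
      have h2 : (univ.filter fun ω : Om F Ω n d (d + R - 1) => Bad α ω) =
          univ.filter fun ω : Om F Ω n d (d + R - 1) => ∑ v, α v • ω.1 v = 0 ∧
            ¬ ∃ Z ∈ A (d - (supp α).card) (ω.2 (supp α)), Z ⊆ Y \ supp α := by
        ext ω
        simp only [hBad, mem_filter, mem_univ, true_and, hlt, false_or]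
      rw [h2, ff, if_neg hlt, hZe, hcard, Nat.add_sub_cancel]
      exact h1
  have hsum : ∑ α ∈ S, ff R Φ (Y.filter fun v => α v = 0).card =
      ((Fintype.card F : ℝ) - 1) * ∑ j ∈ range (d + R), ((d + R).choose j : ℝ) *
        ((Fintype.card F : ℝ) - 1) ^ (d + R - j - 1) * ff R Φ j := by
    have hmap : ∀ α ∈ S, (Y.filter fun v => α v = 0).card ∈ range (d + R) := by
      intro α hα
      rw [hS, mem_filter] at hα
      have hsub : supp α ⊆ Y := supp_sub hα.2.2
      have hpos := supp_pos hα.2.1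
      have hZe : (Y.filter fun v => α v = 0) = Y \ supp α := by
        ext v; simp [supp]
      have hZcard : (Y \ supp α).card + (supp α).card = d + R := by
        rw [← hY]; exact Finset.card_sdiff_add_card_eq_card hsub
      rw [mem_range, hZe]
      omega
    rw [← Finset.sum_fiberwise_of_maps_to hmap, Finset.mul_sum]
    apply Finset.sum_congr rfl
    intro j hj
    rw [mem_range] at hj
    have hcongr : ∀ α ∈ S.filter (fun α => (Y.filter fun v => α v = 0).card = j),
        ff R Φ (Y.filter fun v => α v = 0).card = ff R Φ j := by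
      intro α hα
      rw [mem_filter] at hα
      rw [hα.2]
    rw [Finset.sum_congr rfl hcongr, Finset.sum_const, nsmul_eq_mul]
    have hset : (S.filter fun α => (Y.filter fun v => α v = 0).card = j).card
        = Y.card.choose j * (Fintype.card F - 1) ^ (Y.card - j) := by
      rw [← supp_count Y]
      congr 1
      ext α
      rw [mem_filter, hS, mem_filter, mem_filter]
      constructor
      · rintro ⟨⟨_, _, h2⟩, h3⟩; exact ⟨mem_univ _, h2, h3⟩
      · rintro ⟨_, h2, h3⟩
        refine ⟨⟨mem_univ _, ?_, h2⟩, h3⟩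
        rintro rfl
        have : (Y.filter fun v => (0 : Fin n → F) v = 0) = Y := by
          ext v; simp
        rw [this, hY] at h3
        omega
    rw [hset, hY]
    have hp : (((Fintype.card F - 1) ^ (d + R - j) : ℕ) : ℝ)
        = ((Fintype.card F : ℝ) - 1) ^ (d + R - j - 1) * ((Fintype.card F : ℝ) - 1) := by
      rw [Nat.cast_pow, hqc, ← pow_succ]
      congr 1; omega
    rw [Nat.cast_mul, hp]
    ring
  have key' : ((Fintype.card F : ℝ) - 1) *
      ((univ.filter fun ω : Om F Ω n d (d + R - 1) => ¬ ∃ Z ∈ fam A ω, Z ⊆ Y).card : ℝ)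
      ≤ ((Fintype.card F : ℝ) - 1) *
        (detFF R d (Fintype.card F) Φ * (Fintype.card (Om F Ω n d (d + R - 1)) : ℝ)) := by
    have h1 : (((Fintype.card F - 1) *
      (univ.filter fun ω : Om F Ω n d (d + R - 1) => ¬ ∃ Z ∈ fam A ω, Z ⊆ Y).card : ℕ) : ℝ)
      ≤ ((∑ α ∈ S, (univ.filter fun ω : Om F Ω n d (d + R - 1) => Bad α ω).card : ℕ) : ℝ) := by
      exact_mod_cast key
    rw [Nat.cast_mul, hqc, Nat.cast_sum] at h1
    refine h1.trans ((Finset.sum_le_sum hYe).trans_eq ?_)
    rw [← Finset.sum_mul, ← Finset.sum_div, hsum, detFF, Finset.mul_sum, Finset.sum_mul,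
      Finset.sum_div, Finset.mul_sum, Finset.sum_mul]
    apply Finset.sum_congr rfl
    intro j _
    ring
  exact le_of_mul_le_mul_left key' hq'

end Comp

open Pool.Agent.J4.H85.GD.Comp in
/-- the composite code -/
theorem det_comp (F : Type) [Field F] [Fintype F] {R n d : ℕ} (hR : 1 ≤ R) {a Φ : ℕ → ℝ}
    (h : ∀ m, m < d → Rnd R n m (a m) (Φ m)) :
    Rnd R n d (detA R d (Fintype.card F) a) (detFF R d (Fintype.card F) Φ) := by
  classical
  have hex : ∀ m, ∃ (Ω : Type) (_ : Fintype Ω) (_ : Nonempty Ω)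
      (A : Ω → Finset (Finset (Fin n))), m < d → (∀ ω, ∀ Z ∈ A ω, Z.card = m) ∧
      (∀ Z : Finset (Fin n), Z.card = m →
        ((univ.filter fun ω => Z ∈ A ω).card : ℝ) ≤ a m * (Fintype.card Ω : ℝ)) ∧
      (∀ Y : Finset (Fin n), Y.card = m + R →
        ((univ.filter fun ω => ¬ ∃ Z ∈ A ω, Z ⊆ Y).card : ℝ) ≤ Φ m * (Fintype.card Ω : ℝ)) := by
    intro m
    by_cases hm : m < d
    · obtain ⟨Ω, i1, i2, A, h1, h2, h3⟩ := h m hm
      refine ⟨Ω, i1, i2, A, fun _ => ⟨h1, ?_, ?_⟩⟩
      · intro Z hZ
        convert h2 Z hZ using 2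
      · intro Y hY
        convert h3 Y hY using 2
    · exact ⟨Unit, inferInstance, inferInstance, fun _ => ∅, fun h => absurd h hm⟩
  choose Ω i1 i2 A hA using hex
  refine ⟨Om F Ω n d (d + R - 1), inferInstance, inferInstance, fam A, ?_, ?_, ?_⟩
  · intro ω Z hZ
    rw [fam, mem_filter, mem_powersetCard] at hZ
    exact hZ.1.2
  · intro e he
    refine density (fun m hm Z hZ => ?_) e he
    intro _
    convert (hA m hm).2.1 Z hZ using 4
  · intro Y hY
    refine failure hR (fun m hm => (hA m hm).1) (fun m hm Z hZ => ?_) hY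
    intro _
    convert (hA m hm).2.2 Z hZ using 4

end Pool.Agent.J4.H85.GD
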