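import Pool.Agent.J4.H85.GD.Defs
import Pool.Agent.H120R2.CliqueDefs
import Pool.Agent.H688R3.TuranGenBase
import Pool.Agent.R81.UDC.Num
import Pool.Agent.TH440.DC.Main

/-!
# The numbers `t(k+R, k) = 1 - π(K_{k+R}^k)` for a fixed `R`
-/

set_option autoImplicit false

open Finset Filter Topology

namespace Pool.Agent.J4.H85.GD

open Pool.Agent.H688R3.TuranGen (t c Cov exists_cov c_le_t)

/-- `t(k+R, k)`, the density `1 - π(K_{k+R}^k)` -/
noncomputable def tt (R k : ℕ) : ℝ := 1 - Pool.Agent.H120R2.Clique.turanDensity k (k + R)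

theorem tur_tt (R k : ℕ) : Tur R k (tt R k) := by
  intro n
  obtain ⟨F, hF, hFc⟩ := exists_cov (Nat.le_add_right k R) n
  refine ⟨F, hF.1, hF.2, ?_⟩
  rw [hFc]
  exact c_le_t k (k + R) n

theorem tt_le {R k : ℕ} {δ : ℝ} (h : Tur R k δ) : tt R k ≤ δ := by
  have h1 : 1 - δ ≤ Pool.Agent.H120R2.Clique.turanDensity k (k + R) := by
    apply Pool.Agent.H120R2.Clique.le_density
    intro n
    obtain ⟨T, h1, h2, h3⟩ := h n
    have hcov := Pool.Agent.H120R2.Clique.ex_ge_of_cover (k := k) (m := k + R) T (by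
      intro X hX
      obtain ⟨Z, hZ, hZX⟩ := h2 X hX
      exact ⟨Z, hZ, h1 Z hZ, hZX⟩)
    have h4 : (n.choose k : ℝ) ≤ Pool.Agent.H120R2.Clique.ex n k (k + R) + T.card := by
      exact_mod_cast hcov
    linarith
  unfold tt
  linarith

theorem tt_nonneg (R k : ℕ) : 0 ≤ tt R k :=
  Pool.Agent.H688R3.TuranGen.t_nonneg (Nat.le_add_right k R)

theorem tur_all (R k : ℕ) : Tur R k 1 := by
  classical
  intro n
  refine ⟨powersetCard k univ, fun Z hZ => (mem_powersetCard.1 hZ).2, ?_, ?_⟩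
  · intro Y hY
    obtain ⟨Z, hZ, hZc⟩ := Finset.exists_subset_card_eq (show k ≤ Y.card by omega)
    exact ⟨Z, mem_powersetCard.2 ⟨subset_univ _, hZc⟩, hZ⟩
  · simp

theorem tt_le_one (R k : ℕ) : tt R k ≤ 1 := tt_le (tur_all R k)

theorem tt_succ_le (R k : ℕ) : tt R (k + 1) ≤ tt R k := tt_le (tur_tt R k).succ

theorem tt_anti (R : ℕ) : Antitone (tt R) := antitone_nat_of_succ_le (tt_succ_le R)

/-- `C(k+R, R) t(k+R, k)` -/
noncomputable def CC (R k : ℕ) : ℝ := ((k + R).choose R : ℝ) * tt R k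

theorem CC_nonneg (R k : ℕ) : 0 ≤ CC R k := mul_nonneg (Nat.cast_nonneg _) (tt_nonneg R k)

theorem CC_le_log {R : ℕ} (hR : 1 ≤ R) {k : ℕ} (hk : 2 ≤ k) :
    CC R k ≤ 4 + 10 * R * Real.log (3 * R) := Pool.Agent.R81.UDC.B_le hR k hk

/-- a bound for all `C(k+R, R) t(k+R, k)` -/
noncomputable def KK (R : ℕ) : ℝ := 4 + 10 * R * Real.log (3 * R) + ((1 + R).choose R : ℝ)

theorem log_nonneg' {R : ℕ} (hR : 1 ≤ R) : 0 ≤ Real.log (3 * (R : ℝ)) := by
  apply Real.log_nonneg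
  have : (1 : ℝ) ≤ R := by exact_mod_cast hR
  linarith

theorem CC_le {R : ℕ} (hR : 1 ≤ R) (k : ℕ) : CC R k ≤ KK R := by
  have hl := log_nonneg' hR
  rcases Nat.lt_or_ge k 2 with hk | hk
  · have h1 : ((k + R).choose R : ℝ) ≤ ((1 + R).choose R : ℝ) := by
      exact_mod_cast Nat.choose_le_choose R (by omega)
    have h2 : CC R k ≤ ((k + R).choose R : ℝ) * 1 :=
      mul_le_mul_of_nonneg_left (tt_le_one R k) (Nat.cast_nonneg _)
    unfold KK
    have h3 : 0 ≤ 10 * (R : ℝ) * Real.log (3 * R) := by positivity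
    linarith
  · have h := CC_le_log hR hk
    unfold KK
    have : (0 : ℝ) ≤ ((1 + R).choose R : ℝ) := Nat.cast_nonneg _
    linarith

theorem KK_pos {R : ℕ} (hR : 1 ≤ R) : 0 < KK R := by
  have hl := log_nonneg' hR
  unfold KK
  positivity

/-- de Caen's bound -/
theorem CC_ge {R : ℕ} (hR : 1 ≤ R) {k : ℕ} (hk : 3 ≤ k) : ((k : ℝ) + R) / k ≤ CC R k := by
  have h := (Pool.Agent.TH440.DC.main hk (show k < k + R by omega)).1
  unfold Pool.Agent.TH440.DC.DD at h
  have hk0 : (0 : ℝ) < k := by exact_mod_cast (show 0 < k by omega)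
  -- `C(k+R, R) k = (k + R) C(k+R-1, k-1)`
  obtain ⟨s, rfl⟩ : ∃ s, k = s + 1 := ⟨k - 1, by omega⟩
  have e0 : (s + 1 + R - 1).choose (s + 1 - 1) = (s + R).choose s := by
    congr 1; omega
  rw [e0] at h
  have e1 : ((s + 1 + R).choose R : ℝ) * ((s : ℝ) + 1) =
      ((s : ℝ) + 1 + R) * ((s + R).choose s : ℝ) := by
    have h1 := Nat.add_one_mul_choose_eq (s + R) s
    have h2 : (s + 1 + R).choose R = (s + R + 1).choose (s + 1) := by
      rw [← Nat.choose_symm_add]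
      congr 1; omega
    rw [h2]
    have h3 : ((s + R).succ : ℝ) * ((s + R).choose s : ℝ) =
        ((s + R + 1).choose (s + 1) : ℝ) * ((s : ℝ) + 1) := by
      exact_mod_cast h1
    rw [← h3]
    push_cast
    ring
  have hC : (0 : ℝ) < ((s + R).choose s : ℝ) := by
    exact_mod_cast Nat.choose_pos (show s ≤ s + R by omega)
  have h4 : 1 / ((s + R).choose s : ℝ) ≤ tt R (s + 1) := by
    unfold tt
    have h5 : (0 : ℝ) ≤ (1 / ((s + R).choose s : ℝ)) ^ 3 / 40 := by positivity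
    linarith
  rw [div_le_iff₀ hC] at h4
  unfold CC
  rw [div_le_iff₀ hk0]
  have e2 : ((s + 1 : ℕ) : ℝ) = (s : ℝ) + 1 := by push_cast; ring
  rw [e2]
  calc (s : ℝ) + 1 + R = ((s : ℝ) + 1 + R) * 1 := by ring
    _ ≤ ((s : ℝ) + 1 + R) * (tt R (s + 1) * ((s + R).choose s : ℝ)) :=
        mul_le_mul_of_nonneg_left h4 (by positivity)
    _ = (((s : ℝ) + 1 + R) * ((s + R).choose s : ℝ)) * tt R (s + 1) := by ring
    _ = (((s + 1 + R).choose R : ℝ) * ((s : ℝ) + 1)) * tt R (s + 1) := by rw [e1]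
    _ = _ := by ring

/-- `c_j = C(j, R) t(j, j-R)` -/
noncomputable def cj (R j : ℕ) : ℝ := (j.choose R : ℝ) * tt R (j - R)

theorem cj_add (R m : ℕ) : cj R (m + R) = CC R m := by
  unfold cj CC
  rw [Nat.add_sub_cancel]

theorem cj_of_lt {R j : ℕ} (h : j < R) : cj R j = 0 := by
  unfold cj
  rw [Nat.choose_eq_zero_of_lt h]
  simp

theorem cj_nonneg (R j : ℕ) : 0 ≤ cj R j := mul_nonneg (Nat.cast_nonneg _) (tt_nonneg _ _)

theorem cj_le {R : ℕ} (hR : 1 ≤ R) (j : ℕ) : cj R j ≤ KK R := by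
  rcases Nat.lt_or_ge j R with h | h
  · rw [cj_of_lt h]; exact (KK_pos hR).le
  · obtain ⟨m, rfl⟩ : ∃ m, j = m + R := ⟨j - R, by omega⟩
    rw [cj_add]
    exact CC_le hR m

theorem cj_abs {R : ℕ} (hR : 1 ≤ R) (j : ℕ) : |cj R j| ≤ KK R := by
  rw [abs_of_nonneg (cj_nonneg R j)]
  exact cj_le hR j

theorem summ (y : ℝ) {f : ℕ → ℝ} {M : ℝ} (hf : ∀ j, |f j| ≤ M) :
    Summable fun j : ℕ => f j * (y ^ j / (j.factorial : ℝ)) := by
  refine Summable.of_norm_bounded ((Real.summable_pow_div_factorial |y|).mul_left M) fun j => ?_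
  rw [norm_mul, norm_div, norm_pow, Real.norm_eq_abs, Real.norm_eq_abs, Real.norm_eq_abs,
    abs_of_pos (by positivity : (0 : ℝ) < (j.factorial : ℝ))]
  exact mul_le_mul_of_nonneg_right (hf j) (by positivity)

theorem exp_tsum (y : ℝ) : ∑' j : ℕ, y ^ j / (j.factorial : ℝ) = Real.exp y := by
  rw [Real.exp_eq_exp_ℝ]
  exact (congrFun NormedSpace.exp_eq_tsum_div y).symm

/-- the Poisson average of `cj` -/
noncomputable def G (R : ℕ) (y : ℝ) : ℝ :=
  Real.exp (-y) * ∑' j : ℕ, cj R j * (y ^ j / (j.factorial : ℝ))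

/-- the probability that a Poisson variable of mean `y` is `< R` -/
noncomputable def PP (R : ℕ) (y : ℝ) : ℝ :=
  Real.exp (-y) * ∑ j ∈ range R, y ^ j / (j.factorial : ℝ)

theorem G_eq {R : ℕ} (hR : 1 ≤ R) (y : ℝ) : G R y = y ^ R / (R.factorial : ℝ) *
    (Real.exp (-y) * ∑' k : ℕ, tt R k * (y ^ k / (k.factorial : ℝ))) := by
  have h : ∀ k : ℕ, cj R (k + R) * (y ^ (k + R) / ((k + R).factorial : ℝ)) =
      y ^ R / (R.factorial : ℝ) * (tt R k * (y ^ k / (k.factorial : ℝ))) := by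
    intro k
    rw [cj_add]
    unfold CC
    have h1 : ((k + R).choose R : ℝ) * (R.factorial : ℝ) * (k.factorial : ℝ) =
        ((k + R).factorial : ℝ) := by
      have h2 := Nat.choose_mul_factorial_mul_factorial (Nat.le_add_left R k)
      rw [Nat.add_sub_cancel] at h2
      exact_mod_cast h2
    have h3 : (0 : ℝ) < (R.factorial : ℝ) := by positivity
    have h4 : (0 : ℝ) < (k.factorial : ℝ) := by positivity
    have h5 : (0 : ℝ) < ((k + R).factorial : ℝ) := by positivity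
    rw [pow_add]
    field_simp
    rw [← h1]
    ring
  unfold G
  have h6 := (Summable.sum_add_tsum_nat_add R (summ y (cj_abs hR)))
  have h7 : ∑ j ∈ range R, cj R j * (y ^ j / (j.factorial : ℝ)) = 0 := by
    apply Finset.sum_eq_zero
    intro j hj
    rw [cj_of_lt (mem_range.1 hj), zero_mul]
  rw [h7, zero_add] at h6
  rw [← h6]
  simp_rw [h]
  rw [tsum_mul_left]
  ring

theorem PP_pos {R : ℕ} (hR : 1 ≤ R) {y : ℝ} (hy : 0 < y) : 0 < PP R y := by
  unfold PP
  apply mul_pos (Real.exp_pos _)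
  apply Finset.sum_pos
  · intro j _; positivity
  · exact ⟨0, by rw [mem_range]; omega⟩

theorem PP_lt_one (R : ℕ) {y : ℝ} (hy : 0 < y) : PP R y < 1 := by
  unfold PP
  have h1 : ∑ j ∈ range (R + 1), y ^ j / (j.factorial : ℝ) ≤ Real.exp y :=
    Real.sum_le_exp_of_nonneg hy.le _
  have h2 : ∑ j ∈ range R, y ^ j / (j.factorial : ℝ) < Real.exp y := by
    rw [Finset.sum_range_succ] at h1
    have : 0 < y ^ R / (R.factorial : ℝ) := by positivity
    linarith
  calc Real.exp (-y) * ∑ j ∈ range R, y ^ j / (j.factorial : ℝ) < Real.exp (-y) * Real.exp y :=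
        mul_lt_mul_of_pos_left h2 (Real.exp_pos _)
    _ = 1 := by rw [← Real.exp_add]; simp

end Pool.Agent.J4.H85.GD
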