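import Pool.Agent.J4.H85.GD.Det2
import Pool.Agent.J4.H85.GD.Seq

/-!
# Random families from systems and from single families; passing from `m` to `m + 1`
-/

set_option autoImplicit false

open Finset Filter Topology

namespace Pool.Agent.J4.H85.GD

open Pool.Agent.H369R2.TD (perm_count)

/-- a family of `r`-sets of a large set that covers almost all `(r + R)`-sets gives random families
on all smaller sets -/
theorem rnd_of_family {R r n N : ℕ} (hn : n ≤ N) {a ε : ℝ} (T : Finset (Finset (Fin N)))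
    (h1 : ∀ Z ∈ T, Z.card = r) (h2 : (T.card : ℝ) ≤ a * (N.choose r : ℝ))
    (U : Finset (Finset (Fin N))) (h3 : ∀ Y ∈ U, Y.card = r + R)
    (h4 : ∀ Y : Finset (Fin N), Y.card = r + R → Y ∉ U → ∃ Z ∈ T, Z ⊆ Y)
    (h5 : (U.card : ℝ) ≤ ε * (N.choose (r + R) : ℝ)) : Rnd R n r a ε := by
  classical
  let ι : Fin n ↪ Fin N := Fin.castLEEmb hn
  refine ⟨Equiv.Perm (Fin N), inferInstance, inferInstance,
    fun π => (powersetCard r univ).filter fun Z => (Z.map ι).map π.toEmbedding ∈ T, ?_, ?_, ?_⟩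
  · intro π Z hZ
    exact (mem_powersetCard.1 (mem_filter.1 hZ).1).2
  · intro Z hZ
    have h := perm_count T h1 h2 (Z.map ι) (by rw [card_map, hZ])
    refine le_trans (le_of_eq ?_) h
    congr 2
    ext π
    simp only [mem_filter, mem_univ, true_and, mem_powersetCard, subset_univ, hZ]
  · intro Y hY
    have h := perm_count U h3 h5 (Y.map ι) (by rw [card_map, hY])
    refine le_trans ?_ h
    refine Nat.cast_le.2 (card_le_card ?_)
    intro π hπ
    rw [mem_filter] at hπ ⊢
    refine ⟨mem_univ _, ?_⟩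
    by_contra hcon
    apply hπ.2
    obtain ⟨Z, hZ, hZY⟩ := h4 ((Y.map ι).map π.toEmbedding) (by rw [card_map, card_map, hY]) hcon
    obtain ⟨Z', hZ', hZe'⟩ := Finset.subset_map_iff.mp hZY
    obtain ⟨Z'', hZ'', hZe''⟩ := Finset.subset_map_iff.mp hZ'
    refine ⟨Z'', ?_, hZ''⟩
    rw [mem_filter, mem_powersetCard]
    have hc := h1 Z hZ
    rw [hZe', hZe'', card_map, card_map] at hc
    refine ⟨⟨subset_univ _, hc⟩, ?_⟩
    rw [← hZe'', ← hZe']
    exact hZ

theorem rnd_of_tur {R m : ℕ} {δ : ℝ} (h : Tur R m δ) (n : ℕ) : Rnd R n m δ 0 := by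
  obtain ⟨T, h1, h2, h3⟩ := h n
  exact rnd_of_family le_rfl T h1 h3 ∅ (by simp) (fun Y hY _ => h2 Y hY) (by simp)

theorem rnd_empty (R n d : ℕ) : Rnd R n d 0 1 :=
  ⟨Unit, inferInstance, inferInstance, fun _ => ∅, by simp, by simp, by simp⟩

theorem Rnd.mono {R n d : ℕ} {a a' Φ Φ' : ℝ} (h : Rnd R n d a Φ) (ha : a ≤ a') (hΦ : Φ ≤ Φ') :
    Rnd R n d a' Φ' := by
  obtain ⟨Ω, i1, i2, A, h1, h2, h3⟩ := h
  have hN : (0 : ℝ) ≤ (Fintype.card Ω : ℝ) := Nat.cast_nonneg _
  exact ⟨Ω, i1, i2, A, h1, fun Z hZ => (h2 Z hZ).trans (mul_le_mul_of_nonneg_right ha hN),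
    fun Y hY => (h3 Y hY).trans (mul_le_mul_of_nonneg_right hΦ hN)⟩

/-- the set `Y ∖ {max Y}` as a subset of `Fin (max Y)` -/
theorem lift_aux {n k : ℕ} {Y : Finset (Fin n)} (hY : Y.card = k + 1) :
    ∃ (v : Fin n) (Y' : Finset (Fin (v : ℕ))), v ∈ Y ∧ Y'.card = k ∧
      Y'.map (Fin.castLEEmb v.isLt.le) = Y.erase v := by
  classical
  have hne : Y.Nonempty := by
    rw [← card_pos, hY]; omega
  set v := Y.max' hne with hv
  have hvY : v ∈ Y := Y.max'_mem hne
  refine ⟨v, univ.filter fun x => Fin.castLEEmb v.isLt.le x ∈ Y.erase v, hvY, ?_, ?_⟩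
  all_goals
    have hmap : (univ.filter fun x : Fin (v : ℕ) => Fin.castLEEmb v.isLt.le x ∈ Y.erase v).map
        (Fin.castLEEmb v.isLt.le) = Y.erase v := by
      ext y
      simp only [Finset.mem_map, mem_filter, mem_univ, true_and]
      constructor
      · rintro ⟨x, hx, rfl⟩
        exact hx
      · intro hy
        have hyv : y < v := by
          have h1 := mem_erase.1 hy
          exact lt_of_le_of_ne (Y.le_max' y h1.2) h1.1
        refine ⟨⟨y, hyv⟩, ?_, ?_⟩
        · have : Fin.castLEEmb v.isLt.le ⟨y, hyv⟩ = y := by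
            apply Fin.ext
            simp
          rw [this]
          exact hy
        · apply Fin.ext
          simp
  · rw [← card_map (Fin.castLEEmb v.isLt.le), hmap, card_erase_of_mem hvY, hY]
    rfl
  · exact hmap

/-- from `m` to `m + 1` -/
theorem Rnd.succ {R m : ℕ} {a Φ : ℝ} (h : ∀ n, Rnd R n m a Φ) (n : ℕ) : Rnd R n (m + 1) a Φ := by
  classical
  choose Ω i1 i2 A h1 h2 h3 using h
  let emb : ∀ v : Fin n, Fin (v : ℕ) ↪ Fin n := fun v => Fin.castLEEmb v.isLt.le
  have hemb : ∀ (v : Fin n) (x : Fin (v : ℕ)), emb v x < v := by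
    intro v x
    simp only [emb, Fin.castLEEmb_apply, Fin.lt_def, Fin.val_castLE]
    exact x.isLt
  have hnot : ∀ (v : Fin n) (Z : Finset (Fin (v : ℕ))), v ∉ Z.map (emb v) := by
    intro v Z hv
    rw [Finset.mem_map] at hv
    obtain ⟨x, _, hx⟩ := hv
    have := hemb v x
    rw [hx] at this
    exact lt_irrefl _ this
  let B : (∀ v : Fin n, Ω v) → Finset (Finset (Fin n)) := fun ω =>
    univ.biUnion fun v : Fin n => (A v (ω v)).image fun Z => insert v (Z.map (emb v))
  refine ⟨∀ v : Fin n, Ω v, inferInstance, inferInstance, B, ?_, ?_, ?_⟩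
  · intro ω Z hZ
    simp only [B, mem_biUnion, mem_univ, true_and, mem_image] at hZ
    obtain ⟨v, Z', hZ', rfl⟩ := hZ
    rw [card_insert_of_notMem (hnot v Z'), card_map, h1 _ _ Z' hZ']
  · intro Z hZ
    obtain ⟨v, Z', hv, hZ', hmap⟩ := lift_aux hZ
    have hiff : ∀ ω : (∀ v : Fin n, Ω v), Z ∈ B ω → Z' ∈ A v (ω v) := by
      intro ω hω
      simp only [B, mem_biUnion, mem_univ, true_and, mem_image] at hω
      obtain ⟨w, W, hW, hWZ⟩ := hω
      have hins : insert v (Z'.map (emb v)) = Z := by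
        rw [show Z'.map (emb v) = Z.erase v from hmap, insert_erase hv]
      -- both `v` and `w` are the maximum of `Z`
      have hmaxv : ∀ x ∈ Z, x ≤ v := by
        intro x hx
        rw [← hins, mem_insert, Finset.mem_map] at hx
        rcases hx with rfl | ⟨y, _, rfl⟩
        · exact le_rfl
        · exact (hemb v y).le
      have hmaxw : ∀ x ∈ Z, x ≤ w := by
        intro x hx
        rw [← hWZ, mem_insert, Finset.mem_map] at hx
        rcases hx with rfl | ⟨y, _, rfl⟩
        · exact le_rfl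
        · exact (hemb w y).le
      have hwZ : w ∈ Z := by rw [← hWZ]; exact mem_insert_self _ _
      have hvw : v = w := le_antisymm (hmaxw v hv) (hmaxv w hwZ)
      subst hvw
      have : W.map (emb v) = Z'.map (emb v) := by
        have e1 : (insert v (W.map (emb v))).erase v = W.map (emb v) := erase_insert (hnot v W)
        have e2 : (insert v (Z'.map (emb v))).erase v = Z'.map (emb v) := erase_insert (hnot v Z')
        rw [← e1, ← e2, hWZ, hins]
      rw [← Finset.map_injective (emb v) this]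
      exact hW
    have hsub : (univ.filter fun ω : (∀ v : Fin n, Ω v) => Z ∈ B ω) ⊆
        univ.filter fun ω : (∀ v : Fin n, Ω v) => Z' ∈ A v (ω v) := by
      intro ω hω
      rw [mem_filter] at hω ⊢
      exact ⟨mem_univ _, hiff ω hω.2⟩
    have c2 := Comp.coord_count (P := fun v : Fin n => Ω v) v (fun x : Ω v => Z' ∈ A v x)
    have c3 : ((univ.filter fun x : Ω v => Z' ∈ A v x).card : ℝ) ≤
        a * (Fintype.card (Ω v) : ℝ) := by
      convert h2 v Z' hZ' using 4
    have hP : (0 : ℝ) < (Fintype.card (Ω v) : ℝ) := by exact_mod_cast Fintype.card_pos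
    have c4 : ((univ.filter fun ω : (∀ v : Fin n, Ω v) => Z' ∈ A v (ω v)).card : ℝ) ≤
        a * (Fintype.card (∀ v : Fin n, Ω v) : ℝ) := by
      refine le_of_mul_le_mul_right ?_ hP
      rw [c2]
      calc _ ≤ (a * (Fintype.card (Ω v) : ℝ)) * (Fintype.card (∀ v : Fin n, Ω v) : ℝ) := by
            gcongr
        _ = _ := by ring
    refine le_trans ?_ c4
    exact_mod_cast card_le_card hsub
  · intro Y hY
    obtain ⟨v, Y', hv, hY', hmap⟩ := lift_aux (show Y.card = (m + R) + 1 by omega)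
    have hsub : (univ.filter fun ω : (∀ v : Fin n, Ω v) => ¬ ∃ Z ∈ B ω, Z ⊆ Y) ⊆
        univ.filter fun ω : (∀ v : Fin n, Ω v) => ¬ ∃ Z ∈ A v (ω v), Z ⊆ Y' := by
      intro ω hω
      rw [mem_filter] at hω ⊢
      refine ⟨mem_univ _, ?_⟩
      rintro ⟨Z, hZ, hZY⟩
      apply hω.2
      refine ⟨insert v (Z.map (emb v)), ?_, ?_⟩
      · simp only [B, mem_biUnion, mem_univ, true_and, mem_image]
        exact ⟨v, Z, hZ, rfl⟩
      · rw [insert_subset_iff]
        refine ⟨hv, ?_⟩
        calc Z.map (emb v) ⊆ Y'.map (emb v) := map_subset_map.2 hZY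
          _ = Y.erase v := hmap
          _ ⊆ Y := erase_subset _ _
    have c2 := Comp.coord_count (P := fun v : Fin n => Ω v) v
      (fun x : Ω v => ¬ ∃ Z ∈ A v x, Z ⊆ Y')
    have c3 : ((univ.filter fun x : Ω v => ¬ ∃ Z ∈ A v x, Z ⊆ Y').card : ℝ) ≤
        Φ * (Fintype.card (Ω v) : ℝ) := by
      convert h3 v Y' hY' using 4
    have hP : (0 : ℝ) < (Fintype.card (Ω v) : ℝ) := by exact_mod_cast Fintype.card_pos
    have c4 : ((univ.filter fun ω : (∀ v : Fin n, Ω v) => ¬ ∃ Z ∈ A v (ω v), Z ⊆ Y').card : ℝ) ≤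
        Φ * (Fintype.card (∀ v : Fin n, Ω v) : ℝ) := by
      refine le_of_mul_le_mul_right ?_ hP
      rw [c2]
      calc _ ≤ (Φ * (Fintype.card (Ω v) : ℝ)) * (Fintype.card (∀ v : Fin n, Ω v) : ℝ) := by
            gcongr
        _ = _ := by ring
    refine le_trans ?_ c4
    exact_mod_cast card_le_card hsub

theorem Rnd.lift {R r : ℕ} {a Φ : ℝ} (h : ∀ n, Rnd R n r a Φ) {m : ℕ} (hm : r ≤ m) :
    ∀ n, Rnd R n m a Φ := by
  induction m, hm using Nat.le_induction with
  | base => exact h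
  | succ m _ ih => exact fun n => Rnd.succ ih n

theorem Rnd.a_nonneg {R r : ℕ} {a Φ : ℝ} (h : Rnd R r r a Φ) : 0 ≤ a := by
  obtain ⟨Ω, i1, i2, A, h1, h2, h3⟩ := h
  have h := h2 univ (by simp)
  have hP : (0 : ℝ) < (Fintype.card Ω : ℝ) := by exact_mod_cast Fintype.card_pos
  have h0 := le_trans (Nat.cast_nonneg _) h
  by_contra hcon
  push Not at hcon
  nlinarith

/-- a random family bounds the least size of a covering -/
theorem rnd_lower {R r M : ℕ} {a Φ : ℝ} (h : Rnd R M r a Φ) :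
    Pool.Agent.H688R3.TuranGen.c r (r + R) M ≤
      a * (M.choose r : ℝ) + Φ * (M.choose (r + R) : ℝ) := by
  classical
  obtain ⟨Ω, i1, i2, A, h1, h2, h3⟩ := h
  have hN : (0 : ℝ) < (Fintype.card Ω : ℝ) := by exact_mod_cast Fintype.card_pos
  let t : Ω → Finset (Finset (Fin M)) := fun ω => A ω
  let u : Ω → Finset (Finset (Fin M)) := fun ω =>
    (powersetCard (r + R) univ).filter fun Y => ¬ ∃ Z ∈ A ω, Z ⊆ Y
  have e1 : ∑ ω : Ω, ((t ω).card : ℝ) ≤ a * (Fintype.card Ω : ℝ) *
      ((powersetCard r (univ : Finset (Fin M))).card : ℝ) := by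
    refine Pool.Agent.H369R2.TD.Two.sum_card_le (powersetCard r (univ : Finset (Fin M))) t
      (fun Z => univ.filter fun ω => Z ∈ A ω) ?_ ?_
    · intro Z hZ
      convert h2 Z (mem_powersetCard.1 hZ).2 using 4
    · intro ω Z
      simp only [t, mem_filter, mem_univ, true_and, mem_powersetCard, subset_univ]
      constructor
      · intro hZ; exact ⟨h1 ω Z hZ, hZ⟩
      · rintro ⟨_, hZ⟩; exact hZ
  have e2 : ∑ ω : Ω, ((u ω).card : ℝ) ≤ Φ * (Fintype.card Ω : ℝ) *
      ((powersetCard (r + R) (univ : Finset (Fin M))).card : ℝ) := by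
    refine Pool.Agent.H369R2.TD.Two.sum_card_le (powersetCard (r + R) (univ : Finset (Fin M))) u
      (fun Y => univ.filter fun ω => ¬ ∃ Z ∈ A ω, Z ⊆ Y) ?_ ?_
    · intro Y hY
      convert h3 Y (mem_powersetCard.1 hY).2 using 4
    · intro ω Y
      simp only [u, mem_filter, mem_univ, true_and]
  obtain ⟨ω, hω⟩ : ∃ ω : Ω, ((t ω).card : ℝ) + ((u ω).card : ℝ) ≤
      a * (M.choose r : ℝ) + Φ * (M.choose (r + R) : ℝ) := by
    by_contra hcon
    push Not at hcon
    have hs := Finset.sum_lt_sum_of_nonempty (s := (univ : Finset Ω)) univ_nonempty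
      (fun ω _ => hcon ω)
    rw [Finset.sum_const, nsmul_eq_mul, card_univ, Finset.sum_add_distrib] at hs
    rw [card_powersetCard, card_univ, Fintype.card_fin] at e1 e2
    have : (Fintype.card Ω : ℝ) * (a * (M.choose r : ℝ) + Φ * (M.choose (r + R) : ℝ)) =
        a * (Fintype.card Ω : ℝ) * (M.choose r : ℝ) +
        Φ * (Fintype.card Ω : ℝ) * (M.choose (r + R) : ℝ) := by ring
    linarith
  -- add one set for every uncovered set
  have hsub : ∀ Y : Finset (Fin M), ∃ Z : Finset (Fin M), Y.card = r + R → Z ⊆ Y ∧ Z.card = r := by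
    intro Y
    by_cases hY : Y.card = r + R
    · obtain ⟨Z, hZ⟩ := Finset.exists_subset_card_eq (show r ≤ Y.card by omega)
      exact ⟨Z, fun _ => hZ⟩
    · exact ⟨∅, fun h => absurd h hY⟩
  choose g hg using hsub
  have hcov : Pool.Agent.H688R3.TuranGen.Cov r (r + R) (t ω ∪ (u ω).image g) := by
    refine ⟨?_, ?_⟩
    · intro Z hZ
      rw [mem_union, mem_image] at hZ
      rcases hZ with hZ | ⟨Y, hY, rfl⟩
      · exact h1 ω Z hZ
      · exact (hg Y (mem_powersetCard.1 (mem_filter.1 hY).1).2).2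
    · intro Y hY
      by_cases hc : ∃ Z ∈ A ω, Z ⊆ Y
      · obtain ⟨Z, hZ, hZY⟩ := hc
        exact ⟨Z, mem_union_left _ hZ, hZY⟩
      · refine ⟨g Y, mem_union_right _ (mem_image_of_mem g ?_), (hg Y hY).1⟩
        rw [mem_filter, mem_powersetCard]
        exact ⟨⟨subset_univ _, hY⟩, hc⟩
  have h4 := Pool.Agent.H688R3.TuranGen.c_le_card hcov
  have h5 : ((t ω ∪ (u ω).image g).card : ℝ) ≤ ((t ω).card : ℝ) + ((u ω).card : ℝ) := by
    have : (t ω ∪ (u ω).image g).card ≤ (t ω).card + (u ω).card :=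
      (card_union_le _ _).trans (Nat.add_le_add le_rfl card_image_le)
    exact_mod_cast this
  linarith

end Pool.Agent.J4.H85.GD
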