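import Pool.Agent.J4.H85.GD.Lim

/-!
# Products of Turán systems
-/

set_option autoImplicit false

open Finset Filter Topology Asymptotics

namespace Pool.Agent.J4.H85.GD

open Pool.Agent.H369R2.TD.Two (Pr mem_Pr card_union_of_mem_Pr Pr_card_le exists_pair sum_card_le)
open Pool.Agent.H369R2.TD (perm_count)

/-- `t(k₁+k₂+R₁+R₂, k₁+k₂) ≤ t(k₁+R₁, k₁) t(k₂+R₂, k₂)` -/
theorem Tur.prod {R₁ R₂ k₁ k₂ : ℕ} {δ₁ δ₂ : ℝ} (h1 : Tur R₁ k₁ δ₁) (h2 : Tur R₂ k₂ δ₂)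
    (hδ1 : 0 ≤ δ₁) (hδ2 : 0 ≤ δ₂) : Tur (R₁ + R₂) (k₁ + k₂) (δ₁ * δ₂) := by
  classical
  intro n
  obtain ⟨T₁, a1, a2, a3⟩ := h1 n
  obtain ⟨T₂, b1, b2, b3⟩ := h2 n
  let Ω := Equiv.Perm (Fin n) × Equiv.Perm (Fin n)
  let t : Ω → Finset (Finset (Fin n) × Finset (Fin n)) := fun ω =>
    (Pr n k₁ k₂).filter fun p => p.1.map ω.1.toEmbedding ∈ T₁ ∧ p.2.map ω.2.toEmbedding ∈ T₂
  have hsum : ∑ ω : Ω, ((t ω).card : ℝ) ≤ (δ₁ * δ₂) * (Fintype.card Ω : ℝ) * ((Pr n k₁ k₂).card : ℝ) := by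
    refine sum_card_le (Pr n k₁ k₂) t (fun p => univ.filter fun ω : Ω =>
      p.1.map ω.1.toEmbedding ∈ T₁ ∧ p.2.map ω.2.toEmbedding ∈ T₂) ?_ ?_
    · intro p hp
      rw [mem_Pr] at hp
      have e : (univ.filter fun ω : Ω =>
          p.1.map ω.1.toEmbedding ∈ T₁ ∧ p.2.map ω.2.toEmbedding ∈ T₂) =
        (univ.filter fun π : Equiv.Perm (Fin n) => p.1.map π.toEmbedding ∈ T₁) ×ˢ
        (univ.filter fun π : Equiv.Perm (Fin n) => p.2.map π.toEmbedding ∈ T₂) := by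
        ext ω
        rw [Finset.mem_product, mem_filter, mem_filter, mem_filter]
        simp only [mem_univ, true_and]
      rw [e, Finset.card_product, Nat.cast_mul]
      have c1 := perm_count T₁ a1 a3 p.1 hp.1
      have c2 := perm_count T₂ b1 b3 p.2 hp.2.1
      have e2 : (Fintype.card Ω : ℝ) = (Fintype.card (Equiv.Perm (Fin n)) : ℝ) *
          (Fintype.card (Equiv.Perm (Fin n)) : ℝ) := by
        show ((Fintype.card (Equiv.Perm (Fin n) × Equiv.Perm (Fin n)) : ℕ) : ℝ) = _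
        rw [Fintype.card_prod, Nat.cast_mul]
      rw [e2]
      calc _ ≤ (δ₁ * (Fintype.card (Equiv.Perm (Fin n)) : ℝ)) *
            (δ₂ * (Fintype.card (Equiv.Perm (Fin n)) : ℝ)) :=
            mul_le_mul c1 c2 (Nat.cast_nonneg _) (by positivity)
        _ = _ := by ring
    · intro ω p
      simp only [t, mem_filter, mem_univ, true_and]
  have hN : (0 : ℝ) < (Fintype.card Ω : ℝ) := by exact_mod_cast Fintype.card_pos
  obtain ⟨ω, hω⟩ : ∃ ω : Ω, ((t ω).card : ℝ) ≤ (δ₁ * δ₂) * ((Pr n k₁ k₂).card : ℝ) := by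
    by_contra hcon
    push Not at hcon
    have hs := Finset.sum_lt_sum_of_nonempty (s := (univ : Finset Ω)) univ_nonempty
      (fun ω _ => hcon ω)
    rw [Finset.sum_const, nsmul_eq_mul, card_univ] at hs
    have : (Fintype.card Ω : ℝ) * ((δ₁ * δ₂) * ((Pr n k₁ k₂).card : ℝ)) =
        (δ₁ * δ₂) * (Fintype.card Ω : ℝ) * ((Pr n k₁ k₂).card : ℝ) := by ring
    linarith
  refine ⟨(t ω).image fun p => p.1 ∪ p.2, ?_, ?_, ?_⟩
  · intro Z hZ
    obtain ⟨p, hp, rfl⟩ := mem_image.1 hZ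
    exact card_union_of_mem_Pr (mem_filter.1 hp).1
  · intro Y hY
    obtain ⟨p, hp, hpY⟩ := exists_pair (a := k₁ + R₁) (b := k₂ + R₂) Y (by omega)
    rw [mem_Pr] at hp
    obtain ⟨W₁, w1, w2⟩ := a2 (p.1.map ω.1.toEmbedding) (by rw [card_map, hp.1])
    obtain ⟨W₂, v1, v2⟩ := b2 (p.2.map ω.2.toEmbedding) (by rw [card_map, hp.2.1])
    obtain ⟨Z₁, z1, z2⟩ := Finset.subset_map_iff.mp w2
    obtain ⟨Z₂, y1, y2⟩ := Finset.subset_map_iff.mp v2
    refine ⟨Z₁ ∪ Z₂, mem_image.2 ⟨(Z₁, Z₂), ?_, rfl⟩, ?_⟩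
    · refine mem_filter.2 ⟨mem_Pr.2 ⟨?_, ?_, fun x hx y hy => hp.2.2 x (z1 hx) y (y1 hy)⟩, ?_, ?_⟩
      · have := a1 W₁ w1
        rwa [z2, card_map] at this
      · have := b1 W₂ v1
        rwa [y2, card_map] at this
      · show Z₁.map ω.1.toEmbedding ∈ T₁
        rw [← z2]; exact w1
      · show Z₂.map ω.2.toEmbedding ∈ T₂
        rw [← y2]; exact v1
    · rw [← hpY]
      exact Finset.union_subset_union z1 y1
  · have h3 : (((t ω).image fun p => p.1 ∪ p.2).card : ℝ) ≤ ((t ω).card : ℝ) := by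
      exact_mod_cast card_image_le
    have h4 : ((Pr n k₁ k₂).card : ℝ) ≤ (n.choose (k₁ + k₂) : ℝ) := by
      exact_mod_cast Pr_card_le n k₁ k₂
    exact h3.trans (hω.trans (mul_le_mul_of_nonneg_left h4 (mul_nonneg hδ1 hδ2)))

theorem tt_prod (R₁ R₂ k₁ k₂ : ℕ) : tt (R₁ + R₂) (k₁ + k₂) ≤ tt R₁ k₁ * tt R₂ k₂ :=
  tt_le ((tur_tt R₁ k₁).prod (tur_tt R₂ k₂) (tt_nonneg _ _) (tt_nonneg _ _))

theorem LL_prod {R₁ R₂ : ℕ} (h1 : 1 ≤ R₁) (h2 : 1 ≤ R₂) {lam : ℝ} (hl0 : 0 < lam) (hl1 : lam < 1) :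
    LL (R₁ + R₂) ≤ (R₁.factorial : ℝ) * R₂.factorial /
      ((R₁ + R₂).factorial * (lam ^ R₁ * (1 - lam) ^ R₂)) * (LL R₁ * LL R₂) := by
  have hl1' : 0 < 1 - lam := by linarith
  let h : ℕ → ℕ := fun r => ⌊lam * (r : ℝ)⌋₊
  have hlim : Tendsto h atTop atTop :=
    tendsto_nat_floor_atTop.comp (tendsto_natCast_atTop_atTop.const_mul_atTop hl0)
  have hratio : Tendsto (fun r : ℕ => (h r : ℝ) / (r : ℝ)) atTop (𝓝 lam) :=
    (tendsto_nat_floor_mul_div_atTop hl0.le).comp (tendsto_natCast_atTop_atTop (R := ℝ))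
  have hle : ∀ r : ℕ, h r ≤ r := by
    intro r
    have h1 : (h r : ℝ) ≤ lam * (r : ℝ) := Nat.floor_le (by positivity)
    have h2 : lam * (r : ℝ) ≤ 1 * (r : ℝ) := mul_le_mul_of_nonneg_right hl1.le (Nat.cast_nonneg _)
    rw [one_mul] at h2
    exact_mod_cast h1.trans h2
  have hratio2 : Tendsto (fun r : ℕ => ((r - h r : ℕ) : ℝ) / (r : ℝ)) atTop (𝓝 (1 - lam)) := by
    refine (hratio.const_sub 1).congr' ?_
    filter_upwards [eventually_ge_atTop 1] with r hr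
    have : (0 : ℝ) < (r : ℝ) := by exact_mod_cast (show 0 < r by omega)
    rw [Nat.cast_sub (hle r)]
    field_simp
  have hlim2 : Tendsto (fun r => r - h r) atTop atTop := by
    have h1 := hratio2.pos_mul_atTop hl1' (tendsto_natCast_atTop_atTop (R := ℝ))
    rw [← tendsto_natCast_atTop_iff (R := ℝ)]
    refine h1.congr' ?_
    filter_upwards [eventually_ge_atTop 1] with r hr
    have : (0 : ℝ) < (r : ℝ) := by exact_mod_cast (show 0 < r by omega)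
    field_simp
  -- the ratio of the binomial coefficients
  have hadd : ∀ (a : ℕ → ℕ) (R : ℕ) (μ : ℝ), 
      Tendsto (fun r : ℕ => (a r : ℝ) / (r : ℝ)) atTop (𝓝 μ) →
      Tendsto (fun r : ℕ => ((a r + R : ℕ) : ℝ) / (r : ℝ)) atTop (𝓝 μ) := by
    intro a R μ ha
    have h3 : Tendsto (fun r : ℕ => (R : ℝ) / (r : ℝ)) atTop (𝓝 0) :=
      tendsto_const_nhds.div_atTop (tendsto_natCast_atTop_atTop (R := ℝ))
    have h4 := ha.add h3
    rw [add_zero] at h4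
    refine h4.congr fun r => ?_
    push_cast
    ring
  have hbin : ∀ (a : ℕ → ℕ) (R : ℕ) (μ : ℝ), Tendsto a atTop atTop →
      Tendsto (fun r : ℕ => (a r : ℝ) / (r : ℝ)) atTop (𝓝 μ) →
      Tendsto (fun r : ℕ => ((a r + R).choose R : ℝ) / (r : ℝ) ^ R) atTop
        (𝓝 (μ ^ R / (R.factorial : ℝ))) := by
    intro a R μ ha hμ
    have ha' : Tendsto (fun r => a r + R) atTop atTop :=
      tendsto_atTop_mono (fun r => Nat.le_add_right _ _) ha
    have e1 := ((isEquivalent_choose R).comp_tendsto ha').div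
      (IsEquivalent.refl (u := fun r : ℕ => (r : ℝ) ^ R))
    have e2 := ((hadd a R μ hμ).pow R).div_const (R.factorial : ℝ)
    refine (IsEquivalent.tendsto_nhds_iff e1).2 (e2.congr fun r => ?_)
    simp only [Function.comp, Pi.div_apply]
    rw [div_pow]
    ring
  have b0 := hbin (fun r => r) (R₁ + R₂) 1 tendsto_id (by
    refine tendsto_const_nhds.congr' ?_
    filter_upwards [eventually_ge_atTop 1] with r hr
    have : (0 : ℝ) < (r : ℝ) := by exact_mod_cast (show 0 < r by omega)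
    field_simp)
  have b1 := hbin h R₁ lam hlim hratio
  have b2 := hbin (fun r => r - h r) R₂ (1 - lam) hlim2 hratio2
  have hfac : ∀ R : ℕ, (0 : ℝ) < (R.factorial : ℝ) := fun R => by positivity
  have b3 := b0.div (b1.mul b2) (by
    have := hfac R₁
    have := hfac R₂
    positivity)
  have c1 := (CC_tendsto h1).comp hlim
  have c2 := (CC_tendsto h2).comp hlim2
  have hfin := b3.mul (c1.mul c2)
  have hval : 1 ^ (R₁ + R₂) / ((R₁ + R₂).factorial : ℝ) /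
      (lam ^ R₁ / (R₁.factorial : ℝ) * ((1 - lam) ^ R₂ / (R₂.factorial : ℝ))) * (LL R₁ * LL R₂) =
      (R₁.factorial : ℝ) * R₂.factorial /
      ((R₁ + R₂).factorial * (lam ^ R₁ * (1 - lam) ^ R₂)) * (LL R₁ * LL R₂) := by
    have := hfac R₁
    have := hfac R₂
    have := hfac (R₁ + R₂)
    have h3 : (0 : ℝ) < lam ^ R₁ := by positivity
    have h4 : (0 : ℝ) < (1 - lam) ^ R₂ := by positivity
    rw [one_pow]
    field_simp
  rw [hval] at hfin
  refine le_of_tendsto_of_tendsto (CC_tendsto (show 1 ≤ R₁ + R₂ by omega)) hfin ?_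
  filter_upwards [eventually_ge_atTop 1] with r hr
  have hr0 : (0 : ℝ) < (r : ℝ) := by exact_mod_cast (show 0 < r by omega)
  have h3 := tt_prod R₁ R₂ (h r) (r - h r)
  rw [Nat.add_sub_cancel' (hle r)] at h3
  have p1 : (0 : ℝ) < ((h r + R₁).choose R₁ : ℝ) := by
    exact_mod_cast Nat.choose_pos (show R₁ ≤ h r + R₁ by omega)
  have p2 : (0 : ℝ) < ((r - h r + R₂).choose R₂ : ℝ) := by
    exact_mod_cast Nat.choose_pos (show R₂ ≤ r - h r + R₂ by omega)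
  simp only [Function.comp, Pi.div_apply]
  unfold CC
  have e : ((r + (R₁ + R₂)).choose (R₁ + R₂) : ℝ) / (r : ℝ) ^ (R₁ + R₂) /
      (((h r + R₁).choose R₁ : ℝ) / (r : ℝ) ^ R₁ * (((r - h r + R₂).choose R₂ : ℝ) / (r : ℝ) ^ R₂)) *
      (((h r + R₁).choose R₁ : ℝ) * tt R₁ (h r) * (((r - h r + R₂).choose R₂ : ℝ) * tt R₂ (r - h r)))
      = ((r + (R₁ + R₂)).choose (R₁ + R₂) : ℝ) * (tt R₁ (h r) * tt R₂ (r - h r)) := by
    rw [pow_add]
    field_simp
  rw [e]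
  exact mul_le_mul_of_nonneg_left h3 (Nat.cast_nonneg _)

end Pool.Agent.J4.H85.GD
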