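import Pool.Agent.J4.H85.GD.Sup
import Pool.Agent.J4.H85.GD.Prod
import Pool.Agent.H688R3.TuranGenLimit

/-!
# Further consequences
-/

set_option autoImplicit false

open Finset Filter Topology

namespace Pool.Agent.J4.H85.GD

open Pool.Agent.J4.H85.GD.Comp (ff)

/-- two independent random families -/
theorem Rnd.union {R n d : ℕ} {a a' Φ Φ' : ℝ} (h : Rnd R n d a Φ) (h' : Rnd R n d a' Φ') :
    Rnd R n d (a + a') (Φ * Φ') := by
  classical
  obtain ⟨Ω, i1, i2, A, h1, h2, h3⟩ := h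
  obtain ⟨Ω', i1', i2', A', h1', h2', h3'⟩ := h'
  refine ⟨Ω × Ω', inferInstance, inferInstance, fun ω => A ω.1 ∪ A' ω.2, ?_, ?_, ?_⟩
  · intro ω Z hZ
    rcases mem_union.1 hZ with hZ | hZ
    · exact h1 _ Z hZ
    · exact h1' _ Z hZ
  · intro Z hZ
    have e1 : (univ.filter fun ω : Ω × Ω' => Z ∈ A ω.1 ∪ A' ω.2) ⊆
        ((univ.filter fun ω => Z ∈ A ω) ×ˢ (univ : Finset Ω')) ∪
        ((univ : Finset Ω) ×ˢ (univ.filter fun ω => Z ∈ A' ω)) := by
      intro ω hω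
      rw [mem_filter, mem_union] at hω
      rw [mem_union, mem_product, mem_product, mem_filter, mem_filter]
      rcases hω.2 with h | h
      · exact Or.inl ⟨⟨mem_univ _, h⟩, mem_univ _⟩
      · exact Or.inr ⟨mem_univ _, ⟨mem_univ _, h⟩⟩
    have e2 := (card_le_card e1).trans (card_union_le _ _)
    rw [card_product, card_product, card_univ, card_univ] at e2
    have e3 : ((univ.filter fun ω : Ω × Ω' => Z ∈ A ω.1 ∪ A' ω.2).card : ℝ) ≤
        ((univ.filter fun ω => Z ∈ A ω).card : ℝ) * (Fintype.card Ω' : ℝ) +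
        (Fintype.card Ω : ℝ) * ((univ.filter fun ω => Z ∈ A' ω).card : ℝ) := by
      exact_mod_cast e2
    have g1 : ((univ.filter fun ω => Z ∈ A ω).card : ℝ) ≤ a * (Fintype.card Ω : ℝ) := by
      convert h2 Z hZ using 4
    have g2 : ((univ.filter fun ω => Z ∈ A' ω).card : ℝ) ≤ a' * (Fintype.card Ω' : ℝ) := by
      convert h2' Z hZ using 4
    have g3 := mul_le_mul_of_nonneg_right g1 (Nat.cast_nonneg (α := ℝ) (Fintype.card Ω'))
    have g4 := mul_le_mul_of_nonneg_left g2 (Nat.cast_nonneg (α := ℝ) (Fintype.card Ω))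
    rw [Fintype.card_prod, Nat.cast_mul]
    linarith
  · intro Y hY
    have e1 : (univ.filter fun ω : Ω × Ω' => ¬ ∃ Z ∈ A ω.1 ∪ A' ω.2, Z ⊆ Y) ⊆
        (univ.filter fun ω => ¬ ∃ Z ∈ A ω, Z ⊆ Y) ×ˢ (univ.filter fun ω => ¬ ∃ Z ∈ A' ω, Z ⊆ Y) := by
      intro ω hω
      rw [mem_filter] at hω
      rw [mem_product, mem_filter, mem_filter]
      exact ⟨⟨mem_univ _, fun ⟨Z, hZ, hZY⟩ => hω.2 ⟨Z, mem_union_left _ hZ, hZY⟩⟩,
        ⟨mem_univ _, fun ⟨Z, hZ, hZY⟩ => hω.2 ⟨Z, mem_union_right _ hZ, hZY⟩⟩⟩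
    have e2 := card_le_card e1
    rw [card_product] at e2
    have e3 : ((univ.filter fun ω : Ω × Ω' => ¬ ∃ Z ∈ A ω.1 ∪ A' ω.2, Z ⊆ Y).card : ℝ) ≤
        ((univ.filter fun ω => ¬ ∃ Z ∈ A ω, Z ⊆ Y).card : ℝ) *
        ((univ.filter fun ω => ¬ ∃ Z ∈ A' ω, Z ⊆ Y).card : ℝ) := by
      exact_mod_cast e2
    have g1 : ((univ.filter fun ω => ¬ ∃ Z ∈ A ω, Z ⊆ Y).card : ℝ) ≤
        Φ * (Fintype.card Ω : ℝ) := by
      convert h3 Y hY using 4
    have g2 : ((univ.filter fun ω => ¬ ∃ Z ∈ A' ω, Z ⊆ Y).card : ℝ) ≤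
        Φ' * (Fintype.card Ω' : ℝ) := by
      convert h3' Y hY using 4
    have g3 := mul_le_mul g1 g2 (Nat.cast_nonneg _) ((Nat.cast_nonneg _).trans g1)
    rw [Fintype.card_prod, Nat.cast_mul]
    refine le_trans (le_of_eq ?_) ((e3.trans g3).trans (le_of_eq (by ring)))
    congr!

theorem Ach.union {R : ℕ} {A A' Φ Φ' : ℝ} (h : Ach R A Φ) (h' : Ach R A' Φ') (h0 : 0 ≤ Φ)
    (h1 : Φ ≤ 1) (h0' : 0 ≤ Φ') (h1' : Φ' ≤ 1) : Ach R (A + A') (Φ * Φ') := by
  intro ε hε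
  obtain ⟨η, hη, hη1, hη2⟩ : ∃ η : ℝ, 0 < η ∧ 2 * η ≤ ε ∧ 3 * η ≤ min ε 1 :=
    ⟨min ε 1 / 3, by positivity, by have := min_le_left ε 1; linarith, by linarith⟩
  have h3 : 3 * η ≤ ε := hη2.trans (min_le_left _ _)
  have h4 : 3 * η ≤ 1 := hη2.trans (min_le_right _ _)
  filter_upwards [h η hη, h' η hη] with d ⟨a, Ψ, g1, g2, g3, g4, g5⟩ ⟨a', Ψ', k1, k2, k3, k4, k5⟩
  refine ⟨a + a', Ψ * Ψ', fun n => (g1 n).union (k1 n), add_nonneg g2 k2, mul_pos g3 k3, ?_, ?_⟩
  · have : Ψ * Ψ' ≤ (Φ + η) * (Φ' + η) := mul_le_mul g4 k4 k3.le (by linarith)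
    nlinarith
  · rw [mul_add]
    linarith

/-- the probability `R^R e^{-R} / R!` of the value `R` for a Poisson variable of mean `R` -/
noncomputable def pR (R : ℕ) : ℝ := (R : ℝ) ^ R * Real.exp (-R) / (R.factorial : ℝ)

theorem pR_pos {R : ℕ} (hR : 1 ≤ R) : 0 < pR R := by
  unfold pR
  have : (0 : ℝ) < R := by exact_mod_cast hR
  positivity

theorem pR_lt_one {R : ℕ} (hR : 1 ≤ R) : pR R < 1 := by
  have hR0 : (0 : ℝ) < R := by exact_mod_cast hR
  have h1 : ∑ j ∈ range (R + 1), (R : ℝ) ^ j / (j.factorial : ℝ) ≤ Real.exp R :=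
    Real.sum_le_exp_of_nonneg hR0.le _
  rw [Finset.sum_range_succ] at h1
  have h2 : 0 < ∑ j ∈ range R, (R : ℝ) ^ j / (j.factorial : ℝ) :=
    Finset.sum_pos (fun j _ => by positivity) ⟨0, by rw [mem_range]; omega⟩
  have h3 : (R : ℝ) ^ R / (R.factorial : ℝ) < Real.exp R := by linarith
  unfold pR
  calc (R : ℝ) ^ R * Real.exp (-R) / (R.factorial : ℝ)
      = (R : ℝ) ^ R / (R.factorial : ℝ) * Real.exp (-R) := by ring
    _ < Real.exp R * Real.exp (-R) := mul_lt_mul_of_pos_right h3 (Real.exp_pos _)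
    _ = 1 := by rw [← Real.exp_add]; simp

/-- the code whose members come from dependencies with exactly `R` zeros: the pair `(p, 1 - p)` -/
theorem ach_pR {R : ℕ} (hR : 1 ≤ R) : Ach R (pR R) (1 - pR R) := by
  have hR0 : (0 : ℝ) < R := by exact_mod_cast hR
  obtain ⟨am, ham⟩ : ∃ am : ℕ → ℝ, am = fun m => if m = 0 then 1 else 0 := ⟨_, rfl⟩
  obtain ⟨Φm, hΦm⟩ : ∃ Φm : ℕ → ℝ, Φm = fun m => if m = 0 then 0 else 1 := ⟨_, rfl⟩
  have hz : Tur R 0 1 := tur_all R 0
  have h1 : ∀ m n, Rnd R n m (am m) (Φm m) := by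
    intro m n
    rw [ham, hΦm]
    simp only
    split_ifs with c1
    · subst c1
      exact rnd_of_tur hz n
    · exact rnd_empty R n m
  have h2 : ∀ m, 0 ≤ am m := by
    intro m; rw [ham]; simp only; split_ifs <;> norm_num
  have h3 : ∀ m, ((m + R).choose R : ℝ) * am m ≤ 1 := by
    intro m
    rw [ham]
    simp only
    split_ifs with c
    · subst c; simp
    · simp
  have h4 : ∀ m, 0 ≤ Φm m := by
    intro m; rw [hΦm]; simp only; split_ifs <;> norm_num
  have h5 : ∀ m, Φm m ≤ 1 := by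
    intro m; rw [hΦm]; simp only; split_ifs <;> norm_num
  have hEE : Real.exp (-(R : ℝ)) * Real.exp R = 1 := by rw [← Real.exp_add]; simp
  refine (ach_comp hR hR0 h1 h2 h3 h4 h5).mono ?_ ?_
  · have e : (fun j : ℕ => ((j.choose R : ℝ) * am (j - R)) * ((R : ℝ) ^ j / (j.factorial : ℝ))) =
        fun j : ℕ => if j = R then (R : ℝ) ^ R / (R.factorial : ℝ) else 0 := by
      funext j
      rcases Nat.lt_trichotomy j R with h | h | h
      · rw [Nat.choose_eq_zero_of_lt h, if_neg h.ne]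
        simp
      · subst h
        rw [if_pos rfl, ham]
        simp
      · rw [if_neg h.ne', ham]
        simp only
        rw [if_neg (by omega)]
        simp
    rw [e, tsum_ite_eq]
    unfold pR
    exact le_of_eq (by ring)
  · have e : (fun j : ℕ => ff R Φm j * ((R : ℝ) ^ j / (j.factorial : ℝ))) =
        fun j : ℕ => (R : ℝ) ^ j / (j.factorial : ℝ) -
          (if j = R then (R : ℝ) ^ R / (R.factorial : ℝ) else 0) := by
      funext j
      unfold Comp.ff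
      rcases Nat.lt_trichotomy j R with h | h | h
      · rw [if_pos h, if_neg h.ne]
        simp
      · subst h
        rw [if_neg (lt_irrefl _), if_pos rfl, hΦm]
        simp
      · rw [if_neg (by omega), if_neg h.ne', hΦm]
        simp only
        rw [if_neg (by omega)]
        simp
    rw [e]
    have s1 := (Real.summable_pow_div_factorial (R : ℝ)).hasSum
    rw [exp_tsum] at s1
    have s2 : HasSum (fun j : ℕ => if j = R then (R : ℝ) ^ R / (R.factorial : ℝ) else 0)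
        ((R : ℝ) ^ R / (R.factorial : ℝ)) := hasSum_ite_eq R _
    rw [(s1.sub s2).tsum_eq, mul_sub, hEE]
    unfold pR
    exact le_of_eq (by ring)

theorem ach_pow {R : ℕ} (hR : 1 ≤ R) (n : ℕ) : Ach R (n * pR R) ((1 - pR R) ^ n) := by
  have h0 := pR_pos hR
  have h1 := pR_lt_one hR
  induction n with
  | zero =>
    have := ach_triv R
    simpa using this
  | succ n ih =>
    have h := ih.union (ach_pR hR) (by apply pow_nonneg; linarith)
      (pow_le_one₀ (by linarith) (by linarith)) (by linarith) (by linarith)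
    refine h.mono (le_of_eq ?_) (le_of_eq ?_)
    · push_cast; ring
    · rw [pow_succ]

/-- the explicit bound for all `R` -/
theorem LL_le_pow {R : ℕ} (hR : 1 ≤ R) (n : ℕ) :
    LL R ≤ ((1 + n * pR R) ^ ((1 : ℝ) / ((R : ℝ) + 1)) +
      ((1 - pR R) ^ (n + 1)) ^ ((1 : ℝ) / ((R : ℝ) + 1))) ^ (R + 1) := by
  have h0 := pR_pos hR
  have h1 := pR_lt_one hR
  have hn : (0 : ℝ) ≤ n := Nat.cast_nonneg _
  obtain ⟨u, hu⟩ : ∃ u : ℝ, u = (1 + n * pR R) ^ ((1 : ℝ) / ((R : ℝ) + 1)) := ⟨_, rfl⟩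
  obtain ⟨v, hv⟩ : ∃ v : ℝ, v = ((1 - pR R) ^ (n + 1)) ^ ((1 : ℝ) / ((R : ℝ) + 1)) := ⟨_, rfl⟩
  have hq : 0 < 1 - pR R := by linarith
  have hu0 : 0 < u := by rw [hu]; exact Real.rpow_pos_of_pos (by positivity) _
  have hv0 : 0 < v := by rw [hv]; exact Real.rpow_pos_of_pos (by positivity) _
  have hR1 : (0 : ℝ) < (R : ℝ) + 1 := by positivity
  have hone : (1 : ℝ) / ((R : ℝ) + 1) * ((R + 1 : ℕ) : ℝ) = 1 := by
    push_cast
    field_simp
  have hue : u ^ (R + 1) = 1 + n * pR R := by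
    rw [hu, ← Real.rpow_natCast, ← Real.rpow_mul (by positivity), hone, Real.rpow_one]
  have hve : v ^ (R + 1) = (1 - pR R) ^ (n + 1) := by
    rw [hv, ← Real.rpow_natCast, ← Real.rpow_mul (by positivity), hone, Real.rpow_one]
  rw [← hu, ← hv]
  have hl0 : 0 < u / (u + v) := by positivity
  have hl1 : u / (u + v) < 1 := by rw [div_lt_one (by positivity)]; linarith
  have hpn : 0 ≤ (1 - pR R) ^ n := by positivity
  have h := ach_bound hR (ach_pow hR n) (ach_pR hR) (ach_pR hR) hpn hq.le (by linarith) hq.le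
    (by linarith) hl0 hl1
  refine h.trans (le_of_eq ?_)
  have e1 : 1 - u / (u + v) = v / (u + v) := by field_simp; ring
  have e2 : (n * pR R + pR R / (1 - (1 - pR R))) = 1 + n * pR R := by
    have : 1 - (1 - pR R) = pR R := by ring
    rw [this, div_self h0.ne']
    ring
  have e3 : (1 - pR R) ^ n * (pR R * (1 - pR R) / (1 - (1 - pR R))) = (1 - pR R) ^ (n + 1) := by
    have : 1 - (1 - pR R) = pR R := by ring
    rw [this, mul_div_assoc, mul_comm (pR R), div_mul_cancel₀ _ h0.ne', pow_succ]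
  rw [e1, e2, e3, ← hue, ← hve, div_pow, div_pow]
  have h1 : u ^ R ≠ 0 := by positivity
  have h2 : v ^ R ≠ 0 := by positivity
  rw [pow_succ u R, pow_succ v R, pow_succ (u + v) R]
  field_simp

/-- `L_R ≤ (1 + o(1)) R log R` -/
theorem LL_asymp : ∀ ε : ℝ, 0 < ε → ∃ R₀ : ℕ, ∀ R : ℕ, R₀ ≤ R →
    LL R ≤ (1 + ε) * (R * Real.log R) := by
  intro ε hε
  -- `κ = (R+1) (log (R+1) + log log (R+1))`
  have hmain : ∀ R : ℕ, 2 ≤ R → LL R ≤ (((R : ℝ) + 1) * (Real.log ((R : ℝ) + 1) +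
      Real.log (Real.log ((R : ℝ) + 1))) + 1) * Real.exp (1 / Real.log ((R : ℝ) + 1)) := by
    intro R hR
    have hR2 : (2 : ℝ) ≤ R := by exact_mod_cast hR
    have hR1 : (0 : ℝ) < (R : ℝ) + 1 := by positivity
    have hlog1 : 1 ≤ Real.log ((R : ℝ) + 1) := by
      rw [Real.le_log_iff_exp_le hR1]
      have := Real.exp_one_lt_d9
      linarith
    have hl0 : 0 < Real.log ((R : ℝ) + 1) := by linarith
    have hll : 0 ≤ Real.log (Real.log ((R : ℝ) + 1)) := Real.log_nonneg hlog1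
    obtain ⟨κ, hκ⟩ : ∃ κ : ℝ, κ = ((R : ℝ) + 1) * (Real.log ((R : ℝ) + 1) +
      Real.log (Real.log ((R : ℝ) + 1))) := ⟨_, rfl⟩
    have hκ0 : 0 ≤ κ := by rw [hκ]; positivity
    have h := LL_le_rand (show 1 ≤ R by omega) hκ0
    rw [← hκ]
    have e1 : Real.exp (-κ / ((R : ℝ) + 1)) = 1 / (((R : ℝ) + 1) * Real.log ((R : ℝ) + 1)) := by
      have : -κ / ((R : ℝ) + 1) = -(Real.log (((R : ℝ) + 1) * Real.log ((R : ℝ) + 1))) := by
        rw [hκ, Real.log_mul hR1.ne' hl0.ne']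
        field_simp
      rw [this, Real.exp_neg, Real.exp_log (by positivity), one_div]
    rw [e1] at h
    obtain ⟨u, hu⟩ : ∃ u : ℝ, u = (κ + 1) ^ ((1 : ℝ) / ((R : ℝ) + 1)) := ⟨_, rfl⟩
    rw [← hu] at h
    have hu1 : 1 ≤ u := by rw [hu]; exact Real.one_le_rpow (by linarith) (by positivity)
    have hue : u ^ (R + 1) = κ + 1 := by
      rw [hu, ← Real.rpow_natCast, ← Real.rpow_mul (by linarith)]
      have : (1 : ℝ) / ((R : ℝ) + 1) * ((R + 1 : ℕ) : ℝ) = 1 := by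
        push_cast
        field_simp
      rw [this, Real.rpow_one]
    obtain ⟨v, hv⟩ : ∃ v : ℝ, v = 1 / (((R : ℝ) + 1) * Real.log ((R : ℝ) + 1)) := ⟨_, rfl⟩
    rw [← hv] at h
    have hv0 : 0 < v := by rw [hv]; positivity
    refine h.trans ?_
    have h1 : u + v ≤ u * Real.exp v := by
      have h2 : v + 1 ≤ Real.exp v := Real.add_one_le_exp v
      nlinarith
    calc (u + v) ^ (R + 1) ≤ (u * Real.exp v) ^ (R + 1) :=
          pow_le_pow_left₀ (by positivity) h1 _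
      _ = (κ + 1) * Real.exp (1 / Real.log ((R : ℝ) + 1)) := by
          rw [mul_pow, hue, ← Real.exp_nat_mul]
          congr 2
          rw [hv]
          push_cast
          field_simp
  -- the limit
  have t0 : Tendsto (fun R : ℕ => (R : ℝ)) atTop atTop := tendsto_natCast_atTop_atTop
  have t1 : Tendsto (fun R : ℕ => Real.log (R : ℝ)) atTop atTop := Real.tendsto_log_atTop.comp t0
  have t2 : Tendsto (fun R : ℕ => Real.log ((R : ℝ) + 1)) atTop atTop :=
    Real.tendsto_log_atTop.comp (tendsto_atTop_add_const_right _ _ t0)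
  have t3 : Tendsto (fun R : ℕ => Real.exp (1 / Real.log ((R : ℝ) + 1))) atTop (𝓝 1) := by
    have h := Real.continuous_exp.tendsto (0 : ℝ)
    rw [Real.exp_zero] at h
    exact h.comp (tendsto_const_nhds.div_atTop t2)
  -- log (R+1) / log R → 1
  have t4 : Tendsto (fun R : ℕ => Real.log ((R : ℝ) + 1) / Real.log R) atTop (𝓝 1) := by
    have h1 : Tendsto (fun R : ℕ => 1 + (1 / (R : ℝ)) / Real.log R) atTop (𝓝 (1 + 0)) := by
      refine Tendsto.const_add _ ?_
      have h2 : Tendsto (fun R : ℕ => 1 / (R : ℝ)) atTop (𝓝 0) :=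
        tendsto_one_div_atTop_nhds_zero_nat
      exact h2.div_atTop t1
    rw [add_zero] at h1
    refine tendsto_of_tendsto_of_tendsto_of_le_of_le' tendsto_const_nhds h1 ?_ ?_
    · filter_upwards [eventually_ge_atTop 2] with R hR
      have hR2 : (2 : ℝ) ≤ R := by exact_mod_cast hR
      have hl : 0 < Real.log R := Real.log_pos (by linarith)
      rw [le_div_iff₀ hl, one_mul]
      exact Real.log_le_log (by linarith) (by linarith)
    · filter_upwards [eventually_ge_atTop 2] with R hR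
      have hR2 : (2 : ℝ) ≤ R := by exact_mod_cast hR
      have hR0 : (0 : ℝ) < R := by linarith
      have hl : 0 < Real.log R := Real.log_pos (by linarith)
      rw [div_le_iff₀ hl, add_mul, one_mul, div_mul_cancel₀ _ hl.ne']
      have e : (R : ℝ) + 1 = R * (1 + 1 / R) := by field_simp
      rw [e, Real.log_mul hR0.ne' (by positivity)]
      have := Real.log_le_sub_one_of_pos (show (0 : ℝ) < 1 + 1 / R by positivity)
      linarith
  -- log log (R+1) / log R → 0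
  have t5 : Tendsto (fun R : ℕ => Real.log (Real.log ((R : ℝ) + 1)) / Real.log R) atTop (𝓝 0) := by
    have h1 : Tendsto (fun x : ℝ => Real.log x / x) atTop (𝓝 0) :=
      Real.isLittleO_log_id_atTop.tendsto_div_nhds_zero
    have h2 := (h1.comp t2).mul t4
    rw [zero_mul] at h2
    refine h2.congr' ?_
    filter_upwards [t2.eventually_gt_atTop 0, t1.eventually_gt_atTop 0] with R h3 h4
    simp only [Function.comp]
    field_simp
  -- (R+1)/R → 1
  have t6 : Tendsto (fun R : ℕ => ((R : ℝ) + 1) / R) atTop (𝓝 1) := by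
    have h1 : Tendsto (fun R : ℕ => 1 + 1 / (R : ℝ)) atTop (𝓝 (1 + 0)) :=
      Tendsto.const_add _ tendsto_one_div_atTop_nhds_zero_nat
    rw [add_zero] at h1
    refine h1.congr' ?_
    filter_upwards [eventually_ge_atTop 1] with R hR
    have hR0 : (0 : ℝ) < R := by exact_mod_cast hR
    field_simp
  have t7 : Tendsto (fun R : ℕ => 1 / (R : ℝ) / Real.log R) atTop (𝓝 0) :=
    (tendsto_one_div_atTop_nhds_zero_nat (𝕜 := ℝ)).div_atTop t1
  have hfin := ((t6.mul (t4.add t5)).add t7).mul t3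
  have e : ((1 : ℝ) * (1 + 0) + 0) * 1 = 1 := by norm_num
  rw [e] at hfin
  obtain ⟨R₀, hR₀⟩ := eventually_atTop.1
    ((hfin.eventually_lt_const (show (1 : ℝ) < 1 + ε by linarith)).and (eventually_ge_atTop 2))
  refine ⟨R₀, fun R hR => ?_⟩
  obtain ⟨h1, h2⟩ := hR₀ R hR
  have hR2 : (2 : ℝ) ≤ R := by exact_mod_cast h2
  have hR0 : (0 : ℝ) < R := by linarith
  have hl : 0 < Real.log R := Real.log_pos (by linarith)
  refine (hmain R h2).trans ?_
  have h3 := mul_le_mul_of_nonneg_right h1.le (show (0 : ℝ) ≤ R * Real.log R by positivity)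
  refine le_trans (le_of_eq ?_) h3
  field_simp

/-- the product inequality with the optimal splitting -/
theorem LL_prod_opt {R₁ R₂ : ℕ} (h1 : 1 ≤ R₁) (h2 : 1 ≤ R₂) :
    LL (R₁ + R₂) ≤ (R₁.factorial : ℝ) * R₂.factorial * ((R₁ : ℝ) + R₂) ^ (R₁ + R₂) /
      ((R₁ + R₂).factorial * ((R₁ : ℝ) ^ R₁ * (R₂ : ℝ) ^ R₂)) * (LL R₁ * LL R₂) := by
  have a1 : (0 : ℝ) < R₁ := by exact_mod_cast h1
  have a2 : (0 : ℝ) < R₂ := by exact_mod_cast h2
  have h := LL_prod h1 h2 (lam := (R₁ : ℝ) / ((R₁ : ℝ) + R₂)) (by positivity)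
    (by rw [div_lt_one (by positivity)]; linarith)
  refine h.trans (le_of_eq ?_)
  have e : 1 - (R₁ : ℝ) / ((R₁ : ℝ) + R₂) = R₂ / ((R₁ : ℝ) + R₂) := by field_simp; ring
  rw [e, div_pow, div_pow, pow_add]
  have b1 : (0 : ℝ) < ((R₁ + R₂).factorial : ℝ) := by positivity
  field_simp

/-- the extension to all orders -/
theorem all_orders {R : ℕ} (hR : 1 ≤ R) {ε : ℝ} (hε : 0 < ε) : ∃ r₀ : ℕ, ∀ r : ℕ, r₀ ≤ r →
    ∀ m : ℕ, r + R ≤ m → 1 - Pool.Agent.H120R2.Clique.turanDensity r m ≤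
      (LL R + ε) / (((r + R).choose R : ℝ) * (((m - 1) / (r + R - 1) : ℕ) : ℝ) ^ (r - 1)) := by
  obtain ⟨r₀, hr₀⟩ := eventually_atTop.1
    ((CC_tendsto hR).eventually_le_const (show LL R < LL R + ε by linarith))
  refine ⟨max r₀ 3, fun r hr m hm => ?_⟩
  have hr3 : 3 ≤ r := (le_max_right _ _).trans hr
  have hb := hr₀ r ((le_max_left _ _).trans hr)
  obtain ⟨s, rfl⟩ : ∃ s, r = s + 1 := ⟨r - 1, by omega⟩
  rw [Nat.add_sub_cancel]
  have h6 := Pool.Agent.H688R3.TuranGen.t_div (s := s) (by omega) (j := s + 1 + R) (m := m)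
    (by omega) (by omega)
  have hq : 1 ≤ (m - 1) / (s + 1 + R - 1) := (Nat.one_le_div_iff (by omega)).2 (by omega)
  have hq' : (0 : ℝ) < (((m - 1) / (s + 1 + R - 1) : ℕ) : ℝ) := by exact_mod_cast hq
  have hC : (0 : ℝ) < ((s + 1 + R).choose R : ℝ) := by
    exact_mod_cast Nat.choose_pos (show R ≤ s + 1 + R by omega)
  rw [le_div_iff₀ (by positivity)]
  have hb' : ((s + 1 + R).choose R : ℝ) * Pool.Agent.H688R3.TuranGen.t (s + 1) (s + 1 + R) ≤
      LL R + ε := hb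
  have h7 := mul_le_mul_of_nonneg_left h6 hC.le
  have h8 : ((s + 1 + R).choose R : ℝ) * (((((m - 1) / (s + 1 + R - 1) : ℕ)) : ℝ) ^ s *
      (1 - Pool.Agent.H120R2.Clique.turanDensity (s + 1) m)) ≤ LL R + ε := h7.trans hb'
  linarith

/-- **Almost coverings.** -/
theorem almost {R : ℕ} (hR : 1 ≤ R) {Φ δ : ℝ} (h0 : 0 ≤ Φ) (h1 : Φ < 1) (hδ : 0 < δ) :
    ∃ r₀ : ℕ, ∀ r : ℕ, r₀ ≤ r → ∀ a : ℝ,
      (∀ n₀ : ℕ, ∃ n : ℕ, n₀ ≤ n ∧ ∃ T : Finset (Finset (Fin n)), (∀ Z ∈ T, Z.card = r) ∧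
        (T.card : ℝ) ≤ a * (n.choose r : ℝ) ∧
        (((univ.powersetCard (r + R)).filter fun Y => ∀ Z ∈ T, ¬ Z ⊆ Y).card : ℝ) ≤
          Φ * (n.choose (r + R) : ℝ)) →
      (1 - δ) * LL R ≤ HH R Φ * (((r + R).choose R : ℝ) * a) := by
  have hL := LL_ge hR
  have hH : 0 < HH R Φ := HH_pos h0 h1
  -- continuity of `HH` at `Φ`
  have hcont : ContinuousAt (HH R) Φ := by
    unfold HH
    refine ContinuousAt.div (ContinuousAt.pow (ContinuousAt.add continuousAt_const ?_) _)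
      (by fun_prop) (by linarith)
    exact (Real.continuousAt_rpow_const _ _ (Or.inr (by positivity)))
  have t0 : Tendsto (fun r : ℕ => 1 / ((r + R : ℕ) : ℝ)) atTop (𝓝 0) :=
    (tendsto_one_div_atTop_nhds_zero_nat (𝕜 := ℝ)).comp (tendsto_add_atTop_nat R)
  have t1 : Tendsto (fun r : ℕ => HH R (Φ + 1 / ((r + R : ℕ) : ℝ))) atTop (𝓝 (HH R Φ)) := by
    refine hcont.tendsto.comp ?_
    have := t0.const_add Φ
    rwa [add_zero] at this
  have t2 := (tendsto_add_atTop_nat R).eventually (mu_tendsto R (δ / 2) (by positivity))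
  have t3 := t1.eventually_lt_const (show HH R Φ < HH R Φ * (1 + δ / 4) by nlinarith)
  have t4 := t0.eventually_lt_const (show (0 : ℝ) < 1 - Φ by linarith)
  obtain ⟨r₀, hr₀⟩ := eventually_atTop.1 ((LL_le_almost hR).and (t2.and (t3.and t4)))
  refine ⟨r₀, fun r hr a ha => ?_⟩
  obtain ⟨g1, g2, g3, g4⟩ := hr₀ r hr
  rcases le_or_gt 1 δ with hδ1 | hδ1
  · -- the left side is nonpositive
    obtain ⟨n, hn, T, hT1, hT2, hT3⟩ := ha r
    have hC : (0 : ℝ) < (n.choose r : ℝ) := by exact_mod_cast Nat.choose_pos hn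
    have ha0 : 0 ≤ a := by
      by_contra hcon
      push Not at hcon
      have := mul_neg_of_neg_of_pos hcon hC
      have h5 : (0 : ℝ) ≤ T.card := Nat.cast_nonneg _
      linarith
    have h6 : (1 - δ) * LL R ≤ 0 := mul_nonpos_of_nonpos_of_nonneg (by linarith) (by linarith)
    have h7 : 0 ≤ HH R Φ * (((r + R).choose R : ℝ) * a) := by positivity
    linarith
  have hrnd : ∀ n, Rnd R n r a Φ := by
    intro n
    obtain ⟨N, hN, T, hT1, hT2, hT3⟩ := ha n
    refine rnd_of_family hN T hT1 hT2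
      ((univ.powersetCard (r + R)).filter fun Y => ∀ Z ∈ T, ¬ Z ⊆ Y) ?_ ?_ hT3
    · intro Y hY
      exact (mem_powersetCard.1 (mem_filter.1 hY).1).2
    · intro Y hY hYU
      by_contra hcon
      push Not at hcon
      exact hYU (mem_filter.2 ⟨mem_powersetCard.2 ⟨subset_univ _, hY⟩, hcon⟩)
  have ha0 : 0 ≤ a := (hrnd r).a_nonneg
  have h5 := g1 a Φ h0 (by linarith) hrnd
  have hCa : 0 ≤ ((r + R).choose R : ℝ) * a := by positivity
  have hmu := mu_nonneg R (r + R)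
  have h6 : LL R ≤ (HH R Φ * (1 + δ / 4)) * ((1 + δ / 2) * (((r + R).choose R : ℝ) * a)) := by
    refine h5.trans ?_
    apply mul_le_mul g3.le (mul_le_mul_of_nonneg_right g2 hCa) (by positivity) (by positivity)
  have h7 : (1 - δ) * ((1 + δ / 4) * (1 + δ / 2)) ≤ 1 := by
    have e : (1 - δ) * ((1 + δ / 4) * (1 + δ / 2)) =
        1 - (δ / 4 + 5 * δ ^ 2 / 8 + δ ^ 3 / 8) := by ring
    rw [e]
    have : 0 ≤ δ / 4 + 5 * δ ^ 2 / 8 + δ ^ 3 / 8 := by positivity
    linarith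
  have h8 : 0 ≤ HH R Φ * (((r + R).choose R : ℝ) * a) := by positivity
  calc (1 - δ) * LL R ≤ (1 - δ) * ((HH R Φ * (1 + δ / 4)) *
        ((1 + δ / 2) * (((r + R).choose R : ℝ) * a))) :=
        mul_le_mul_of_nonneg_left h6 (by linarith)
    _ = ((1 - δ) * ((1 + δ / 4) * (1 + δ / 2))) * (HH R Φ * (((r + R).choose R : ℝ) * a)) := by
        ring
    _ ≤ 1 * (HH R Φ * (((r + R).choose R : ℝ) * a)) := mul_le_mul_of_nonneg_right h7 h8
    _ = _ := one_mul _

end Pool.Agent.J4.H85.GD
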