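import Pool.Agent.J4.H85.GD.Asy

/-!
# Purely random families, and a bound with an initial round
-/

set_option autoImplicit false

open Finset Filter Topology

namespace Pool.Agent.J4.H85.GD

open Pool.Agent.H369R2.TD.Det (coord_count)

/-- a purely random family -/
theorem rnd_random {R n d i m : ℕ} (hi : i ≤ m) (hm : 0 < m) :
    Rnd R n d ((i : ℝ) / m) ((1 - (i : ℝ) / m) ^ ((d + R).choose R)) := by
  classical
  have : NeZero m := ⟨hm.ne'⟩
  have hmR : (0 : ℝ) < m := by exact_mod_cast hm
  refine ⟨Finset (Fin n) → Fin m, inferInstance, ⟨fun _ => 0⟩,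
    fun ω => (powersetCard d univ).filter fun Z => (ω Z).val < i, ?_, ?_, ?_⟩
  · intro ω Z hZ
    exact (mem_powersetCard.1 (mem_filter.1 hZ).1).2
  · intro Z hZ
    have h1 := coord_count Z (fun x : Fin m => x.val < i)
    have h2 : ((univ.filter fun x : Fin m => x.val < i).card : ℝ) = i := by
      have : (univ.filter fun x : Fin m => x.val < i).card = i := by
        rw [Fin.card_filter_val_lt]
        omega
      exact_mod_cast this
    rw [h2, Fintype.card_fin] at h1
    have h3 : (univ.filter fun ω : Finset (Fin n) → Fin m =>
        Z ∈ (powersetCard d (univ : Finset (Fin n))).filter fun Z => (ω Z).val < i) =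
        univ.filter fun ω : Finset (Fin n) → Fin m => (ω Z).val < i := by
      ext ω
      simp only [mem_filter, mem_univ, true_and, mem_powersetCard, subset_univ, hZ]
    rw [h3, div_mul_eq_mul_div, le_div_iff₀ hmR]
    exact h1.le
  · intro Y hY
    have h3 : (univ.filter fun ω : Finset (Fin n) → Fin m => ¬ ∃ Z ∈ (powersetCard d
        (univ : Finset (Fin n))).filter fun Z => (ω Z).val < i, Z ⊆ Y) =
        Fintype.piFinset (fun Z => if Z ∈ powersetCard d Y then
          univ.filter (fun x : Fin m => ¬ x.val < i) else (univ : Finset (Fin m))) := by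
      ext ω
      simp only [mem_filter, mem_univ, true_and, Fintype.mem_piFinset, mem_powersetCard,
        subset_univ, not_exists, not_and]
      constructor
      · intro h Z
        by_cases hZ : Z ⊆ Y ∧ Z.card = d
        · rw [if_pos hZ, mem_filter]
          exact ⟨mem_univ _, fun hlt => h Z ⟨hZ.2, hlt⟩ hZ.1⟩
        · rw [if_neg hZ]
          exact mem_univ _
      · rintro h Z ⟨hZ1, hZ2⟩ hZ3
        have := h Z
        rw [if_pos ⟨hZ3, hZ1⟩, mem_filter] at this
        exact this.2 hZ2
    rw [h3, Fintype.card_piFinset]
    have h4 : ∀ Z : Finset (Fin n), (if Z ∈ powersetCard d Y then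
          univ.filter (fun x : Fin m => ¬ x.val < i) else (univ : Finset (Fin m))).card =
        if Z ∈ powersetCard d Y then m - i else m := by
      intro Z
      split_ifs
      · rw [Finset.filter_not, Finset.card_sdiff_of_subset (filter_subset _ _),
          Fin.card_filter_val_lt, Finset.card_univ, Fintype.card_fin]
        omega
      · rw [Finset.card_univ, Fintype.card_fin]
    rw [Finset.prod_congr rfl fun Z _ => h4 Z, Finset.prod_ite, Finset.prod_const,
      Finset.prod_const, Finset.filter_mem_eq_inter, Finset.univ_inter, card_powersetCard, hY]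
    have h5 : (univ.filter fun Z : Finset (Fin n) => ¬ Z ∈ powersetCard d Y).card =
        Fintype.card (Finset (Fin n)) - (d + R).choose d := by
      rw [Finset.filter_not, Finset.card_sdiff_of_subset (filter_subset _ _),
        Finset.filter_mem_eq_inter, Finset.univ_inter, card_powersetCard, hY, Finset.card_univ]
    have h6 : (d + R).choose d ≤ Fintype.card (Finset (Fin n)) := by
      rw [← hY, ← card_powersetCard, ← Finset.card_univ]
      exact card_le_card (subset_univ _)
    rw [h5, Fintype.card_fun, Fintype.card_fin]
    have h7 : (d + R).choose R = (d + R).choose d := (Nat.choose_symm_add).symm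
    rw [h7]
    push_cast
    rw [Nat.cast_sub hi]
    obtain ⟨e, he⟩ : ∃ e, Fintype.card (Finset (Fin n)) = (d + R).choose d + e :=
      ⟨_, (Nat.add_sub_cancel' h6).symm⟩
    rw [he, Nat.add_sub_cancel_left, pow_add]
    have h8 : (1 - (i : ℝ) / m) = ((m : ℝ) - i) / m := by field_simp
    rw [h8, div_pow]
    apply le_of_eq
    field_simp

end Pool.Agent.J4.H85.GD
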