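import Pool.Agent.J4.H85.GD.Fam
import Pool.Agent.J4.H85.GD.Ach

/-!
# Families that cover almost all `(r + R)`-sets
-/

set_option autoImplicit false

open Finset Filter Topology

namespace Pool.Agent.J4.H85.GD

open Pool.Agent.J4.H85.GD.Comp (ff detFF)

/-- the factor `(1 + Φ^(1/(R+1)))^(R+1) / (1 - Φ)` -/
noncomputable def HH (R : ℕ) (Φ : ℝ) : ℝ :=
  (1 + Φ ^ ((1 : ℝ) / ((R : ℝ) + 1))) ^ (R + 1) / (1 - Φ)

theorem Ach.mono {R : ℕ} {A A' Φ Φ' : ℝ} (h : Ach R A Φ) (hA : A ≤ A') (hΦ : Φ ≤ Φ') :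
    Ach R A' Φ' := by
  intro ε hε
  filter_upwards [h ε hε] with d ⟨a, Ψ, h1, h2, h3, h4, h5⟩
  exact ⟨a, Ψ, h1, h2, h3, by linarith, by linarith⟩

theorem LL_le_ach {R : ℕ} (hR : 1 ≤ R) {A Φ : ℝ} (h : Ach R A Φ) (h0 : 0 < Φ) (h1 : Φ < 1) :
    LL R ≤ HH R Φ * A := by
  obtain ⟨p, hp⟩ : ∃ p : ℝ, p = Φ ^ ((1 : ℝ) / ((R : ℝ) + 1)) := ⟨_, rfl⟩
  have hp0 : 0 < p := by rw [hp]; exact Real.rpow_pos_of_pos h0 _
  have hpP : p ^ (R + 1) = Φ := by
    rw [hp, ← Real.rpow_natCast, ← Real.rpow_mul h0.le]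
    have : (1 : ℝ) / ((R : ℝ) + 1) * ((R + 1 : ℕ) : ℝ) = 1 := by
      push_cast
      field_simp
    rw [this, Real.rpow_one]
  have h1p : 0 < 1 + p := by linarith
  have hb := ach_bound hR (ach_triv R) h h zero_le_one h0.le h1 h0.le h1
    (lam := 1 / (1 + p)) (by positivity) (by rw [div_lt_one h1p]; linarith)
  refine hb.trans (le_of_eq ?_)
  unfold HH
  rw [← hp]
  have e2 : 1 - 1 / (1 + p) = p / (1 + p) := by field_simp; ring
  rw [e2, ← hpP]
  have h3 : 1 - p ^ (R + 1) ≠ 0 := by rw [hpP]; linarith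
  rw [div_pow, div_pow, one_pow]
  have h4 : p ^ R ≠ 0 := by positivity
  have h5 : (1 + p) ^ R ≠ 0 := by positivity
  rw [zero_add, one_mul, pow_succ (1 + p) R]
  have h6 : p ^ (R + 1) = p ^ R * p := pow_succ p R
  rw [div_div_eq_mul_div, div_one, div_div_eq_mul_div]
  rw [h6] at h3 ⊢
  field_simp

/-- convergence of the binomial averages -/
theorem pois_lim {R : ℕ} {c : ℕ → ℝ} {K D y : ℝ} (h0 : ∀ j, 0 ≤ c j) (hK : ∀ j, c j ≤ K)
    {q : ℕ → ℕ} (hqp : ∀ d, (q d).Prime) (hq1 : Tendsto (fun d => (q d : ℝ)) atTop atTop)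
    (hq2 : Tendsto (fun d : ℕ => (d : ℝ) / q d) atTop (𝓝 y))
    (hD : Real.exp (-y) * ∑' j : ℕ, c j * (y ^ j / (j.factorial : ℝ)) < D) :
    ∀ᶠ d : ℕ in atTop, (q d : ℝ) / ((q d : ℝ) - 1) *
      ∑ j ∈ range (d + R), bw (d + R) (q d) j * c j ≤ D := by
  have habs : ∀ j, |c j| ≤ K := fun j => by rw [abs_of_nonneg (h0 j)]; exact hK j
  have hK0 : 0 ≤ K := (h0 0).trans (hK 0)
  -- the truncated averages
  have hB : Tendsto (fun J : ℕ => ∑ j ∈ range J, Real.exp (-y) * (y ^ j / (j.factorial : ℝ)) * c j +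
      K * (1 - ∑ j ∈ range J, Real.exp (-y) * (y ^ j / (j.factorial : ℝ)))) atTop
      (𝓝 (Real.exp (-y) * ∑' j : ℕ, c j * (y ^ j / (j.factorial : ℝ)))) := by
    have h1 := (summ y habs).hasSum.tendsto_sum_nat
    have h2 := (Real.summable_pow_div_factorial y).hasSum.tendsto_sum_nat
    rw [exp_tsum] at h2
    have h3 := (h1.const_mul (Real.exp (-y))).add
      (((h2.const_mul (Real.exp (-y))).const_sub 1).const_mul K)
    have e : Real.exp (-y) * (∑' j : ℕ, c j * (y ^ j / (j.factorial : ℝ))) +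
        K * (1 - Real.exp (-y) * Real.exp y) =
        Real.exp (-y) * ∑' j : ℕ, c j * (y ^ j / (j.factorial : ℝ)) := by
      rw [← Real.exp_add]
      simp
    rw [e] at h3
    refine h3.congr fun J => ?_
    rw [Finset.mul_sum, Finset.mul_sum]
    congr 1
    apply Finset.sum_congr rfl
    intro j _
    ring
  obtain ⟨J, hJ⟩ := (hB.eventually_lt_const hD).exists
  have hqq := qq_tendsto hq1
  have hw := fun j => bw_tendsto R hq1 hq2 j
  have t1 : Tendsto (fun d : ℕ => (q d : ℝ) / ((q d : ℝ) - 1) *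
      (∑ j ∈ range J, bw (d + R) (q d) j * c j +
        K * (1 - ∑ j ∈ range J, bw (d + R) (q d) j))) atTop
      (𝓝 (1 * (∑ j ∈ range J, Real.exp (-y) * (y ^ j / (j.factorial : ℝ)) * c j +
      K * (1 - ∑ j ∈ range J, Real.exp (-y) * (y ^ j / (j.factorial : ℝ)))))) := by
    refine hqq.mul ?_
    refine Tendsto.add ?_ (Tendsto.const_mul _ (Tendsto.const_sub _ ?_))
    · exact tendsto_finsetSum _ fun j _ => (hw j).mul_const _
    · exact tendsto_finsetSum _ fun j _ => hw j
  rw [one_mul] at t1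
  filter_upwards [t1.eventually_lt_const hJ, eventually_ge_atTop J] with d h1 hdJ
  refine le_trans ?_ h1.le
  have hqR : (2 : ℝ) ≤ q d := by exact_mod_cast (hqp d).two_le
  apply mul_le_mul_of_nonneg_left _ (div_nonneg (by linarith) (by linarith))
  have hb := bw_nonneg (N := d + R) (q := (q d : ℝ)) (by linarith)
  have h2 : ∑ j ∈ range (d + R), bw (d + R) (q d) j * c j ≤
      ∑ j ∈ range (d + R + 1), bw (d + R) (q d) j * c j := by
    apply Finset.sum_le_sum_of_subset_of_nonneg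
    · exact Finset.range_subset_range.2 (by omega)
    · intro j _ _
      exact mul_nonneg (hb j) (h0 j)
  refine h2.trans ?_
  have hs : range J ⊆ range (d + R + 1) := Finset.range_subset_range.2 (by omega)
  rw [← Finset.sum_sdiff hs]
  have h3 : ∑ j ∈ range (d + R + 1) \ range J, bw (d + R) (q d) j * c j ≤
      ∑ j ∈ range (d + R + 1) \ range J, K * bw (d + R) (q d) j := by
    apply Finset.sum_le_sum
    intro j _
    have := mul_le_mul_of_nonneg_left (hK j) (hb j)
    linarith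
  have h4 : ∑ j ∈ range (d + R + 1) \ range J, K * bw (d + R) (q d) j =
      K * (1 - ∑ j ∈ range J, bw (d + R) (q d) j) := by
    rw [← Finset.mul_sum]
    congr 1
    have := Finset.sum_sdiff hs (f := fun j => bw (d + R) (q d) j)
    rw [bw_sum] at this
    linarith
  linarith

theorem detFF_eq {R d q : ℕ} (hq : 2 ≤ q) (Φ : ℕ → ℝ) :
    detFF R d q Φ = (q : ℝ) / ((q : ℝ) - 1) *
      ∑ j ∈ range (d + R), bw (d + R) q j * ff R Φ j := by
  have hq' : (2 : ℝ) ≤ q := by exact_mod_cast hq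
  have hq1 : (1 : ℝ) < q := by linarith
  have hq0 : (0 : ℝ) < (q : ℝ) - 1 := by linarith
  unfold detFF
  rw [Finset.mul_sum]
  apply Finset.sum_congr rfl
  intro j hj
  rw [mem_range] at hj
  rw [bw_eq (by omega) hq1]
  have e3 : (q : ℝ) ^ (d + R) = (q : ℝ) ^ (d + R - 1) * q := by
    rw [← pow_succ]; congr 1; omega
  have hqne : (q : ℝ) ≠ 0 := by linarith
  have e4 : ((q : ℝ) - 1) ^ (d + R - j) = ((q : ℝ) - 1) ^ (d + R - j - 1) * ((q : ℝ) - 1) := by
    rw [← pow_succ]; congr 1; omega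
  rw [e4, e3]
  field_simp

theorem detFF_pos {R d q : ℕ} (hR : 1 ≤ R) (hq : 2 ≤ q) {Φ : ℕ → ℝ} (h0 : ∀ m, 0 ≤ Φ m) :
    0 < detFF R d q Φ := by
  have hq' : (2 : ℝ) ≤ q := by exact_mod_cast hq
  have hq0 : (0 : ℝ) < (q : ℝ) - 1 := by linarith
  have hff : ∀ j, 0 ≤ ff R Φ j := by
    intro j
    unfold Comp.ff
    split_ifs
    · exact zero_le_one
    · exact h0 _
  unfold detFF
  refine Finset.sum_pos' (fun j _ => mul_nonneg (by positivity) (hff j)) ⟨0, ?_, ?_⟩
  · rw [mem_range]; omega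
  · have : ff R Φ 0 = 1 := by unfold Comp.ff; rw [if_pos (by omega)]
    rw [this, Nat.choose_zero_right]
    positivity

/-- **Composition.** Random families on the sets of zeros with the costs `a m` and the failure
probabilities `Φ m` give an achievable pair. -/
theorem ach_comp {R : ℕ} (hR : 1 ≤ R) {a Φ : ℕ → ℝ} {K y : ℝ} (hy : 0 < y)
    (h : ∀ m n, Rnd R n m (a m) (Φ m)) (ha : ∀ m, 0 ≤ a m)
    (hK : ∀ m, ((m + R).choose R : ℝ) * a m ≤ K) (hΦ0 : ∀ m, 0 ≤ Φ m) (hΦ1 : ∀ m, Φ m ≤ 1) :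
    Ach R (Real.exp (-y) * ∑' j : ℕ, ((j.choose R : ℝ) * a (j - R)) * (y ^ j / (j.factorial : ℝ)))
      (Real.exp (-y) * ∑' j : ℕ, ff R Φ j * (y ^ j / (j.factorial : ℝ))) := by
  intro ε hε
  obtain ⟨q, hqp, hq1, hq2⟩ := exists_primes hy
  have hK0 : 0 ≤ K := le_trans (mul_nonneg (Nat.cast_nonneg _) (ha 0)) (hK 0)
  have hc0 : ∀ j, 0 ≤ (j.choose R : ℝ) * a (j - R) := fun j =>
    mul_nonneg (Nat.cast_nonneg _) (ha _)
  have hcK : ∀ j, (j.choose R : ℝ) * a (j - R) ≤ K := by
    intro j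
    rcases Nat.lt_or_ge j R with h1 | h1
    · rw [Nat.choose_eq_zero_of_lt h1]
      simpa using hK0
    · obtain ⟨m, rfl⟩ : ∃ m, j = m + R := ⟨j - R, by omega⟩
      rw [Nat.add_sub_cancel]
      exact hK m
  have hf0 : ∀ j, 0 ≤ ff R Φ j := by
    intro j
    unfold Comp.ff
    split_ifs
    · exact zero_le_one
    · exact hΦ0 _
  have hf1 : ∀ j, ff R Φ j ≤ 1 := by
    intro j
    unfold Comp.ff
    split_ifs
    · exact le_rfl
    · exact hΦ1 _
  have p1 := pois_lim (R := R) hc0 hcK hqp hq1 hq2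
    (D := Real.exp (-y) * ∑' j : ℕ, ((j.choose R : ℝ) * a (j - R)) *
      (y ^ j / (j.factorial : ℝ)) + ε) (by linarith)
  have p2 := pois_lim (R := R) hf0 hf1 hqp hq1 hq2
    (D := Real.exp (-y) * ∑' j : ℕ, ff R Φ j * (y ^ j / (j.factorial : ℝ)) + ε) (by linarith)
  filter_upwards [p1, p2, eventually_ge_atTop 1] with d h1 h2 hd
  have hp := hqp d
  have hq2' : 2 ≤ q d := hp.two_le
  have hqR : (2 : ℝ) ≤ q d := by exact_mod_cast hq2'
  have : Fact (q d).Prime := ⟨hp⟩
  refine ⟨detA R d (q d) a, detFF R d (q d) Φ, fun n => ?_, detA_nonneg hq2' ha,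
    detFF_pos hR hq2' hΦ0, ?_, ?_⟩
  · have h3 := det_comp (ZMod (q d)) (n := n) (d := d) hR (fun m _ => h m n)
    simpa [ZMod.card] using h3
  · rw [detFF_eq hq2']
    exact h2
  · rw [detA_eq hR hq2']
    refine le_trans ?_ h1
    apply mul_le_mul_of_nonneg_left _ (div_nonneg (by linarith) (by linarith))
    have hb := bw_nonneg (N := d + R) (q := (q d : ℝ)) (by linarith)
    have e : ∑ m ∈ range d, bw (d + R) (q d) (m + R) * (((m + R).choose R : ℝ) * a m) =
        ∑ j ∈ (range d).image (fun m => m + R), bw (d + R) (q d) j *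
          ((j.choose R : ℝ) * a (j - R)) := by
      rw [Finset.sum_image]
      · apply Finset.sum_congr rfl
        intro m _
        rw [Nat.add_sub_cancel]
      · intro a _ b _ hab
        have : a + R = b + R := hab
        omega
    rw [e]
    apply Finset.sum_le_sum_of_subset_of_nonneg
    · intro j hj
      rw [mem_image] at hj
      obtain ⟨m, hm, rfl⟩ := hj
      rw [mem_range] at hm ⊢
      omega
    · intro j _ _
      exact mul_nonneg (hb j) (hc0 j)

/-- one almost covering family for the uniformity `r` -/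
theorem ach_single {R : ℕ} (hR : 1 ≤ R) {r : ℕ} {a ε y : ℝ} (hy : 0 < y) (hε0 : 0 ≤ ε)
    (hε1 : ε ≤ 1) (h : ∀ n, Rnd R n r a ε) :
    Ach R (y ^ R / (R.factorial : ℝ) * a) (PP (r + R) y + ε) := by
  have ha : 0 ≤ a := (h r).a_nonneg
  obtain ⟨am, ham⟩ : ∃ am : ℕ → ℝ, am = fun m => if m < r then 0 else min a (tt R m) := ⟨_, rfl⟩
  obtain ⟨Φm, hΦm⟩ : ∃ Φm : ℕ → ℝ, Φm = fun m =>
    if m < r then 1 else if tt R m ≤ a then 0 else ε := ⟨_, rfl⟩
  have h1 : ∀ m n, Rnd R n m (am m) (Φm m) := by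
    intro m n
    rw [ham, hΦm]
    simp only
    split_ifs with c1 c2
    · exact rnd_empty R n m
    · rw [min_eq_right c2]
      exact rnd_of_tur (tur_tt R m) n
    · rw [min_eq_left (not_le.1 c2).le]
      exact Rnd.lift h (not_lt.1 c1) n
  have h2 : ∀ m, 0 ≤ am m := by
    intro m
    rw [ham]
    simp only
    split_ifs
    · exact le_rfl
    · exact le_min ha (tt_nonneg R m)
  have h2' : ∀ m, am m ≤ a := by
    intro m
    rw [ham]
    simp only
    split_ifs
    · exact ha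
    · exact min_le_left _ _
  have h3 : ∀ m, ((m + R).choose R : ℝ) * am m ≤ KK R := by
    intro m
    have h4 : am m ≤ tt R m := by
      rw [ham]
      simp only
      split_ifs
      · exact tt_nonneg R m
      · exact min_le_right _ _
    exact (mul_le_mul_of_nonneg_left h4 (Nat.cast_nonneg _)).trans (CC_le hR m)
  have h4 : ∀ m, 0 ≤ Φm m := by
    intro m
    rw [hΦm]
    simp only
    split_ifs
    · exact zero_le_one
    · exact le_rfl
    · exact hε0
  have h5 : ∀ m, Φm m ≤ 1 := by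
    intro m
    rw [hΦm]
    simp only
    split_ifs
    · exact le_rfl
    · exact zero_le_one
    · exact hε1
  have hE := Real.exp_pos (-y)
  have hEE : Real.exp (-y) * Real.exp y = 1 := by rw [← Real.exp_add]; simp
  refine (ach_comp hR hy h1 h2 h3 h4 h5).mono ?_ ?_
  · -- the cost
    have hK0 : 0 ≤ KK R := (KK_pos hR).le
    have hcK : ∀ j, |(j.choose R : ℝ) * am (j - R)| ≤ KK R := by
      intro j
      rw [abs_of_nonneg (mul_nonneg (Nat.cast_nonneg _) (h2 _))]
      rcases Nat.lt_or_ge j R with h1 | h1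
      · rw [Nat.choose_eq_zero_of_lt h1]
        simpa using hK0
      · obtain ⟨m, rfl⟩ : ∃ m, j = m + R := ⟨j - R, by omega⟩
        rw [Nat.add_sub_cancel]
        exact h3 m
    have h6 := hasSum_le (fun j : ℕ => ?_) (summ y hcK).hasSum ((moment R y).mul_left a)
    · have h7 := mul_le_mul_of_nonneg_left h6 hE.le
      refine h7.trans (le_of_eq ?_)
      calc Real.exp (-y) * (a * (y ^ R / (R.factorial : ℝ) * Real.exp y))
          = y ^ R / (R.factorial : ℝ) * a * (Real.exp (-y) * Real.exp y) := by ring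
        _ = _ := by rw [hEE, mul_one]
    · have hp : (0 : ℝ) ≤ y ^ j / (j.factorial : ℝ) := by positivity
      have h8 : (j.choose R : ℝ) * am (j - R) ≤ a * (j.choose R : ℝ) := by
        rw [mul_comm a]
        exact mul_le_mul_of_nonneg_left (h2' _) (Nat.cast_nonneg _)
      calc (j.choose R : ℝ) * am (j - R) * (y ^ j / (j.factorial : ℝ))
          ≤ a * (j.choose R : ℝ) * (y ^ j / (j.factorial : ℝ)) := mul_le_mul_of_nonneg_right h8 hp
        _ = _ := by ring
  · -- the failure probability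
    have hf1 : ∀ j, |ff R Φm j| ≤ 1 := by
      intro j
      unfold Comp.ff
      split_ifs
      · simp
      · rw [abs_of_nonneg (h4 _)]; exact h5 _
    have hs2 : HasSum (fun j : ℕ => if j < r + R then (y ^ j / (j.factorial : ℝ)) else 0)
        (∑ j ∈ range (r + R), (y ^ j / (j.factorial : ℝ))) := by
      have h : HasSum (fun j : ℕ => if j < r + R then (y ^ j / (j.factorial : ℝ)) else 0)
          (∑ j ∈ range (r + R), (if j < r + R then (y ^ j / (j.factorial : ℝ)) else 0)) :=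
        hasSum_sum_of_ne_finset_zero (fun j hj => by
          have : ¬ j < r + R := by simpa using hj
          simp only [if_neg this])
      have e : ∑ j ∈ range (r + R), (if j < r + R then (y ^ j / (j.factorial : ℝ)) else 0) =
          ∑ j ∈ range (r + R), (y ^ j / (j.factorial : ℝ)) :=
        sum_congr rfl fun j hj => if_pos (mem_range.1 hj)
      rwa [e] at h
    have hs3 : HasSum (fun j : ℕ => ε * (y ^ j / (j.factorial : ℝ))) (ε * Real.exp y) := by
      have h2 := (Real.summable_pow_div_factorial y).hasSum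
      rw [exp_tsum] at h2
      exact h2.mul_left _
    have h6 := hasSum_le (fun j : ℕ => ?_) (summ y hf1).hasSum (hs2.add hs3)
    · have h7 := mul_le_mul_of_nonneg_left h6 hE.le
      refine h7.trans (le_of_eq ?_)
      unfold PP
      rw [mul_add]
      congr 1
      calc Real.exp (-y) * (ε * Real.exp y) = ε * (Real.exp (-y) * Real.exp y) := by ring
        _ = _ := by rw [hEE, mul_one]
    · have hp : (0 : ℝ) ≤ y ^ j / (j.factorial : ℝ) := by positivity
      by_cases c1 : j < r + R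
      · rw [if_pos c1]
        have h8 : ff R Φm j ≤ 1 := (le_abs_self _).trans (hf1 j)
        have h9 := mul_le_mul_of_nonneg_right h8 hp
        have h10 := mul_nonneg hε0 hp
        linarith
      · rw [if_neg c1, zero_add]
        apply mul_le_mul_of_nonneg_right _ hp
        unfold Comp.ff
        rw [if_neg (by omega), hΦm]
        simp only
        rw [if_neg (by omega)]
        split_ifs
        · exact hε0
        · exact le_rfl

/-- the factor `(1 + 2 √(log k / k))^R k^R / (R! C(k, R))` -/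
noncomputable def mu (R k : ℕ) : ℝ :=
  (1 + 2 * sk k) ^ R * ((k : ℝ) ^ R / ((R.factorial : ℝ) * (k.choose R : ℝ)))

theorem near_mu (R : ℕ) : Near (mu R) := ((near_sk 2 (by norm_num)).pow R).mul (near_choose R)

theorem mu_tendsto (R : ℕ) : ∀ δ : ℝ, 0 < δ → ∀ᶠ k : ℕ in atTop, mu R k ≤ 1 + δ := by
  intro δ hδ
  obtain ⟨A, hA, h⟩ := near_mu R
  have h1 : Tendsto (fun k : ℕ => 1 + A * sk k) atTop (𝓝 (1 + A * 0)) :=
    (sk_tendsto.const_mul A).const_add 1
  rw [mul_zero, add_zero] at h1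
  filter_upwards [h, h1.eventually_lt_const (show (1 : ℝ) < 1 + δ by linarith)] with k h2 h3
  linarith [h2.2]

/-- **The single-value bound for almost coverings.** -/
theorem LL_le_almost {R : ℕ} (hR : 1 ≤ R) : ∀ᶠ r : ℕ in atTop, ∀ a ε : ℝ, 0 ≤ ε →
    ε + 1 / ((r + R : ℕ) : ℝ) < 1 → (∀ n, Rnd R n r a ε) →
    LL R ≤ HH R (ε + 1 / ((r + R : ℕ) : ℝ)) * (mu R (r + R) * (((r + R).choose R : ℝ) * a)) := by
  have h2 := (tendsto_add_atTop_nat R).eventually tail_yk
  filter_upwards [h2, eventually_ge_atTop 3] with r h4 hr a ε hε0 hε1 h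
  set k : ℕ := r + R with hk
  have hk0 : (0 : ℝ) < k := by exact_mod_cast (show 0 < k by omega)
  have hyk0 : 0 < yk k := hk0.trans_le (le_yk k)
  have hik : 0 < 1 / (k : ℝ) := by positivity
  have h1 := ach_single hR hyk0 hε0 (by linarith) h
  have h5 : PP (r + R) (yk k) ≤ 1 / (k : ℝ) := by
    refine le_trans ?_ h4
    unfold PP
    apply mul_le_mul_of_nonneg_left _ (Real.exp_pos _).le
    apply Finset.sum_le_sum_of_subset_of_nonneg
    · exact Finset.range_subset_range.2 (by omega)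
    · intro j _ _
      positivity
  have h6 := h1.mono (le_refl _) (show PP (r + R) (yk k) + ε ≤ ε + 1 / (k : ℝ) by linarith)
  have h7 := LL_le_ach hR h6 (by linarith) hε1
  refine h7.trans (le_of_eq ?_)
  have hCk : (0 : ℝ) < (k.choose R : ℝ) := by
    exact_mod_cast Nat.choose_pos (show R ≤ k by omega)
  have hRf : (0 : ℝ) < (R.factorial : ℝ) := by positivity
  congr 1
  unfold mu yk
  rw [mul_pow]
  field_simp

end Pool.Agent.J4.H85.GD
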