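import Pool.Agent.J4.H85.GD.Rob

/-!
# Supersaturation, uniformly in the uniformity `r`
-/

set_option autoImplicit false

open Finset Filter Topology

namespace Pool.Agent.J4.H85.GD

open Pool.Agent.H120R2.Clique (turanDensity)

/-- every large `r`-graph whose density is at least `π(K_{r+R}^r) + δ` contains at least
`ε C(n, r+R)` copies of `K_{r+R}^r` -/
def Sat (R r : ℕ) (δ ε : ℝ) : Prop :=
  ∃ n₀ : ℕ, ∀ n : ℕ, n₀ ≤ n → ∀ H : Finset (Finset (Fin n)), (∀ e ∈ H, e.card = r) →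
    (turanDensity r (r + R) + δ) * (n.choose r : ℝ) ≤ (H.card : ℝ) →
    ε * (n.choose (r + R) : ℝ) ≤
      (((univ.powersetCard (r + R)).filter fun Y => Y.powersetCard r ⊆ H).card : ℝ)

theorem Sat.mono {R r : ℕ} {δ ε ε' : ℝ} (h : Sat R r δ ε) (he : ε' ≤ ε) : Sat R r δ ε' := by
  obtain ⟨n₀, h⟩ := h
  refine ⟨n₀, fun n hn H hH hc => le_trans ?_ (h n hn H hH hc)⟩
  exact mul_le_mul_of_nonneg_right he (Nat.cast_nonneg _)

/-- an `r`-graph with few copies of `K_{r+R}^r` gives random families -/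
theorem rnd_of_graph {R r n N : ℕ} (hn : n ≤ N) {δ ε : ℝ} (H : Finset (Finset (Fin N)))
    (hH : ∀ e ∈ H, e.card = r)
    (hc : (turanDensity r (r + R) + δ) * (N.choose r : ℝ) ≤ (H.card : ℝ))
    (hfew : (((univ.powersetCard (r + R)).filter fun Y => Y.powersetCard r ⊆ H).card : ℝ) <
      ε * (N.choose (r + R) : ℝ)) : Rnd R n r (tt R r - δ) ε := by
  classical
  refine rnd_of_family hn ((univ.powersetCard r) \ H) ?_ ?_
    ((univ.powersetCard (r + R)).filter fun Y => Y.powersetCard r ⊆ H) ?_ ?_ hfew.le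
  · intro Z hZ
    exact (mem_powersetCard.1 (mem_sdiff.1 hZ).1).2
  · have hsub : H ⊆ univ.powersetCard r := fun e he =>
      mem_powersetCard.2 ⟨subset_univ _, hH e he⟩
    rw [Finset.card_sdiff_of_subset hsub, Nat.cast_sub (card_le_card hsub), card_powersetCard,
      card_univ, Fintype.card_fin]
    unfold tt
    linarith
  · intro Y hY
    exact (mem_powersetCard.1 (mem_filter.1 hY).1).2
  · intro Y hY hYU
    have h1 : ¬ Y.powersetCard r ⊆ H := by
      intro h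
      exact hYU (mem_filter.2 ⟨mem_powersetCard.2 ⟨subset_univ _, hY⟩, h⟩)
    rw [Finset.not_subset] at h1
    obtain ⟨Z, hZ, hZH⟩ := h1
    rw [mem_powersetCard] at hZ
    exact ⟨Z, mem_sdiff.2 ⟨mem_powersetCard.2 ⟨subset_univ _, hZ.2⟩, hZH⟩, hZ.1⟩

/-- supersaturation for a fixed `r` -/
theorem sat_fixed (R r : ℕ) {δ : ℝ} (hδ : 0 < δ) : ∃ ε : ℝ, 0 < ε ∧ Sat R r δ ε := by
  have h1 := Pool.Agent.H688R3.TuranGen.tendsto_c r (r + R)
  have h2 := h1.eventually_const_lt (u := tt R r - δ / 2) (by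
    show tt R r - δ / 2 < tt R r
    linarith)
  obtain ⟨M, hM, hMr⟩ := (h2.and (eventually_ge_atTop (r + R))).exists
  have hC1 : (0 : ℝ) < (M.choose r : ℝ) := by exact_mod_cast Nat.choose_pos (by omega)
  have hC2 : (0 : ℝ) < (M.choose (r + R) : ℝ) := by exact_mod_cast Nat.choose_pos hMr
  rw [lt_div_iff₀ hC1] at hM
  refine ⟨δ / 4 * (M.choose r : ℝ) / (M.choose (r + R) : ℝ), by positivity, M, ?_⟩
  intro n hn H hH hc
  by_contra hcon
  push Not at hcon
  have h3 := rnd_of_graph hn H hH hc hcon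
  have h4 := rnd_lower h3
  have e : δ / 4 * (M.choose r : ℝ) / (M.choose (r + R) : ℝ) * (M.choose (r + R) : ℝ) =
      δ / 4 * (M.choose r : ℝ) := by field_simp
  rw [e] at h4
  nlinarith

theorem HH_tendsto (R : ℕ) : Tendsto (HH R) (𝓝[>] 0) (𝓝 1) := by
  have hcont : ContinuousAt (HH R) 0 := by
    unfold HH
    refine ContinuousAt.div (ContinuousAt.pow (ContinuousAt.add continuousAt_const ?_) _)
      (by fun_prop) (by norm_num)
    exact (Real.continuousAt_rpow_const _ _ (Or.inr (by positivity)))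
  have h := hcont.tendsto.mono_left (nhdsWithin_le_nhds (s := Set.Ioi 0))
  have e : HH R 0 = 1 := by
    unfold HH
    have hne : (1 : ℝ) / ((R : ℝ) + 1) ≠ 0 := by positivity
    rw [Real.zero_rpow hne]
    norm_num
  rwa [e] at h

theorem HH_mono {R : ℕ} {x y : ℝ} (h0 : 0 ≤ x) (hxy : x ≤ y) (h1 : y < 1) : HH R x ≤ HH R y := by
  unfold HH
  have h2 : x ^ ((1 : ℝ) / ((R : ℝ) + 1)) ≤ y ^ ((1 : ℝ) / ((R : ℝ) + 1)) :=
    Real.rpow_le_rpow h0 hxy (by positivity)
  have h3 : 0 ≤ x ^ ((1 : ℝ) / ((R : ℝ) + 1)) := Real.rpow_nonneg h0 _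
  have h4 : 0 ≤ y ^ ((1 : ℝ) / ((R : ℝ) + 1)) := h3.trans h2
  apply div_le_div₀ (by positivity) _ (by linarith) (by linarith)
  exact pow_le_pow_left₀ (by positivity) (by linarith) _

theorem HH_pos {R : ℕ} {x : ℝ} (h0 : 0 ≤ x) (h1 : x < 1) : 0 < HH R x := by
  unfold HH
  have h3 : 0 ≤ x ^ ((1 : ℝ) / ((R : ℝ) + 1)) := Real.rpow_nonneg h0 _
  apply div_pos (by positivity) (by linarith)

theorem mu_nonneg (R k : ℕ) : 0 ≤ mu R k := by
  unfold mu
  have := sk_nonneg (k : ℝ)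
  positivity

/-- supersaturation for all large `r`, with one `ε` -/
theorem sat_large {R : ℕ} (hR : 1 ≤ R) {δ : ℝ} (hδ : 0 < δ) : ∃ ε : ℝ, 0 < ε ∧
    ∀ᶠ r : ℕ in atTop, Sat R r (δ / ((r + R).choose R : ℝ)) ε := by
  have hL := LL_ge hR
  -- the choice of `ε`
  obtain ⟨η, hη0, hη1, hη⟩ : ∃ η : ℝ, 0 < η ∧ η < 1 ∧ HH R η * (LL R - δ / 2) < LL R := by
    have h1 : Tendsto (fun x => HH R x * (LL R - δ / 2)) (𝓝[>] 0) (𝓝 (1 * (LL R - δ / 2))) :=
      (HH_tendsto R).mul_const _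
    have h2 := h1.eventually_lt_const (u := LL R) (by linarith)
    have h3 : ∀ᶠ x : ℝ in 𝓝[>] 0, x < 1 :=
      (nhdsWithin_le_nhds (s := Set.Ioi 0)) (Iio_mem_nhds one_pos)
    obtain ⟨x, e1, e2, e3⟩ := (h2.and (h3.and self_mem_nhdsWithin)).exists
    exact ⟨x, e3, e2, e1⟩
  have hδ2 : 0 < δ / (4 * LL R) := by positivity
  have t1 := (tendsto_add_atTop_nat R).eventually (mu_tendsto R _ hδ2)
  have t2 := (CC_tendsto hR).eventually_lt_const (show LL R < LL R + δ / 4 by linarith)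
  have t3 : ∀ᶠ r : ℕ in atTop, 1 / ((r + R : ℕ) : ℝ) < η / 2 := by
    have h : Tendsto (fun r : ℕ => 1 / ((r + R : ℕ) : ℝ)) atTop (𝓝 0) :=
      (tendsto_one_div_atTop_nhds_zero_nat (𝕜 := ℝ)).comp (tendsto_add_atTop_nat R)
    exact h.eventually_lt_const (by positivity)
  refine ⟨η / 2, by positivity, ?_⟩
  filter_upwards [LL_le_almost hR, t1, t2, t3] with r h1 h2 h3 h4
  by_contra hcon
  unfold Sat at hcon
  push Not at hcon
  have hC : (0 : ℝ) < ((r + R).choose R : ℝ) := by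
    exact_mod_cast Nat.choose_pos (show R ≤ r + R by omega)
  have hrnd : ∀ n, Rnd R n r (tt R r - δ / ((r + R).choose R : ℝ)) (η / 2) := by
    intro n
    obtain ⟨N, hN, H, hH, hc, hfew⟩ := hcon n
    exact rnd_of_graph hN H hH hc hfew
  have h5 := h1 _ (η / 2) (by positivity) (by linarith) hrnd
  have e1 : ((r + R).choose R : ℝ) * (tt R r - δ / ((r + R).choose R : ℝ)) = CC R r - δ := by
    unfold CC
    field_simp
  rw [e1] at h5
  have hik : (0 : ℝ) ≤ 1 / ((r + R : ℕ) : ℝ) := by positivity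
  have h6 : HH R (η / 2 + 1 / ((r + R : ℕ) : ℝ)) ≤ HH R η :=
    HH_mono (by positivity) (by linarith) hη1
  have h7 : 0 < HH R (η / 2 + 1 / ((r + R : ℕ) : ℝ)) := HH_pos (by positivity) (by linarith)
  have hX : 0 < mu R (r + R) * (CC R r - δ) := by
    by_contra hneg
    push Not at hneg
    have := mul_nonpos_of_nonneg_of_nonpos h7.le hneg
    linarith
  have hmu := mu_nonneg R (r + R)
  have hCC : 0 < CC R r - δ := by
    by_contra hneg
    push Not at hneg
    have := mul_nonpos_of_nonneg_of_nonpos hmu hneg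
    linarith
  have h8 : mu R (r + R) * (CC R r - δ) ≤ LL R - δ / 2 := by
    calc mu R (r + R) * (CC R r - δ) ≤ (1 + δ / (4 * LL R)) * (CC R r - δ) :=
          mul_le_mul_of_nonneg_right h2 hCC.le
      _ ≤ (1 + δ / (4 * LL R)) * (LL R - 3 * δ / 4) :=
          mul_le_mul_of_nonneg_left (by linarith) (by positivity)
      _ = LL R - 3 * δ / 4 + δ / 4 - δ / (4 * LL R) * (3 * δ / 4) := by
          field_simp
          ring
      _ ≤ LL R - δ / 2 := by
          have : 0 ≤ δ / (4 * LL R) * (3 * δ / 4) := by positivity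
          linarith
  have h9 : HH R (η / 2 + 1 / ((r + R : ℕ) : ℝ)) * (mu R (r + R) * (CC R r - δ)) ≤
      HH R η * (LL R - δ / 2) :=
    mul_le_mul h6 h8 hX.le (h7.le.trans h6)
  linarith

/-- **Supersaturation, uniformly in `r`.** -/
theorem supersat {R : ℕ} (hR : 1 ≤ R) {δ : ℝ} (hδ : 0 < δ) : ∃ ε : ℝ, 0 < ε ∧
    ∀ r : ℕ, Sat R r (δ / ((r + R).choose R : ℝ)) ε := by
  obtain ⟨ε₀, hε₀, h⟩ := sat_large hR hδ
  obtain ⟨r₁, hr₁⟩ := eventually_atTop.1 h
  have hfin : ∀ b : ℕ, ∃ ε : ℝ, 0 < ε ∧ ∀ r < b, Sat R r (δ / ((r + R).choose R : ℝ)) ε := by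
    intro b
    induction b with
    | zero => exact ⟨1, one_pos, fun r hr => absurd hr (Nat.not_lt_zero r)⟩
    | succ b ih =>
      obtain ⟨ε₁, h1, h2⟩ := ih
      have hC : (0 : ℝ) < ((b + R).choose R : ℝ) := by
        exact_mod_cast Nat.choose_pos (show R ≤ b + R by omega)
      obtain ⟨ε₂, h3, h4⟩ := sat_fixed R b (δ := δ / ((b + R).choose R : ℝ)) (by positivity)
      refine ⟨min ε₁ ε₂, lt_min h1 h3, fun r hr => ?_⟩
      rcases Nat.lt_succ_iff_lt_or_eq.1 hr with h5 | h5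
      · exact (h2 r h5).mono (min_le_left _ _)
      · subst h5
        exact h4.mono (min_le_right _ _)
  obtain ⟨ε₁, h1, h2⟩ := hfin r₁
  refine ⟨min ε₀ ε₁, lt_min hε₀ h1, fun r => ?_⟩
  rcases Nat.lt_or_ge r r₁ with h3 | h3
  · exact (h2 r h3).mono (min_le_right _ _)
  · exact (hr₁ r h3).mono (min_le_left _ _)

end Pool.Agent.J4.H85.GD
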